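import Pool.Agent.Q116.HT.Gf

/-!
# Top degree functional of a quadratic element
-/

set_option autoImplicit false

namespace Q116.HT

open MvPolynomial Finset

section lc

variable {m : ℕ}

/-- the four species -/
abbrev Sp := Option (Fin 3)

/-- the exponents `2 e_{κ a, a}` -/
noncomputable def dk (κ : Fin m → Sp) : (Sp × Fin m) →₀ ℕ :=
  Finsupp.equivFunOnFinite.symm (fun p => if κ p.2 = p.1 then 2 else 0)

theorem dk_apply (κ : Fin m → Sp) (p : Sp × Fin m) :
    dk κ p = if κ p.2 = p.1 then 2 else 0 := rfl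

theorem dk_inj {κ κ' : Fin m → Sp} (h : dk κ = dk κ') : κ = κ' := by
  funext a
  have h1 := DFunLike.congr_fun h (κ a, a)
  rw [dk_apply, dk_apply, if_pos rfl] at h1
  by_contra hc
  rw [if_neg (fun h' => hc h'.symm)] at h1
  exact two_ne_zero h1

theorem dk_degree (κ : Fin m → Sp) : (dk κ).degree = 2 * m := by
  rw [Finsupp.degree_eq_sum]
  simp only [dk_apply]
  rw [Fintype.sum_prod_type_right]
  simp
  ring

theorem fa_dk {R : Type} [Field R] [CharZero R] (κ : Fin m → Sp) : (fa (dk κ) : R) = 2 ^ m := by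
  unfold fa
  simp only [dk_apply]
  rw [Fintype.prod_prod_type_right]
  have : ∀ a : Fin m, ∏ x, (((if κ a = x then 2 else 0 : ℕ).factorial : ℕ) : R) = 2 := by
    intro a
    rw [Finset.prod_eq_single (κ a)]
    · simp
    · intro b _ hb
      rw [if_neg (Ne.symm hb)]
      simp
    · intro h; exact absurd (Finset.mem_univ _) h
  simp only [this]
  simp

variable {A : Type} [CommRing A] (y : Sp × Fin m → A) (t : Fin m → A)

/-- the multiplication rules -/
structure Rules : Prop where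
  sq : ∀ p : Sp × Fin m, y p * y p = 2 * t p.2
  off : ∀ (a : Fin m) (μ ν : Sp), μ ≠ ν → y (μ, a) * y (ν, a) = 0
  top : ∀ p : Sp × Fin m, y p * t p.2 = 0

variable {y t}

theorem prod_two (hy : Rules y t) {α : (Sp × Fin m) →₀ ℕ} {p q : Sp × Fin m} (hpq : p ≠ q)
    (h : p.2 = q.2) (hp : α p ≠ 0) (hq : α q ≠ 0) : ∏ i, y i ^ α i = 0 := by
  rw [← Finset.mul_prod_erase univ _ (Finset.mem_univ p),
    ← Finset.mul_prod_erase (univ.erase p) _ (Finset.mem_erase.mpr ⟨hpq.symm, Finset.mem_univ q⟩)]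
  have h1 : y p * y q ∣ y p ^ α p * (y q ^ α q * ∏ x ∈ (univ.erase p).erase q, y x ^ α x) := by
    rw [← mul_assoc]
    exact Dvd.dvd.mul_right (mul_dvd_mul (dvd_pow_self _ hp) (dvd_pow_self _ hq)) _
  obtain ⟨μ, a⟩ := p
  obtain ⟨ν, b⟩ := q
  simp only at h
  subst h
  rw [hy.off a μ ν (fun h' => hpq (by rw [h']))] at h1
  exact zero_dvd_iff.mp h1

theorem prod_three (hy : Rules y t) {α : (Sp × Fin m) →₀ ℕ} {p : Sp × Fin m}
    (hp : 3 ≤ α p) : ∏ i, y i ^ α i = 0 := by
  rw [← Finset.mul_prod_erase univ _ (Finset.mem_univ p)]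
  have h1 : y p ^ α p = 0 := by
    have h2 : y p ^ α p = y p ^ (α p - 3) * (y p * y p * y p) := by
      rw [show y p * y p * y p = y p ^ 3 by ring, ← pow_add, Nat.sub_add_cancel hp]
    rw [h2, hy.sq, show 2 * t p.2 * y p = 2 * (y p * t p.2) by ring, hy.top]
    ring
  rw [h1, zero_mul]

theorem prod_dk (hy : Rules y t) (κ : Fin m → Sp) :
    ∏ i, y i ^ (dk κ) i = 2 ^ m * ∏ a, t a := by
  simp only [dk_apply]
  rw [Fintype.prod_prod_type_right]
  have : ∀ a : Fin m, ∏ x, y (x, a) ^ (if κ a = x then 2 else 0 : ℕ) = 2 * t a := by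
    intro a
    rw [Finset.prod_eq_single (κ a)]
    · rw [if_pos rfl, sq, hy.sq]
    · intro b _ hb
      rw [if_neg (Ne.symm hb), pow_zero]
    · intro h; exact absurd (Finset.mem_univ _) h
  simp only [this, Finset.prod_mul_distrib]
  simp

theorem prod_cases (hy : Rules y t) {α : (Sp × Fin m) →₀ ℕ} (hα : α.degree = 2 * m) :
    ∏ i, y i ^ α i = 0 ∨ ∃ κ, α = dk κ := by
  by_cases h3 : ∃ p, 3 ≤ α p
  · obtain ⟨p, hp⟩ := h3
    exact Or.inl (prod_three hy hp)
  by_cases h2 : ∃ (p q : Sp × Fin m), p ≠ q ∧ p.2 = q.2 ∧ α p ≠ 0 ∧ α q ≠ 0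
  · obtain ⟨p, q, h, h', hp, hq⟩ := h2
    exact Or.inl (prod_two hy h h' hp hq)
  right
  push Not at h3 h2
  -- column sums
  have hs : ∀ a : Fin m, ∃ μ : Sp, ∀ ν, ν ≠ μ → α (ν, a) = 0 := by
    intro a
    by_cases h : ∃ μ, α (μ, a) ≠ 0
    · obtain ⟨μ, hμ⟩ := h
      refine ⟨μ, fun ν hν => ?_⟩
      by_contra hc
      exact hc (h2 (μ, a) (ν, a) (fun h' => hν (by rw [Prod.mk.injEq] at h'; exact h'.1.symm)) rfl
        hμ)
    · push Not at h
      exact ⟨none, fun ν _ => h ν⟩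
  choose κ hκ using hs
  have hsum : ∀ a : Fin m, ∑ μ, α (μ, a) = α (κ a, a) := by
    intro a
    rw [Finset.sum_eq_single (κ a)]
    · intro b _ hb
      exact hκ a b hb
    · intro h; exact absurd (Finset.mem_univ _) h
  have hle : ∀ a ∈ (univ : Finset (Fin m)), α (κ a, a) ≤ 2 := by
    intro a _
    have := h3 (κ a, a)
    omega
  have htot : ∑ a : Fin m, α (κ a, a) = ∑ a : Fin m, 2 := by
    rw [Finsupp.degree_eq_sum, Fintype.sum_prod_type_right] at hα
    simp only [hsum] at hα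
    rw [hα]
    simp
    ring
  have heq := (Finset.sum_eq_sum_iff_of_le hle).mp htot
  refine ⟨κ, Finsupp.ext fun p => ?_⟩
  obtain ⟨μ, a⟩ := p
  rw [dk_apply]
  simp only
  split_ifs with h
  · rw [← h]; exact heq a (Finset.mem_univ a)
  · exact hκ a μ (Ne.symm h)

variable [Algebra ℝ A]

theorem top_poly (hy : Rules y t) (L : A →ₗ[ℝ] ℝ) (hL : L (∏ a, t a) = 1)
    {G : MvPolynomial (Sp × Fin m) ℝ} (hG : G.IsHomogeneous (2 * m)) :
    L (aeval y G) = 2 ^ m * ∑ κ : Fin m → Sp, coeff (dk κ) G := by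
  classical
  have h1 : aeval y G = ∑ α ∈ G.support, coeff α G • ∏ i, y i ^ α i := by
    rw [aeval_def, eval₂_eq']
    refine Finset.sum_congr rfl fun α _ => ?_
    rw [Algebra.smul_def]
  rw [h1, map_sum]
  have h2 : ∀ α ∈ G.support, L (coeff α G • ∏ i, y i ^ α i) =
      ∑ κ : Fin m → Sp, if dk κ = α then 2 ^ m * coeff α G else 0 := by
    intro α hα
    have hd : α.degree = 2 * m := by
      by_contra hc
      exact (mem_support_iff.mp hα) (hG.coeff_eq_zero hc)
    by_cases hκ : ∃ κ, α = dk κ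
    · obtain ⟨κ, rfl⟩ := hκ
      rw [Finset.sum_eq_single κ]
      · rw [if_pos rfl, prod_dk hy, map_smul, smul_eq_mul]
        have : (2 : A) ^ m * ∏ a, t a = ((2 : ℝ) ^ m) • ∏ a, t a := by
          rw [Algebra.smul_def, map_pow, map_ofNat]
        rw [this, map_smul, hL, smul_eq_mul]
        ring
      · intro κ' _ hκ'
        rw [if_neg fun h => hκ' (dk_inj h)]
      · intro h; exact absurd (Finset.mem_univ _) h
    · rcases prod_cases hy hd with h | h
      · rw [h, smul_zero, map_zero]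
        symm
        refine Finset.sum_eq_zero fun κ _ => ?_
        rw [if_neg fun h' => hκ ⟨κ, h'.symm⟩]
      · exact absurd h hκ
  rw [Finset.sum_congr rfl h2, Finset.sum_comm, Finset.mul_sum]
  refine Finset.sum_congr rfl fun κ _ => ?_
  rw [Finset.sum_ite_eq]
  split_ifs with h
  · rfl
  · rw [notMem_support_iff.mp h, mul_zero]

/-- the polynomial whose Gaussian mean is computed -/
noncomputable def sqp (m : ℕ) : MvPolynomial (Sp × Fin m) ℝ := ∏ a, ∑ μ, X (μ, a) ^ 2

theorem gE_sqp (K : Sp × Fin m → Sp × Fin m → ℝ) :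
    gE K (sqp m) = 2 ^ m / (m.factorial : ℝ) *
      ∑ κ : Fin m → Sp, coeff (dk κ) (qf K ^ m) := by
  rw [sqp, Fintype.prod_sum, map_sum, Finset.mul_sum]
  refine Finset.sum_congr rfl fun κ _ => ?_
  have h1 : (∏ a, X (κ a, a) ^ 2 : MvPolynomial (Sp × Fin m) ℝ) = monomial (dk κ) 1 := by
    rw [monomial_eq, map_one, one_mul, Finsupp.prod_fintype _ _ (fun i => pow_zero _),
      Fintype.prod_prod_type_right]
    refine Finset.prod_congr rfl fun a _ => ?_
    rw [Finset.prod_eq_single (κ a)]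
    · rw [dk_apply, if_pos rfl]
    · intro b _ hb
      rw [dk_apply, if_neg (Ne.symm hb), pow_zero]
    · intro h; exact absurd (Finset.mem_univ _) h
  rw [h1, gE_monomial, one_mul, tot_mo K (dk_degree κ), mo, fa_dk]
  ring

theorem top_pow (hy : Rules y t) (L : A →ₗ[ℝ] ℝ) (hL : L (∏ a, t a) = 1)
    (K : Sp × Fin m → Sp × Fin m → ℝ) :
    L ((∑ i, ∑ j, K i j • (y i * y j)) ^ m) = 2 ^ m * (m.factorial : ℝ) * gE K (sqp m) := by
  have h1 : ∑ i, ∑ j, K i j • (y i * y j) = aeval y (C 2 * qf K) := by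
    have h0 : (C 2 * qf K : MvPolynomial (Sp × Fin m) ℝ) =
        ∑ i, ∑ j, C (K i j) * (X i * X j) := by
      rw [qf, ← mul_assoc, ← map_mul]
      norm_num
    rw [h0, map_sum]
    refine Finset.sum_congr rfl fun i _ => ?_
    rw [map_sum]
    refine Finset.sum_congr rfl fun j _ => ?_
    rw [map_mul, map_mul, aeval_C, aeval_X, aeval_X, Algebra.smul_def]
  have h2 : (aeval y (C 2 * qf K)) ^ m = ((2 : ℝ) ^ m) • aeval y (qf K ^ m) := by
    rw [map_mul, mul_pow, aeval_C, Algebra.smul_def, map_pow, map_pow]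
  have h3 : (qf K ^ m).IsHomogeneous (2 * m) := (qf_hom K).pow m
  rw [h1, h2, map_smul, top_poly hy L hL h3, gE_sqp, smul_eq_mul]
  have : (m.factorial : ℝ) ≠ 0 := by exact_mod_cast Nat.factorial_ne_zero m
  field_simp

end lc

end Q116.HT
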