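import Pool.Agent.Q116.HT.Gf
import Pool.Agent.Y195.HF.Gauss

/-!
# Adding a rank one Gaussian
-/

set_option autoImplicit false

namespace Q116.HT

open MvPolynomial Finset MeasureTheory Pool.Agent.Y195.HF

/-- Gaussian mean of a polynomial -/
noncomputable def gm1 (p : Polynomial ℝ) : ℝ :=
  (1 / Real.sqrt Real.pi) * ∫ t : ℝ, p.eval (Real.sqrt 2 * t) * Real.exp (-t ^ 2)

theorem int_mono (k : ℕ) (a : ℝ) : Integrable (fun t : ℝ =>
    (Polynomial.C a * Polynomial.X ^ k : Polynomial ℝ).eval (Real.sqrt 2 * t) *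
      Real.exp (-t ^ 2)) := by
  have h : (fun t : ℝ => (Polynomial.C a * Polynomial.X ^ k : Polynomial ℝ).eval
      (Real.sqrt 2 * t) * Real.exp (-t ^ 2)) =
      fun t : ℝ => (a * Real.sqrt 2 ^ k) * (t ^ k * Real.exp (-t ^ 2)) := by
    funext t
    simp only [Polynomial.eval_mul, Polynomial.eval_C, Polynomial.eval_pow, Polynomial.eval_X,
      mul_pow]
    ring
  rw [h]
  exact (gint k).const_mul _

theorem int_poly (p : Polynomial ℝ) : Integrable (fun t : ℝ =>
    p.eval (Real.sqrt 2 * t) * Real.exp (-t ^ 2)) := by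
  induction p using Polynomial.induction_on' with
  | add p q hp hq =>
    have h : (fun t : ℝ => (p + q).eval (Real.sqrt 2 * t) * Real.exp (-t ^ 2)) =
      fun t : ℝ => p.eval (Real.sqrt 2 * t) * Real.exp (-t ^ 2) +
        q.eval (Real.sqrt 2 * t) * Real.exp (-t ^ 2) := by
      funext t
      rw [Polynomial.eval_add, add_mul]
    rw [h]
    exact hp.add hq
  | monomial k a =>
    rw [← Polynomial.C_mul_X_pow_eq_monomial]
    exact int_mono k a

theorem gm1_add (p q : Polynomial ℝ) : gm1 (p + q) = gm1 p + gm1 q := by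
  unfold gm1
  rw [← mul_add, ← integral_add (int_poly p) (int_poly q)]
  congr 1
  refine integral_congr_ae (Filter.Eventually.of_forall fun t => ?_)
  simp only [Polynomial.eval_add, add_mul]

theorem gm1_mono (k : ℕ) (a : ℝ) : gm1 (Polynomial.C a * Polynomial.X ^ k) =
    a * (Real.sqrt 2 ^ k * gmom k / Real.sqrt Real.pi) := by
  unfold gm1 gmom
  have h : (fun t : ℝ => (Polynomial.C a * Polynomial.X ^ k : Polynomial ℝ).eval
      (Real.sqrt 2 * t) * Real.exp (-t ^ 2)) =
      fun t : ℝ => (a * Real.sqrt 2 ^ k) * (t ^ k * Real.exp (-t ^ 2)) := by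
    funext t
    simp only [Polynomial.eval_mul, Polynomial.eval_C, Polynomial.eval_pow, Polynomial.eval_X,
      mul_pow]
    ring
  rw [h, integral_const_mul]
  ring

/-- moments of the standard Gaussian -/
noncomputable def mom (k : ℕ) : ℝ := Real.sqrt 2 ^ k * gmom k / Real.sqrt Real.pi

theorem sqrt_pi_pos : 0 < Real.sqrt Real.pi := Real.sqrt_pos.mpr Real.pi_pos

theorem mom_zero : mom 0 = 1 := by
  have h := gmom_even 0
  simp only [mul_zero, Nat.factorial_zero, Nat.cast_one, pow_zero, mul_one, div_one, one_mul] at h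
  rw [mom, h, pow_zero, one_mul, div_self sqrt_pi_pos.ne']

theorem mom_one : mom 1 = 0 := by
  rw [mom, gmom_odd odd_one, mul_zero, zero_div]

theorem gmom_rec (k : ℕ) : gmom (k + 2) = ((k : ℝ) + 1) / 2 * gmom k := by
  rcases Nat.even_or_odd k with ⟨j, hj⟩ | hk
  · have hj' : k = 2 * j := by omega
    subst hj'
    rw [show 2 * j + 2 = 2 * (j + 1) by ring, gmom_even, gmom_even]
    have h7 : (2 * (j + 1)).factorial = (2 * j + 2) * ((2 * j + 1) * (2 * j).factorial) := by
      rw [show 2 * (j + 1) = (2 * j + 1) + 1 by ring, Nat.factorial_succ, Nat.factorial_succ]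
    rw [h7, Nat.factorial_succ]
    push_cast
    field_simp
    ring
  · rw [gmom_odd hk, gmom_odd (by obtain ⟨j, hj⟩ := hk; exact ⟨j + 1, by omega⟩), mul_zero]

theorem mom_rec (k : ℕ) : mom (k + 2) = ((k : ℝ) + 1) * mom k := by
  have h2 : Real.sqrt 2 * Real.sqrt 2 = 2 := Real.mul_self_sqrt (by norm_num)
  unfold mom
  rw [gmom_rec, pow_add, sq, h2]
  ring

theorem gm1_le {c : ℝ} {p : Polynomial ℝ} (h : ∀ t : ℝ, c ≤ p.eval t) : c ≤ gm1 p := by
  have h1 : gm1 (Polynomial.C c * Polynomial.X ^ 0) ≤ gm1 p := by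
    unfold gm1
    refine mul_le_mul_of_nonneg_left ?_ (by positivity)
    refine integral_mono (int_mono 0 c) (int_poly p) fun t => ?_
    simp only [pow_zero, mul_one, Polynomial.eval_C]
    exact mul_le_mul_of_nonneg_right (h _) (Real.exp_pos _).le
  rw [gm1_mono] at h1
  have h2 := mom_zero
  unfold mom at h2
  rw [h2, mul_one] at h1
  exact h1

section opt

variable {ι : Type} [Fintype ι] [DecidableEq ι]

/-- covariance with one more independent standard variable -/
def oc (K : ι → ι → ℝ) : Option ι → Option ι → ℝ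
  | none, none => 1
  | none, some _ => 0
  | some _, none => 0
  | some i, some j => K i j

theorem oc_rename {K : ι → ι → ℝ} {E' : MvPolynomial (Option ι) ℝ →ₗ[ℝ] ℝ} (hE' : IsG (oc K) E') :
    IsG K (E' ∘ₗ (rename some : MvPolynomial ι ℝ →ₐ[ℝ] MvPolynomial (Option ι) ℝ).toLinearMap) where
  one := by simp [hE'.one]
  step i f := by
    simp only [LinearMap.comp_apply, AlgHom.toLinearMap_apply]
    rw [map_mul, rename_X, hE'.step, Fintype.sum_option]
    simp only [oc, zero_mul, zero_add]
    refine Finset.sum_congr rfl fun j _ => ?_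
    rw [pderiv_rename (Option.some_injective _)]

theorem pderiv_none_rename (f : MvPolynomial ι ℝ) :
    pderiv (none : Option ι) (rename some f : MvPolynomial (Option ι) ℝ) = 0 := by
  induction f using MvPolynomial.induction_on with
  | C a => simp
  | add p q hp hq => simp [hp, hq]
  | mul_X p i hp =>
    rw [map_mul, pderiv_mul, hp, rename_X, pderiv_X_of_ne (by simp)]
    simp

theorem oc_pow {K : ι → ι → ℝ} {E : MvPolynomial ι ℝ →ₗ[ℝ] ℝ} (hE : IsG K E)
    {E' : MvPolynomial (Option ι) ℝ →ₗ[ℝ] ℝ} (hE' : IsG (oc K) E') (f : MvPolynomial ι ℝ) :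
    ∀ k : ℕ, E' (X none ^ k * rename some f) = mom k * E f := by
  have h0 : E' (rename some f) = E f := hE.unique (oc_rename hE') f
  have hstep : ∀ g : MvPolynomial (Option ι) ℝ, E' (X none * g) = E' (pderiv none g) := by
    intro g
    rw [hE'.step, Fintype.sum_option]
    simp [oc]
  have key : ∀ k : ℕ, E' (X none ^ k * rename some f) = mom k * E f ∧
      E' (X none ^ (k + 1) * rename some f) = mom (k + 1) * E f := by
    intro k
    induction k with
    | zero =>
      refine ⟨by rw [pow_zero, one_mul, h0, mom_zero, one_mul], ?_⟩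
      rw [zero_add, pow_one, hstep, pderiv_none_rename, map_zero, mom_one, zero_mul]
    | succ k ih =>
      refine ⟨ih.2, ?_⟩
      have h1 : (X none : MvPolynomial (Option ι) ℝ) ^ (k + 1 + 1) * rename some f =
          X none * (X none ^ (k + 1) * rename some f) := by ring
      rw [h1, hstep, pderiv_mul, pderiv_none_rename, mul_zero, add_zero, pderiv_pow,
        pderiv_X_self, mul_one, Nat.add_sub_cancel]
      have h2 : ((k + 1 : ℕ) : MvPolynomial (Option ι) ℝ) * X none ^ k * rename some f =
          C ((k : ℝ) + 1) * (X none ^ k * rename some f) := by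
        simp only [map_add, map_natCast, map_one]
        push_cast
        ring
      rw [h2, hE'.C_mul, ih.1, show k + 1 + 1 = k + 2 by rfl, mom_rec]
      ring
  exact fun k => (key k).1

/-- evaluation of the new variable -/
noncomputable def evo (t : ℝ) : MvPolynomial (Option ι) ℝ →ₐ[ℝ] MvPolynomial ι ℝ :=
  aeval (fun o => Option.elim o (C t) X)

theorem evo_rename (t : ℝ) (f : MvPolynomial ι ℝ) : evo t (rename some f) = f := by
  rw [evo, aeval_rename]
  have : ((fun o : Option ι => Option.elim o (C t) X) ∘ some) =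
      (X : ι → MvPolynomial ι ℝ) := by
    funext i; rfl
  rw [this, aeval_X_left, AlgHom.id_apply]

/-- the building blocks -/
def gens (ι : Type) : Set (MvPolynomial (Option ι) ℝ) :=
  {G | ∃ (k : ℕ) (f : MvPolynomial ι ℝ), G = X none ^ k * rename some f}

theorem mem_gens (G : MvPolynomial (Option ι) ℝ) : G ∈ AddSubmonoid.closure (gens ι) := by
  induction G using MvPolynomial.induction_on with
  | C a =>
    refine AddSubmonoid.subset_closure ⟨0, C a, ?_⟩
    rw [rename_C, pow_zero, one_mul]
  | add p q hp hq => exact add_mem hp hq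
  | mul_X p j hp =>
    induction hp using AddSubmonoid.closure_induction with
    | mem x hx =>
      obtain ⟨k, f, rfl⟩ := hx
      rcases j with _ | i
      · exact AddSubmonoid.subset_closure ⟨k + 1, f, by ring⟩
      · refine AddSubmonoid.subset_closure ⟨k, f * X i, ?_⟩
        rw [map_mul, rename_X]
        ring
    | zero => rw [zero_mul]; exact zero_mem _
    | add x y _ _ hx hy => rw [add_mul]; exact add_mem hx hy

theorem oc_poly {K : ι → ι → ℝ} {E : MvPolynomial ι ℝ →ₗ[ℝ] ℝ} (hE : IsG K E)
    {E' : MvPolynomial (Option ι) ℝ →ₗ[ℝ] ℝ} (hE' : IsG (oc K) E')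
    (G : MvPolynomial (Option ι) ℝ) :
    ∃ p : Polynomial ℝ, (∀ t, E (evo t G) = p.eval t) ∧ E' G = gm1 p := by
  induction mem_gens G using AddSubmonoid.closure_induction with
  | mem x hx =>
    obtain ⟨k, f, rfl⟩ := hx
    refine ⟨Polynomial.C (E f) * Polynomial.X ^ k, fun t => ?_, ?_⟩
    · rw [map_mul, map_pow, evo_rename]
      have : evo t (X none : MvPolynomial (Option ι) ℝ) = C t := by
        rw [evo, aeval_X]; rfl
      rw [this, ← map_pow, hE.C_mul]
      simp only [Polynomial.eval_mul, Polynomial.eval_C, Polynomial.eval_pow, Polynomial.eval_X]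
      ring
    · rw [oc_pow hE hE', gm1_mono, mom]
      ring
  | zero =>
    refine ⟨0, fun t => by simp, ?_⟩
    simp [gm1]
  | add x y _ _ hx hy =>
    obtain ⟨p, hp, hp'⟩ := hx
    obtain ⟨q, hq, hq'⟩ := hy
    refine ⟨p + q, fun t => ?_, ?_⟩
    · rw [map_add, map_add, hp, hq, Polynomial.eval_add]
    · rw [map_add, hp', hq', gm1_add]

/-- translation -/
noncomputable def shf (v : ι → ℝ) : MvPolynomial ι ℝ →ₐ[ℝ] MvPolynomial ι ℝ :=
  aeval (fun i => X i + C (v i))

/-- The rank one step. -/
theorem rank_one {K : ι → ι → ℝ} (hK : ∀ i j, K i j = K j i) (a : ι → ℝ)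
    {E : MvPolynomial ι ℝ →ₗ[ℝ] ℝ}
    (hE : IsG K E) {E₁ : MvPolynomial ι ℝ →ₗ[ℝ] ℝ} (hE₁ : IsG (fun i j => K i j + a i * a j) E₁)
    (f : MvPolynomial ι ℝ) {c : ℝ} (h : ∀ t : ℝ, c ≤ E (shf (fun i => t * a i) f)) :
    c ≤ E₁ f := by
  have hO : IsG (oc K) (gE (oc K)) := gE_isG fun i j => by
    rcases i with _ | i <;> rcases j with _ | j <;> simp [oc]
    exact hK i j
  have hA := hO.comp_lin (ι := ι) (K := fun i j => K i j + a i * a j)
    (fun i o => Option.elim o (a i) (fun j => if j = i then 1 else 0)) (by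
      intro i i'
      simp only [Fintype.sum_option, oc, Option.elim_none, Option.elim_some, mul_zero, zero_mul,
        Finset.sum_const_zero, add_zero, zero_add, mul_one, mul_ite, ite_mul, one_mul,
        Finset.sum_ite_eq', Finset.mem_univ, if_true]
      ring)
  have h1 : E₁ f = gE (oc K) (lin (fun i o => Option.elim o (a i)
      (fun j => if j = i then 1 else 0)) f) := hA.unique hE₁ f
  obtain ⟨p, hp, hp'⟩ := oc_poly hE hO (lin (fun i o => Option.elim o (a i)
      (fun j => if j = i then 1 else 0)) f)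
  rw [h1, hp']
  refine gm1_le fun t => ?_
  rw [← hp]
  have h2 : evo t (lin (fun i o => Option.elim o (a i) (fun j => if j = i then 1 else 0)) f) =
      shf (fun i => t * a i) f := by
    have : (evo t).comp (lin (fun i o => Option.elim o (a i) (fun j => if j = i then 1 else 0))) =
        (shf (fun i => t * a i) : MvPolynomial ι ℝ →ₐ[ℝ] MvPolynomial ι ℝ) := by
      refine MvPolynomial.algHom_ext fun i => ?_
      rw [AlgHom.comp_apply, lin_X, Fintype.sum_option, map_add, map_mul, map_sum]
      simp only [Option.elim_none, Option.elim_some]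
      have e1 : evo t (X none : MvPolynomial (Option ι) ℝ) = C t := by
        rw [evo, aeval_X]; rfl
      have e2 : ∀ j : ι, evo t (X (some j) : MvPolynomial (Option ι) ℝ) = X j := by
        intro j
        rw [evo, aeval_X]; rfl
      have e3 : ∀ r : ℝ, evo t (C r : MvPolynomial (Option ι) ℝ) = C r := by
        intro r
        rw [evo, aeval_C]; rfl
      simp only [map_mul, e1, e2, e3]
      rw [Finset.sum_eq_single i]
      · rw [if_pos rfl, shf, aeval_X, map_one, one_mul, map_mul]
        ring
      · intro j _ hj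
        rw [if_neg hj, map_zero, zero_mul]
      · intro hh; exact absurd (Finset.mem_univ _) hh
    exact DFunLike.congr_fun this f
  rw [h2]
  exact h t

end opt

end Q116.HT
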