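import Pool.Agent.Q116.HT.Po
import Pool.Agent.Q116.HT.Rk
import Pool.Agent.Q116.HT.Lc

/-!
# The lower bound for four species
-/

set_option autoImplicit false

namespace Q116.HT

open MvPolynomial Finset

section value

/-- moments of one variable of variance `s` -/
theorem one_var {E : MvPolynomial Unit ℝ →ₗ[ℝ] ℝ} {s : ℝ} (hE : IsG (fun _ _ => s) E) (m : ℕ) :
    E (X () ^ (2 * m)) * (m.factorial : ℝ) = (s / 2) ^ m * ((2 * m).factorial : ℝ) := by
  induction m with
  | zero => simp [hE.one]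
  | succ m ih =>
    have h1 : (X () : MvPolynomial Unit ℝ) ^ (2 * (m + 1)) = X () * X () ^ (2 * m + 1) := by
      rw [← pow_succ']; ring_nf
    have h2 : E (X () ^ (2 * (m + 1))) = s * ((2 * m + 1 : ℝ) * E (X () ^ (2 * m))) := by
      rw [h1, hE.step]
      simp only [Finset.univ_unique, PUnit.default_eq_unit, Finset.sum_singleton]
      rw [pderiv_pow, pderiv_X_self, mul_one, Nat.add_sub_cancel]
      have h3 : ((2 * m + 1 : ℕ) : MvPolynomial Unit ℝ) * X () ^ (2 * m) =
          C (2 * m + 1 : ℝ) * X () ^ (2 * m) := by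
        simp only [map_add, map_mul, map_natCast, map_one, map_ofNat]
        push_cast
        ring
      rw [h3, hE.C_mul]
    have h4 : ((2 * (m + 1)).factorial : ℝ) = (2 * m + 2) * ((2 * m + 1) * (2 * m).factorial) := by
      rw [show 2 * (m + 1) = (2 * m + 1) + 1 by ring, Nat.factorial_succ, Nat.factorial_succ]
      push_cast
      ring
    have h5 : ((m + 1).factorial : ℝ) = (m + 1) * m.factorial := by
      rw [Nat.factorial_succ]; push_cast; ring
    rw [h2, h4, h5, pow_succ]
    linear_combination (s * (2 * m + 1) * (m + 1)) * ih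

variable {κ : Type} [Fintype κ] [DecidableEq κ] {m : ℕ}

theorem equal_val {Ω : κ → κ → ℝ} {E : MvPolynomial κ ℝ →ₗ[ℝ] ℝ} (hE : IsG Ω E) (u : Fin m → κ)
    {s : ℝ} (hu : ∀ a b, Ω (u a) (u b) = s) :
    E (∏ a, X (u a) ^ 2) * (m.factorial : ℝ) = (s / 2) ^ m * ((2 * m).factorial : ℝ) := by
  have h1 := hE.comp_lin (ι := Fin m) (K := fun _ _ => s) (fun a j => if j = u a then 1 else 0) (by
    intro a b
    rw [Finset.sum_eq_single (u a), Finset.sum_eq_single (u b)]
    · rw [if_pos rfl, if_pos rfl, hu]; ring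
    · intro k _ hk
      rw [if_neg hk, mul_zero]
    · intro hh; exact absurd (Finset.mem_univ _) hh
    · intro j _ hj
      refine Finset.sum_eq_zero fun k _ => ?_
      rw [if_neg hj, zero_mul, zero_mul]
    · intro hh; exact absurd (Finset.mem_univ _) hh)
  have h0 : IsG (fun _ _ : Unit => s) (gE (fun _ _ : Unit => s)) := gE_isG fun _ _ => rfl
  have h2 := h0.comp_lin (ι := Fin m) (K := fun _ _ => s) (fun _ _ => 1) (by
    intro a b
    simp)
  have h3 := h1.unique h2 (∏ a, X a ^ 2)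
  simp only [LinearMap.comp_apply, AlgHom.toLinearMap_apply, map_prod, map_pow, lin_X] at h3
  have h4 : ∀ a : Fin m, (∑ j, C (if j = u a then (1 : ℝ) else 0) * X j : MvPolynomial κ ℝ) =
      X (u a) := by
    intro a
    rw [Finset.sum_eq_single (u a)]
    · rw [if_pos rfl, map_one, one_mul]
    · intro j _ hj
      rw [if_neg hj, map_zero, zero_mul]
    · intro hh; exact absurd (Finset.mem_univ _) hh
  simp only [h4] at h3
  rw [← h3, ← one_var h0 m]
  congr 2
  simp [pow_mul]

end value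

variable {m : ℕ}

/-- first index set -/
abbrev J3 (m : ℕ) := Fin 3 × Fin m

/-- second index set -/
abbrev Y3 (m : ℕ) := (Fin 3 × Fin m) ⊕ (Fin m × Bool)

/-- big covariance -/
def om (N c : Fin m → Fin m → ℝ) (δ : ℝ) : J3 m ⊕ Y3 m → J3 m ⊕ Y3 m → ℝ
  | Sum.inl x, Sum.inl x' => if x.1 = x'.1 then N x.2 x'.2 else 0
  | Sum.inr (Sum.inl x), Sum.inr (Sum.inl x') => if x.1 = x'.1 then |N x.2 x'.2| else 0
  | Sum.inr (Sum.inr (i, false)), Sum.inr (Sum.inr (j, false)) => 2 * c i j - 3 * |N i j|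
  | Sum.inr (Sum.inr (_, true)), Sum.inr (Sum.inr (_, true)) => 2 * δ
  | _, _ => 0

/-- four species covariance -/
def k0 (N c : Fin m → Fin m → ℝ) (δ : ℝ) : Sp × Fin m → Sp × Fin m → ℝ
  | (some μ, i), (some ν, j) => if μ = ν then N i j else 0
  | (none, i), (none, j) => 2 * c i j + 2 * δ
  | _, _ => 0

/-- the substitution -/
def am : Sp × Fin m → J3 m ⊕ Y3 m → ℝ
  | (some μ, i), Sum.inl x => if x = (μ, i) then 1 else 0
  | (some _, _), Sum.inr _ => 0
  | (none, _), Sum.inl _ => 0
  | (none, i), Sum.inr (Sum.inl x) => if x.2 = i then 1 else 0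
  | (none, i), Sum.inr (Sum.inr x) => if x.1 = i then 1 else 0

theorem om_cov {N c : Fin m → Fin m → ℝ} {δ : ℝ} (hN : ∀ i j, N i j = N j i)
    (hc : ∀ i j, c i j = c j i) (h : ∀ i j, 3 * |N i j| ≤ 2 * c i j) (hδ : 0 ≤ δ) :
    Cov (om N c δ) (fun x : J3 m => (Sum.inl x : Y3 m)) where
  sym i j := by
    rcases i with x | (x | ⟨i, s⟩) <;> rcases j with y | (y | ⟨j, t⟩)
    · simp only [om, hN x.2 y.2, eq_comm]
    · rfl
    · cases t <;> rfl
    · rfl
    · simp only [om, hN x.2 y.2, eq_comm]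
    · cases t <;> rfl
    · cases s <;> rfl
    · cases s <;> rfl
    · cases s <;> cases t <;> simp [om, hN i j, hc i j]
  cross x y := by rcases y with y | ⟨j, t⟩ <;> rfl
  dom x x' := by
    simp only [om]
    split_ifs
    · exact le_rfl
    · simp
  nn y y' := by
    rcases y with x | ⟨i, s⟩ <;> rcases y' with y | ⟨j, t⟩
    · simp only [om]
      split_ifs
      · exact abs_nonneg _
      · exact le_rfl
    · exact le_rfl
    · cases s <;> exact le_rfl
    · cases s <;> cases t
      · have := h i j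
        simp only [om]
        linarith
      · exact le_rfl
      · exact le_rfl
      · simp only [om]
        linarith

theorem k0_eq (N c : Fin m → Fin m → ℝ) (δ : ℝ) (p q : Sp × Fin m) :
    k0 N c δ p q = ∑ j, ∑ k, am p j * om N c δ j k * am q k := by
  obtain ⟨p, i⟩ := p
  obtain ⟨q, j⟩ := q
  rcases p with _ | μ <;> rcases q with _ | ν
  · simp only [Fintype.sum_sum_type, am, om, k0, zero_mul, mul_zero, Finset.sum_const_zero,
      zero_add, add_zero, Fintype.sum_prod_type, Fintype.sum_bool, Fin.sum_univ_three, ite_mul,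
      mul_ite, one_mul, mul_one, Finset.sum_ite_eq', Finset.mem_univ, if_true]
    have e1 : ((0 : Fin 3) = 1) = False := by simp
    have e2 : ((0 : Fin 3) = 2) = False := by simp
    have e3 : ((1 : Fin 3) = 0) = False := by simp
    have e4 : ((1 : Fin 3) = 2) = False := by simp
    have e5 : ((2 : Fin 3) = 0) = False := by simp
    have e6 : ((2 : Fin 3) = 1) = False := by simp
    simp only [e1, e2, e3, e4, e5, e6, if_false, ite_self, Finset.sum_add_distrib,
      Finset.sum_ite_eq', Finset.mem_univ, if_true, add_zero, zero_add, Finset.sum_const_zero]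
    ring
  · simp only [Fintype.sum_sum_type, am, om, k0, zero_mul, mul_zero, Finset.sum_const_zero,
      zero_add, add_zero]
  · simp only [Fintype.sum_sum_type, am, om, k0, zero_mul, mul_zero, Finset.sum_const_zero,
      zero_add, add_zero]
  · simp only [Fintype.sum_sum_type, am, om, k0, zero_mul, mul_zero, Finset.sum_const_zero,
      zero_add, add_zero, ite_mul,
      mul_ite, one_mul, mul_one, Finset.sum_ite_eq', Finset.mem_univ, if_true]
    rw [Finset.sum_eq_single (μ, i)]
    · rw [if_pos rfl]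
    · intro x _ hx
      rw [if_neg hx, ite_self]
    · intro hh; exact absurd (Finset.mem_univ _) hh

/-- the polynomial with shifts -/
noncomputable def fg (g : Sp × Fin m → ℝ) : MvPolynomial (Sp × Fin m) ℝ :=
  ∏ a, ∑ p : Sp, (X (p, a) + C (g (p, a))) ^ 2

theorem fg_zero : fg (fun _ : Sp × Fin m => (0 : ℝ)) = sqp m := by
  simp [fg, sqp]

/-- the plane of a variable -/
def pl : Y3 m → Fin m
  | Sum.inl x => x.2
  | Sum.inr x => x.1

/-- variables in plane `a` -/
def Pa (a : Fin m) : Finset (Y3 m) := univ.filter fun y => pl y = a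

/-- diagonal pairs -/
def Dg (a : Fin m) : Finset (Y3 m × Y3 m) :=
  (univ : Finset (Fin 3)).image fun μ => ((Sum.inl (μ, a) : Y3 m), (Sum.inl (μ, a) : Y3 m))

/-- the pairs -/
def Da (a : Fin m) : Finset (Y3 m × Y3 m) := (Pa a ×ˢ Pa a) \ Dg a

/-- the first variables of plane `a` -/
def Aa (a : Fin m) : Finset (J3 m) := (univ : Finset (Fin 3)).image fun μ => (μ, a)

theorem lin_am_some (μ : Fin 3) (i : Fin m) :
    lin (am (m := m)) (X (some μ, i)) = X (Sum.inl (μ, i)) := by
  rw [lin_X, Finset.sum_eq_single (Sum.inl (μ, i))]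
  · simp [am]
  · intro j _ hj
    rcases j with x | y
    · have : x ≠ (μ, i) := fun h' => hj (by rw [h'])
      simp [am, this]
    · simp [am]
  · intro hh; exact absurd (Finset.mem_univ _) hh

theorem lin_am_none (i : Fin m) :
    lin (am (m := m)) (X (none, i)) = ∑ y ∈ Pa i, X (Sum.inr y) := by
  rw [lin_X, Fintype.sum_sum_type, Pa, Finset.sum_filter]
  have h1 : ∑ a₁ : J3 m, (C (am (none, i) (Sum.inl a₁)) * X (Sum.inl a₁) :
      MvPolynomial (J3 m ⊕ Y3 m) ℝ) = 0 := by
    refine Finset.sum_eq_zero fun x _ => ?_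
    simp [am]
  rw [h1, zero_add]
  refine Finset.sum_congr rfl fun y _ => ?_
  rcases y with x | x
  · simp only [am, pl]
    split_ifs <;> simp
  · simp only [am, pl]
    split_ifs <;> simp

theorem lin_fg (g : Sp × Fin m → ℝ) (hg : ∀ a, g (none, a) = 0) :
    lin (am (m := m)) (fg g) = ∏ a, fi (fun x : J3 m => (Sum.inl x : Y3 m))
      (fun x => g (some x.1, x.2)) Aa Da a := by
  rw [fg, map_prod]
  refine Finset.prod_congr rfl fun a _ => ?_
  rw [map_sum, Fintype.sum_option]
  simp only [map_pow, map_add, lin_am_some, lin_am_none, hg, map_zero, add_zero]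
  have hC : ∀ r : ℝ, lin (am (m := m)) (C r) = C r := by
    intro r
    rw [lin, aeval_C]; rfl
  simp only [hC]
  rw [fi, Aa, Finset.sum_image (fun x _ y _ h => by simpa using h)]
  have h1 : Dg a ⊆ Pa a ×ˢ Pa a := by
    intro p hp
    simp only [Dg, Finset.mem_image, Finset.mem_univ, true_and] at hp
    obtain ⟨μ, rfl⟩ := hp
    simp [Pa, pl]
  have h2 : (∑ y ∈ Pa a, X (Sum.inr y) : MvPolynomial (J3 m ⊕ Y3 m) ℝ) ^ 2 =
      ∑ p ∈ Da a, X (Sum.inr p.1) * X (Sum.inr p.2) + ∑ p ∈ Dg a, X (Sum.inr p.1) *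
        X (Sum.inr p.2) := by
    rw [Da, Finset.sum_sdiff h1, sq, Finset.sum_mul_sum, ← Finset.sum_product']
  have h3 : (∑ p ∈ Dg a, X (Sum.inr p.1) * X (Sum.inr p.2) : MvPolynomial (J3 m ⊕ Y3 m) ℝ) =
      ∑ μ : Fin 3, X (Sum.inr (Sum.inl (μ, a))) ^ 2 := by
    rw [Dg, Finset.sum_image (fun x _ y _ h => by simpa using h)]
    refine Finset.sum_congr rfl fun μ _ => ?_
    ring
  rw [h2, h3]
  simp only [qq, Finset.sum_add_distrib]
  ring

theorem base_bound {N c : Fin m → Fin m → ℝ} {δ : ℝ} (hN : ∀ i j, N i j = N j i)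
    (hc : ∀ i j, c i j = c j i) (h : ∀ i j, 3 * |N i j| ≤ 2 * c i j) (hδ : 0 ≤ δ)
    (g : Sp × Fin m → ℝ) (hg : ∀ a, g (none, a) = 0) :
    δ ^ m * ((2 * m).factorial : ℝ) / (m.factorial : ℝ) ≤ gE (k0 N c δ) (fg g) := by
  have hcov := om_cov hN hc h hδ
  have hE : IsG (om N c δ) (gE (om N c δ)) := gE_isG hcov.sym
  have hA := hE.comp_lin (K := k0 N c δ) am (k0_eq N c δ)
  have hsym : ∀ p q, k0 N c δ p q = k0 N c δ q p := by
    rintro ⟨p, i⟩ ⟨q, j⟩
    rcases p with _ | μ <;> rcases q with _ | ν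
    · simp only [k0, hc i j]
    · rfl
    · rfl
    · simp only [k0, hN i j, eq_comm]
  have h1 : gE (k0 N c δ) (fg g) = gE (om N c δ) (lin am (fg g)) := hA.unique (gE_isG hsym) _
  rw [h1, lin_fg g hg]
  refine le_trans ?_ (lower_fi' hcov hE (fun x => g (some x.1, x.2)) Aa Da (fun i j hij => ?_)
    (fun a => Sum.inr (a, true)) (fun a => ?_))
  · have h2 := equal_val hE (fun a : Fin m => Sum.inr (Sum.inr (a, true))) (s := 2 * δ)
      (fun a b => rfl)
    have h3 : (m.factorial : ℝ) ≠ 0 := by exact_mod_cast Nat.factorial_ne_zero m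
    rw [div_le_iff₀ (by positivity), h2]
    have : 2 * δ / 2 = δ := by ring
    rw [this]
  · rw [Finset.disjoint_left]
    intro x hx hx'
    simp only [Aa, Finset.mem_image, Finset.mem_univ, true_and] at hx hx'
    obtain ⟨μ, rfl⟩ := hx
    obtain ⟨ν, hν⟩ := hx'
    rw [Prod.mk.injEq] at hν
    exact hij hν.2.symm
  · simp [Da, Dg, Pa, pl]

section ranks

/-- adding rank one terms -/
theorem ranks {ι κ : Type} [Fintype ι] [DecidableEq ι] [DecidableEq κ] {K : ι → ι → ℝ}
    (hK : ∀ i j, K i j = K j i) (β : κ → ι → ℝ) (f : (ι → ℝ) → MvPolynomial ι ℝ)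
    (P : (ι → ℝ) → Prop) (hf : ∀ g v, shf v (f g) = f (fun i => g i + v i))
    (hP : ∀ g k (t : ℝ), P g → P (fun i => g i + t * β k i)) {c : ℝ}
    (h0 : ∀ g, P g → c ≤ gE K (f g)) (T : Finset κ) :
    ∀ g, P g → c ≤ gE (fun i j => K i j + ∑ k ∈ T, β k i * β k j) (f g) := by
  induction T using Finset.induction_on with
  | empty =>
    intro g hg
    simpa using h0 g hg
  | insert k T hk ih =>
    intro g hg
    have hs : ∀ i j, K i j + ∑ k ∈ T, β k i * β k j = K j i + ∑ k ∈ T, β k j * β k i := by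
      intro i j
      rw [hK i j]
      congr 1
      exact Finset.sum_congr rfl fun x _ => mul_comm _ _
    have e : (fun i j => K i j + ∑ x ∈ insert k T, β x i * β x j) =
        fun i j => (K i j + ∑ x ∈ T, β x i * β x j) + β k i * β k j := by
      funext i j
      rw [Finset.sum_insert hk]
      ring
    rw [e]
    refine rank_one (K := fun i j => K i j + ∑ x ∈ T, β x i * β x j) hs (β k)
      (gE_isG hs) (gE_isG fun i j => ?_) (f g) fun t => ?_
    · show K i j + ∑ x ∈ T, β x i * β x j + β k i * β k j =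
        K j i + ∑ x ∈ T, β x j * β x i + β k j * β k i
      rw [hs i j, mul_comm (β k i)]
    · rw [hf]
      exact ih _ (hP g k t hg)

theorem shf_fg (g v : Sp × Fin m → ℝ) : shf v (fg g) = fg (fun i => g i + v i) := by
  rw [fg, fg, map_prod]
  refine Finset.prod_congr rfl fun a _ => ?_
  rw [map_sum]
  refine Finset.sum_congr rfl fun p _ => ?_
  rw [map_pow, map_add]
  have h1 : shf v (X (p, a)) = X (p, a) + C (v (p, a)) := by rw [shf, aeval_X]
  have h2 : ∀ r : ℝ, shf v (C r) = (C r : MvPolynomial (Sp × Fin m) ℝ) := by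
    intro r
    rw [shf, aeval_C]; rfl
  rw [h1, h2, map_add]
  ring

/-- the full covariance -/
def k1 {n : ℕ} (N c : Fin m → Fin m → ℝ) (δ : ℝ) (α : Fin n → Fin m → ℝ) :
    Sp × Fin m → Sp × Fin m → ℝ
  | (some μ, i), (some ν, j) => if μ = ν then N i j + ∑ k, α k i * α k j else 0
  | (none, i), (none, j) => 2 * c i j + 2 * δ
  | _, _ => 0

theorem full_bound {n : ℕ} {N c : Fin m → Fin m → ℝ} {δ : ℝ} (hN : ∀ i j, N i j = N j i)
    (hc : ∀ i j, c i j = c j i) (h : ∀ i j, 3 * |N i j| ≤ 2 * c i j) (hδ : 0 ≤ δ)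
    (α : Fin n → Fin m → ℝ) :
    δ ^ m * ((2 * m).factorial : ℝ) / (m.factorial : ℝ) ≤ gE (k1 N c δ α) (sqp m) := by
  have hsym : ∀ p q, k0 N c δ p q = k0 N c δ q p := by
    rintro ⟨p, i⟩ ⟨q, j⟩
    rcases p with _ | μ <;> rcases q with _ | ν
    · simp only [k0, hc i j]
    · rfl
    · rfl
    · simp only [k0, hN i j, eq_comm]
  have h1 := ranks (κ := Fin 3 × Fin n) hsym
    (fun k p => if p.1 = some k.1 then α k.2 p.2 else 0) fg
    (fun g => ∀ a, g (none, a) = 0) shf_fg (by
      intro g k t hg a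
      simp [hg a]) (c := δ ^ m * ((2 * m).factorial : ℝ) / (m.factorial : ℝ))
    (fun g hg => base_bound hN hc h hδ g hg) univ (fun _ => 0) (fun _ => rfl)
  rw [fg_zero] at h1
  refine h1.trans (le_of_eq ?_)
  congr 2
  funext p q
  obtain ⟨p, i⟩ := p
  obtain ⟨q, j⟩ := q
  rcases p with _ | μ <;> rcases q with _ | ν
  · simp [k0, k1]
  · simp [k0, k1]
  · simp [k0, k1]
  · simp only [k0, k1, Option.some.injEq, Fintype.sum_prod_type]
    by_cases hμ : μ = ν
    · subst hμ
      rw [if_pos rfl, if_pos rfl, Finset.sum_eq_single μ]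
      · simp
      · intro b _ hb
        simp [Ne.symm hb]
      · intro hh; exact absurd (Finset.mem_univ _) hh
    · rw [if_neg hμ, if_neg hμ, zero_add]
      refine Finset.sum_eq_zero fun x _ => Finset.sum_eq_zero fun y _ => ?_
      by_cases h1 : μ = x
      · have h2 : ¬ ν = x := fun h' => hμ (h1.trans h'.symm)
        rw [if_neg h2, mul_zero]
      · rw [if_neg h1, zero_mul]

end ranks

end Q116.HT
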