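import Pool.Agent.Q116.HT.S6

/-!
# Any number of commuting skew forms, and integrated forms
-/

set_option autoImplicit false

namespace Q116.HT

open Finset Pool.Agent.Y195.HF Pool.Agent.W669.HD Pool.Agent.W666.GB MeasureTheory

section comm

variable {m : ℕ} {V : Type} [NormedAddCommGroup V] [InnerProductSpace ℝ V]

/-- The area form of the coordinate plane `p`. -/
noncomputable def area (e : OrthonormalBasis (Fin m × Bool) ℝ V) (p : Fin m) (x y : V) : ℝ :=
  inner ℝ (e (p, false)) x * inner ℝ (e (p, true)) y -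
    inner ℝ (e (p, true)) x * inner ℝ (e (p, false)) y

/-- `A` is a linear combination of the area forms of the coordinate planes: the planes are
invariant under the skew endomorphism of `A`. -/
def Toral (e : OrthonormalBasis (Fin m × Bool) ℝ V) (A : V → V → ℝ) : Prop :=
  ∃ α : Fin m → ℝ, ∀ x y, A x y = ∑ p, α p * area e p x y

theorem Toral.skew {e : OrthonormalBasis (Fin m × Bool) ℝ V} {A : V → V → ℝ} (h : Toral e A) :
    SkewForm A := by
  obtain ⟨α, hα⟩ := h
  refine ⟨fun x x' y => ?_, fun t x y => ?_, fun x y => ?_⟩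
  · simp only [hα, area, inner_add_right]
    rw [← Finset.sum_add_distrib]
    exact Finset.sum_congr rfl fun p _ => by ring
  · simp only [hα, area, inner_smul_right]
    rw [Finset.mul_sum]
    exact Finset.sum_congr rfl fun p _ => by ring
  · simp only [hα, area]
    rw [← Finset.sum_neg_distrib]
    exact Finset.sum_congr rfl fun p _ => by ring

theorem inner_turn (e : OrthonormalBasis (Fin m × Bool) ℝ V) (p : Fin m) (x : V) (q : Fin m) :
    inner ℝ (e (q, false)) (turn e p x) =
      (if q = p then -inner ℝ (e (p, true)) x else inner ℝ (e (q, false)) x) ∧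
    inner ℝ (e (q, true)) (turn e p x) =
      (if q = p then inner ℝ (e (p, false)) x else inner ℝ (e (q, true)) x) := by
  simp only [turn, inner_add_right, inner_sub_right, inner_smul_right, inner_ee, Prod.mk.injEq]
  by_cases h : q = p
  · subst h
    simp
  · simp [h]

theorem area_turn (e : OrthonormalBasis (Fin m × Bool) ℝ V) (p q : Fin m) (x y : V) :
    area e q (turn e p x) (turn e p y) = area e q x y := by
  simp only [area, (inner_turn e p x q).1, (inner_turn e p x q).2, (inner_turn e p y q).1,
    (inner_turn e p y q).2]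
  by_cases h : q = p
  · subst h
    simp only [if_true]
    ring
  · simp only [if_neg h]

theorem Toral.turn {e : OrthonormalBasis (Fin m × Bool) ℝ V} {A : V → V → ℝ} (h : Toral e A)
    (p : Fin m) (x y : V) : A (turn e p x) (turn e p y) = A x y := by
  obtain ⟨α, hα⟩ := h
  simp only [hα, area_turn]

theorem inner_turn_turn (e : OrthonormalBasis (Fin m × Bool) ℝ V) (p : Fin m) (x y : V) :
    inner ℝ (turn e p x) (turn e p y) = (inner ℝ x y : ℝ) := by
  rw [← e.sum_inner_mul_inner (turn e p x) (turn e p y), ← e.sum_inner_mul_inner x y,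
    Fintype.sum_prod_type, Fintype.sum_prod_type]
  refine Finset.sum_congr rfl fun q _ => ?_
  rw [Fintype.sum_bool, Fintype.sum_bool]
  simp only [real_inner_comm (e (q, true)) , real_inner_comm (e (q, false)),
    (inner_turn e p x q).1, (inner_turn e p x q).2, (inner_turn e p y q).1,
    (inner_turn e p y q).2]
  by_cases h : q = p
  · subst h
    simp only [if_true]
    ring
  · simp only [if_neg h]

/-- the tensor `-(δ · 1 + ∑ skewCurv A_s)` -/
noncomputable def manyR {n : ℕ} (δ : ℝ) (A : Fin n → V → V → ℝ) (x y z w : V) : ℝ :=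
  -(δ * unitT x y z w + ∑ s, skewCurv (A s) x y z w)

theorem manyR_curv {n : ℕ} (δ : ℝ) {A : Fin n → V → V → ℝ} (hA : ∀ s, SkewForm (A s)) :
    AlgCurv (manyR δ A) := by
  have hu := unit_curv (V := V) δ
  refine ⟨fun x x' y z w => ?_, fun t x y z w => ?_, fun x y z w => ?_, fun x y z w => ?_,
    fun x y z w => ?_⟩
  · simp only [manyR]
    rw [hu.add]
    simp only [(hA _).curv.add, Finset.sum_add_distrib]
    ring
  · simp only [manyR]
    rw [hu.smul]
    simp only [(hA _).curv.smul, ← Finset.mul_sum]
    ring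
  · simp only [manyR]
    rw [hu.anti]
    simp only [(hA _).curv.anti x y, Finset.sum_neg_distrib]
    ring
  · simp only [manyR]
    rw [hu.pair]
    simp only [(hA _).curv.pair x y z w]
  · have h1 := hu.bianchi x y z w
    have h2 : ∑ s, (skewCurv (A s) x y z w + skewCurv (A s) y z x w + skewCurv (A s) z x y w) = 0 :=
      Finset.sum_eq_zero fun s _ => (hA s).curv.bianchi x y z w
    rw [Finset.sum_add_distrib, Finset.sum_add_distrib] at h2
    simp only [manyR]
    linarith

theorem manyR_turn {n : ℕ} (e : OrthonormalBasis (Fin m × Bool) ℝ V) (δ : ℝ)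
    {A : Fin n → V → V → ℝ} (hA : ∀ s, Toral e (A s)) : TurnInv e (manyR δ A) := by
  intro p x y z w
  simp only [manyR, unitT, skewCurv, inner_turn_turn, (hA _).turn]

theorem manyR_str {n : ℕ} (δ : ℝ) {A : Fin n → V → V → ℝ} (hA : ∀ s, SkewForm (A s)) :
    StrNonpos δ (manyR δ A) := by
  refine ⟨fun x y z w => -∑ s, (A s x y * A s z w - A s x z * A s y w + A s x w * A s y z),
    ⟨⟨fun x x' y z w => ?_, fun t x y z w => ?_, fun x y z w => ?_, fun x y z w => ?_⟩,
      fun x y z w => ?_⟩, fun k x y => ?_⟩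
  · rw [← neg_add, ← Finset.sum_add_distrib]
    congr 1
    refine Finset.sum_congr rfl fun s _ => ?_
    rw [(hA s).add, (hA s).add, (hA s).add]
    ring
  · rw [mul_neg, Finset.mul_sum]
    congr 1
    refine Finset.sum_congr rfl fun s _ => ?_
    rw [(hA s).smul, (hA s).smul, (hA s).smul]
    ring
  · rw [neg_neg, ← Finset.sum_neg_distrib]
    refine Finset.sum_congr rfl fun s _ => ?_
    rw [(hA s).anti x y]
    ring
  · congr 1
    refine Finset.sum_congr rfl fun s _ => ?_
    rw [(hA s).anti x z, (hA s).anti y z, (hA s).anti x w, (hA s).anti y w]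
    ring
  · rw [neg_neg, ← Finset.sum_neg_distrib]
    refine Finset.sum_congr rfl fun s _ => ?_
    rw [(hA s).anti y z]
    ring
  · have h1 : ∀ a b, negT (addT (addT (manyR δ A) fun x y z w => δ * unitT x y z w)
        fun x y z w => -∑ s, (A s x y * A s z w - A s x z * A s y w + A s x w * A s y z))
        (x a) (y a) (x b) (y b) = ∑ s, 3 * (A s (x a) (y a) * A s (x b) (y b)) := by
      intro a b
      simp only [negT, addT, manyR, skewCurv]
      have : ∀ u v t : ℝ, -(-(u + v) + u + -t) = v + t := fun u v t => by ring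
      rw [this, ← Finset.sum_add_distrib]
      refine Finset.sum_congr rfl fun s _ => ?_
      ring
    simp only [h1]
    have h2 : ∑ a, ∑ b, ∑ s, 3 * (A s (x a) (y a) * A s (x b) (y b)) =
        ∑ s, 3 * (∑ a, A s (x a) (y a)) ^ 2 := by
      have h3 : ∀ a, ∑ b, ∑ s, 3 * (A s (x a) (y a) * A s (x b) (y b)) =
          ∑ s, ∑ b, 3 * (A s (x a) (y a) * A s (x b) (y b)) := fun a => Finset.sum_comm
      simp only [h3]
      rw [Finset.sum_comm]
      refine Finset.sum_congr rfl fun s _ => ?_
      rw [sq, Finset.sum_mul_sum, Finset.mul_sum]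
      refine Finset.sum_congr rfl fun a _ => ?_
      rw [Finset.mul_sum]
    rw [h2]
    exact Finset.sum_nonneg fun s _ => by positivity

/-- Any number of skew forms with common invariant planes. -/
theorem many_bound {n : ℕ} (e : OrthonormalBasis (Fin m × Bool) ℝ V) {δ : ℝ} (hδ : 0 ≤ δ)
    {A : Fin n → V → V → ℝ} (hA : ∀ s, Toral e (A s)) :
    roundGB m δ ≤ (-1) ^ m * gbc e (manyR δ A) :=
  torus_bound e (manyR_curv δ fun s => (hA s).skew) hδ (manyR_turn e δ hA)
    (manyR_str δ fun s => (hA s).skew)

end comm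

section basis

variable {m : ℕ} {V : Type} [NormedAddCommGroup V] [InnerProductSpace ℝ V]

/-- `R` is torus invariant: for some orthonormal basis, `R` is invariant under the rotations by
`90` degrees in the `m` coordinate planes. -/
def TorusInv (m : ℕ) (R : V → V → V → V → ℝ) : Prop :=
  ∃ e : OrthonormalBasis (Fin m × Bool) ℝ V, TurnInv e R

theorem torus_bound' (e : OrthonormalBasis (Fin m × Bool) ℝ V) {R : V → V → V → V → ℝ}
    (hR : AlgCurv R) {δ : ℝ} (hδ : 0 ≤ δ) (hI : TorusInv m R) (h : StrNonpos δ R) :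
    roundGB m δ ≤ (-1) ^ m * gbc e R := by
  obtain ⟨e', hI⟩ := hI
  rw [Pool.Agent.W688.HD.bas m V e e' R hR]
  exact torus_bound e' hR hδ hI h

theorem six_bound' (e : OrthonormalBasis (Fin 3 × Bool) ℝ V) {R : V → V → V → V → ℝ}
    (hR : AlgCurv R) {δ : ℝ} (hδ : 0 ≤ δ) (hI : TorusInv 3 R) (h : SecLe R δ) :
    roundGB 3 δ ≤ (-1) ^ 3 * gbc e R := by
  obtain ⟨e', hI⟩ := hI
  rw [Pool.Agent.W688.HD.bas 3 V e e' R hR]
  exact six_bound e' hR hδ hI h

end basis

end Q116.HT
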