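import Pool.Agent.Q116.HT.El

/-!
# Components of torus invariant curvature tensors
-/

set_option autoImplicit false

namespace Q116.HT

open Finset Pool.Agent.Y195.HF Pool.Agent.W669.HD

variable {m : ℕ}

/-- the quarter turn of the plane `p` on indices -/
def tw (p : Fin m) (i : Fin m × Bool) : Fin m × Bool := if i.1 = p then (i.1, !i.2) else i

/-- the signs of the quarter turn -/
def ts (p : Fin m) (i : Fin m × Bool) : ℝ := if i.1 = p then (if i.2 = true then -1 else 1) else 1

/-- invariant curvature tensors in components -/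
structure TorInv (T : T4 m) : Prop where
  a12 : ∀ i j k l, T j i k l = - T i j k l
  pair : ∀ i j k l, T k l i j = T i j k l
  bia : ∀ i j k l, T i j k l + T j k i l + T k i j l = 0
  inv : ∀ p i j k l, T (tw p i) (tw p j) (tw p k) (tw p l) * (ts p i * ts p j * ts p k * ts p l) =
    T i j k l

variable {T : T4 m}

theorem TorInv.a34 (h : TorInv T) (i j k l : Fin m × Bool) : T i j l k = - T i j k l := by
  rw [← h.pair i j l k, h.a12 k l i j, h.pair]

theorem TorInv.zero1 (h : TorInv T) {i j k l : Fin m × Bool} (h2 : j.1 ≠ i.1) (h3 : k.1 ≠ i.1)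
    (h4 : l.1 ≠ i.1) : T i j k l = 0 := by
  have e1 := h.inv i.1 i j k l
  have e2 := h.inv i.1 (i.1, !i.2) j k l
  simp only [tw, ts, h2, h3, h4, if_true, if_false, Bool.not_not, mul_one] at e1 e2
  obtain ⟨p, s⟩ := i
  cases s
  · simp at e1 e2
    linarith
  · simp at e1 e2
    linarith

theorem TorInv.zero2 (h : TorInv T) {i j k l : Fin m × Bool} (h2 : i.1 ≠ j.1) (h3 : k.1 ≠ j.1)
    (h4 : l.1 ≠ j.1) : T i j k l = 0 := by
  rw [h.a12 j i k l, h.zero1 h2 h3 h4, neg_zero]

theorem TorInv.zero3 (h : TorInv T) {i j k l : Fin m × Bool} (h2 : i.1 ≠ k.1) (h3 : j.1 ≠ k.1)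
    (h4 : l.1 ≠ k.1) : T i j k l = 0 := by
  rw [← h.pair i j k l, h.zero1 h4 h2 h3]

theorem TorInv.zero4 (h : TorInv T) {i j k l : Fin m × Bool} (h2 : i.1 ≠ l.1) (h3 : j.1 ≠ l.1)
    (h4 : k.1 ≠ l.1) : T i j k l = 0 := by
  rw [h.a34 i j l k, h.zero3 h2 h3 h4, neg_zero]

theorem skew_bool {f : Bool → Bool → ℝ} (h : ∀ s t, f t s = - f s t) (s t : Bool) :
    f s t = wf s t * f false true := by
  have h1 := h false false
  have h2 := h true true
  have h3 := h false true
  cases s <;> cases t <;> simp only [wf] <;> norm_num <;> linarith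

theorem TorInv.same (h : TorInv T) (p q : Fin m) (s₁ s₂ s₃ s₄ : Bool) :
    T (p, s₁) (p, s₂) (q, s₃) (q, s₄) =
      wf s₁ s₂ * wf s₃ s₄ * T (p, false) (p, true) (q, false) (q, true) := by
  rw [skew_bool (f := fun s t => T (p, s) (p, t) (q, s₃) (q, s₄)) (fun s t => h.a12 _ _ _ _) s₁ s₂,
    skew_bool (f := fun s t => T (p, false) (p, true) (q, s) (q, t)) (fun s t => h.a34 _ _ _ _)
      s₃ s₄]
  ring

theorem bool4 {M : Bool → Bool → Bool → Bool → ℝ}
    (hp : ∀ a b c d, M (!a) b (!c) d * ((if a = true then -1 else 1) * (if c = true then -1 else 1))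
      = M a b c d)
    (hq : ∀ a b c d, M a (!b) c (!d) * ((if b = true then -1 else 1) * (if d = true then -1 else 1))
      = M a b c d)
    (hs : ∀ a b c d, M c d a b = M a b c d) (a b c d : Bool) :
    M a b c d = M false false false false * (w1 a c * w1 b d) +
      M false false true true * (wf a c * wf b d) := by
  have p1 := hp false false false false
  have p2 := hp false false false true
  have p3 := hp false false true false
  have p4 := hp false false true true
  have p5 := hp false true false false
  have p6 := hp false true false true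
  have p7 := hp false true true false
  have p8 := hp false true true true
  have q1 := hq false false false false
  have q2 := hq false false false true
  have q3 := hq false false true false
  have q4 := hq false false true true
  have q5 := hq true false false false
  have q6 := hq true false false true
  have q7 := hq true false true false
  have q8 := hq true false true true
  have s1 := hs false false false true
  have s2 := hs false false true false
  have s3 := hs false false true true
  have s4 := hs false true true false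
  have s5 := hs false true true true
  have s6 := hs true false true true
  simp at p1 p2 p3 p4 p5 p6 p7 p8 q1 q2 q3 q4 q5 q6 q7 q8
  cases a <;> cases b <;> cases c <;> cases d <;> simp [w1, wf] <;> linarith

theorem TorInv.mixed (h : TorInv T) {p q : Fin m} (hpq : p ≠ q) (s₁ s₂ s₃ s₄ : Bool) :
    T (p, s₁) (q, s₂) (p, s₃) (q, s₄) =
      T (p, false) (q, false) (p, false) (q, false) * (w1 s₁ s₃ * w1 s₂ s₄) +
      T (p, false) (q, false) (p, true) (q, true) * (wf s₁ s₃ * wf s₂ s₄) := by
  refine bool4 (M := fun a b c d => T (p, a) (q, b) (p, c) (q, d)) ?_ ?_ ?_ s₁ s₂ s₃ s₄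
  · intro a b c d
    have := h.inv p (p, a) (q, b) (p, c) (q, d)
    simpa only [tw, ts, hpq.symm, if_true, if_false, mul_one, one_mul] using this
  · intro a b c d
    have := h.inv q (p, a) (q, b) (p, c) (q, d)
    simpa only [tw, ts, hpq, if_true, if_false, mul_one, one_mul] using this
  · intro a b c d
    exact h.pair _ _ _ _

/-- the parameters -/
def pA (T : T4 m) (p q : Fin m) : ℝ := T (p, false) (p, true) (q, false) (q, true)

def pc (T : T4 m) (p q : Fin m) : ℝ :=
  if p = q then 0 else T (p, false) (q, false) (p, false) (q, false)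

def pd (T : T4 m) (p q : Fin m) : ℝ :=
  if p = q then 0 else T (p, false) (q, false) (p, true) (q, true)

theorem TorInv.two_d (h : TorInv T) {p q : Fin m} (hpq : p ≠ q) : 2 * pd T p q = pA T p q := by
  have h1 := h.bia (p, false) (p, true) (q, false) (q, true)
  have h2 := h.mixed hpq true false false true
  have h3 := h.mixed hpq false false true true
  have h4 := h.a12 (p, false) (q, false) (p, true) (q, true)
  simp only [pd, pA, if_neg hpq]
  simp [w1, wf] at h2 h3
  linarith

theorem dbl (F : Fin m → Fin m → ℝ) (a b : Fin m) (g h : Fin m → ℝ) :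
    ∑ x : Fin m × Fin m, F x.1 x.2 * ((if a = x.1 then g x.1 else 0) *
      (if b = x.2 then h x.2 else 0)) = F a b * (g a * h b) := by
  rw [Finset.sum_eq_single (a, b)]
  · simp
  · rintro ⟨x, y⟩ _ hxy
    by_cases hx : a = x
    · by_cases hy : b = y
      · subst hx; subst hy; exact absurd rfl hxy
      · simp [hy]
    · simp [hx]
  · intro hh; exact absurd (Finset.mem_univ _) hh

theorem nf_apply (A c d : Fin m → Fin m → ℝ) (i j k l : Fin m × Bool) : nf A c d i j k l =
    A i.1 k.1 * ((if j.1 = i.1 then wf i.2 j.2 else 0) * (if l.1 = k.1 then wf k.2 l.2 else 0)) +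
    (c i.1 j.1 * ((if i = k then 1 else 0) * (if j = l then 1 else 0)) +
    (-c i.1 j.1 * ((if i = l then 1 else 0) * (if j = k then 1 else 0)) +
    (d i.1 j.1 * ((if k.1 = i.1 then wf i.2 k.2 else 0) * (if l.1 = j.1 then wf j.2 l.2 else 0)) +
    -d i.1 j.1 * ((if l.1 = i.1 then wf i.2 l.2 else 0) *
      (if k.1 = j.1 then wf j.2 k.2 else 0))))) := by
  unfold nf omR idR
  rw [Finset.sum_add_distrib, Finset.sum_add_distrib, Finset.sum_add_distrib,
    Finset.sum_add_distrib, dbl A i.1 k.1 (fun p => if j.1 = p then wf i.2 j.2 else 0)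
      (fun p => if l.1 = p then wf k.2 l.2 else 0),
    dbl c i.1 j.1 (fun p => if i = k then 1 else 0) (fun p => if j = l then 1 else 0),
    dbl (fun p q => -c p q) i.1 j.1 (fun p => if i = l then 1 else 0)
      (fun p => if j = k then 1 else 0),
    dbl d i.1 j.1 (fun p => if k.1 = p then wf i.2 k.2 else 0)
      (fun p => if l.1 = p then wf j.2 l.2 else 0),
    dbl (fun p q => -d p q) i.1 j.1 (fun p => if l.1 = p then wf i.2 l.2 else 0)
      (fun p => if k.1 = p then wf j.2 k.2 else 0)]

/-- The normal form. -/
theorem TorInv.nf_eq (h : TorInv T) : T = nf (pA T) (pc T) (pd T) := by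
  funext i j k l
  rw [nf_apply]
  obtain ⟨p₁, s₁⟩ := i
  obtain ⟨p₂, s₂⟩ := j
  obtain ⟨p₃, s₃⟩ := k
  obtain ⟨p₄, s₄⟩ := l
  by_cases h12 : p₂ = p₁
  · subst h12
    by_cases h34 : p₄ = p₃
    · subst h34
      rw [h.same]
      simp only [pA, pc, pd, if_true]
      ring
    · have h0 : T (p₂, s₁) (p₂, s₂) (p₃, s₃) (p₄, s₄) = 0 := by
        by_cases h3 : p₃ = p₂
        · subst h3
          exact h.zero4 (Ne.symm h34) (Ne.symm h34) (Ne.symm h34)
        · exact h.zero3 (Ne.symm h3) (Ne.symm h3) h34
      rw [h0]
      simp only [h34, pc, pd, if_true, if_false]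
      ring
  · by_cases h34 : p₄ = p₃
    · subst h34
      have h0 : T (p₁, s₁) (p₂, s₂) (p₄, s₃) (p₄, s₄) = 0 := by
        by_cases h3 : p₄ = p₁
        · subst h3
          exact h.zero2 (Ne.symm h12) (Ne.symm h12) (Ne.symm h12)
        · exact h.zero1 h12 h3 h3
      rw [h0]
      have h5 : ¬ (p₁ = p₄ ∧ p₂ = p₄) := fun h' => h12 (h'.2.trans h'.1.symm)
      by_cases h3 : p₄ = p₁
      · have h6 : ¬ p₄ = p₂ := fun h' => h12 (h'.symm.trans h3)
        simp [h12, h6, Ne.symm h6]
      · simp [h12, h3, Ne.symm h3]
    · by_cases h31 : p₃ = p₁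
      · subst h31
        by_cases h42 : p₄ = p₂
        · subst h42
          rw [h.mixed (Ne.symm h12)]
          simp only [pc, pd, pA, h12, h34, Ne.symm h34, if_true, if_false, Prod.mk.injEq, true_and,
            false_and, w1]
          ring
        · rw [h.zero4 (Ne.symm h34) (Ne.symm h42) (Ne.symm h34)]
          simp [h12, h34, h42, Ne.symm h42]
      · by_cases h32 : p₃ = p₂
        · subst h32
          by_cases h41 : p₄ = p₁
          · subst h41
            rw [h.a34, h.mixed (Ne.symm h12)]
            simp only [pc, pd, pA, h12, h34, Ne.symm h34, if_true, if_false, Prod.mk.injEq,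
              true_and, false_and, w1]
            ring
          · rw [h.zero4 (Ne.symm h41) (Ne.symm h34) (Ne.symm h34)]
            simp [h12, h34, h41, Ne.symm h41, h31, Ne.symm h31]
        · rw [h.zero3 (Ne.symm h31) (Ne.symm h32) h34]
          simp [h12, h31, h32, Ne.symm h31, Ne.symm h32]

end Q116.HT
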