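import Pool.Agent.Y195.HF.Main
import Pool.Agent.Q116.HT.Lc

/-!
# The element of the exterior algebra of a torus invariant tensor
-/

set_option autoImplicit false

namespace Q116.HT

open Finset Pool.Agent.Y195.HF Pool.Agent.W669.HD

variable {m : ℕ}

/-- area form of the plane `p` -/
def omR (w : Bool → Bool → ℝ) (p : Fin m) (i j : Fin m × Bool) : ℝ :=
  if i.1 = p then (if j.1 = p then w i.2 j.2 else 0) else 0

/-- area form of the standard plane -/
def wf (s t : Bool) : ℝ := if s = t then 0 else if s = false then 1 else -1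

/-- identity of the plane `p` -/
def idR (p : Fin m) (i j : Fin m × Bool) : ℝ :=
  if i.1 = p then (if i = j then 1 else 0) else 0

theorem ff_two {w : Bool → Bool → ℝ} (s t : Bool) (p : Fin m) :
    ff s t (cm (omR w p)) = ∑ a : Bool, ∑ b : Bool,
      ((w a b : ℝ) : ℂ) • bv (th m s (p, a)) (th m t (p, b)) := by
  unfold ff
  rw [Fintype.sum_prod_type, Finset.sum_eq_single p]
  · refine Finset.sum_congr rfl fun a _ => ?_
    rw [Fintype.sum_prod_type, Finset.sum_eq_single p]
    · refine Finset.sum_congr rfl fun b _ => ?_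
      simp [cm, omR]
    · intro q _ hq
      refine Finset.sum_eq_zero fun b _ => ?_
      simp [cm, omR, hq]
    · intro h; exact absurd (Finset.mem_univ _) h
  · intro q _ hq
    refine Finset.sum_eq_zero fun b _ => Finset.sum_eq_zero fun x _ => ?_
    simp [cm, omR, hq]
  · intro h; exact absurd (Finset.mem_univ _) h

/-- identity matrix as a function -/
def w1 (s t : Bool) : ℝ := if s = t then 1 else 0

theorem idR_eq (p : Fin m) : idR p = omR (m := m) w1 p := by
  funext i j
  obtain ⟨a, s⟩ := i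
  obtain ⟨b, t⟩ := j
  simp only [idR, omR, w1, Prod.mk.injEq]
  by_cases ha : a = p
  · subst ha
    by_cases hb : b = a
    · subst hb; simp
    · simp [hb, Ne.symm hb]
  · simp [ha]

/-- block elements -/
noncomputable def pe (a : Fin m) : Zc (I2 m → ℂ) := bv (th m false (a, false)) (th m false (a, true))

noncomputable def qe (a : Fin m) : Zc (I2 m → ℂ) := bv (th m true (a, false)) (th m true (a, true))

noncomputable def ue (a : Fin m) : Zc (I2 m → ℂ) :=
  bv (th m false (a, false)) (th m true (a, false)) + bv (th m false (a, true)) (th m true (a, true))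

noncomputable def ve (a : Fin m) : Zc (I2 m → ℂ) :=
  bv (th m false (a, false)) (th m true (a, true)) - bv (th m false (a, true)) (th m true (a, false))

theorem ff_pe (a : Fin m) : ff false false (cm (omR wf a)) = 2 * pe a := by
  rw [ff_two]
  simp only [Fintype.sum_bool, wf]
  rw [bv_swap (th m false (a, false)) (th m false (a, true)), bv_self, bv_self, pe]
  simp
  ring

theorem ff_qe (a : Fin m) : ff true true (cm (omR wf a)) = 2 * qe a := by
  rw [ff_two]
  simp only [Fintype.sum_bool, wf]
  rw [bv_swap (th m true (a, false)) (th m true (a, true)), bv_self, bv_self, qe]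
  simp
  ring

theorem ff_ve (a : Fin m) : ff false true (cm (omR wf a)) = ve a := by
  rw [ff_two]
  simp only [Fintype.sum_bool, wf]
  rw [ve]
  simp
  ring

theorem ff_ue (a : Fin m) : ff false true (cm (idR a)) = ue a := by
  rw [idR_eq, ff_two]
  simp only [Fintype.sum_bool, w1]
  rw [ue]
  simp
  ring

theorem pe_sq (a : Fin m) : pe a * pe a = 0 := bv_mul_zero (Or.inl (Or.inl rfl))

theorem qe_sq (a : Fin m) : qe a * qe a = 0 := bv_mul_zero (Or.inl (Or.inl rfl))

theorem pe_ue (a : Fin m) : pe a * ue a = 0 := by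
  rw [pe, ue, mul_add, bv_mul_zero (Or.inl (Or.inl rfl)), bv_mul_zero (Or.inr (Or.inl rfl)),
    add_zero]

theorem pe_ve (a : Fin m) : pe a * ve a = 0 := by
  rw [pe, ve, mul_sub, bv_mul_zero (Or.inl (Or.inl rfl)), bv_mul_zero (Or.inr (Or.inl rfl)),
    sub_zero]

theorem qe_ue (a : Fin m) : qe a * ue a = 0 := by
  rw [qe, ue, mul_add, bv_mul_zero (Or.inl (Or.inr rfl)), bv_mul_zero (Or.inr (Or.inr rfl)),
    add_zero]

theorem qe_ve (a : Fin m) : qe a * ve a = 0 := by
  rw [qe, ve, mul_sub, bv_mul_zero (Or.inr (Or.inr rfl)), bv_mul_zero (Or.inl (Or.inr rfl)),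
    sub_zero]

theorem ue_ve (a : Fin m) : ue a * ve a = 0 := by
  rw [ue, ve, add_mul, mul_sub, mul_sub, bv_mul_zero (Or.inl (Or.inl rfl)),
    bv_mul_zero (Or.inr (Or.inr rfl)), bv_mul_zero (Or.inr (Or.inr rfl)),
    bv_mul_zero (Or.inl (Or.inl rfl))]
  ring

theorem ue_sq (a : Fin m) : ue a * ue a = -(2 * (pe a * qe a)) := by
  rw [ue, add_mul, mul_add, mul_add, bv_mul_zero (Or.inl (Or.inl rfl)),
    bv_mul_zero (u := th m false (a, true)) (w := th m false (a, true)) (Or.inl (Or.inl rfl)),
    bv_exch (th m false (a, false)) (th m true (a, false)),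
    bv_exch (th m false (a, true)) (th m true (a, true)),
    bv_swap (th m false (a, false)) (th m false (a, true)),
    bv_swap (th m true (a, false)) (th m true (a, true)), pe, qe]
  ring

theorem ve_sq (a : Fin m) : ve a * ve a = -(2 * (pe a * qe a)) := by
  rw [ve, sub_mul, mul_sub, mul_sub, bv_mul_zero (Or.inl (Or.inl rfl)),
    bv_mul_zero (u := th m false (a, true)) (w := th m false (a, true)) (Or.inl (Or.inl rfl)),
    bv_exch (th m false (a, false)) (th m true (a, true)),
    bv_exch (th m false (a, true)) (th m true (a, false)),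
    bv_swap (th m false (a, false)) (th m false (a, true)),
    bv_swap (th m true (a, false)) (th m true (a, true)), pe, qe]
  ring

/-- the imaginary unit -/
noncomputable def ci (m : ℕ) : Zc (I2 m → ℂ) := algebraMap ℂ _ Complex.I

theorem ci_sq : ci m * ci m = -1 := by
  rw [ci, ← map_mul, Complex.I_mul_I, map_neg, map_one]

/-- the four species -/
noncomputable def ye : Sp × Fin m → Zc (I2 m → ℂ)
  | (none, a) => ci m * ue a
  | (some 0, a) => pe a + qe a
  | (some 1, a) => ci m * (pe a - qe a)
  | (some 2, a) => ci m * ve a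

theorem rules : Rules (ye (m := m)) (fun a => pe a * qe a) where
  sq := by
    rintro ⟨p, a⟩
    have h := ci_sq (m := m)
    have h1 := pe_sq a
    have h2 := qe_sq a
    have h3 := ue_sq a
    have h4 := ve_sq a
    rcases p with _ | p
    · simp only [ye]
      linear_combination (ue a * ue a) * h - h3
    · fin_cases p
      · simp only [ye]
        linear_combination h1 + h2
      · simp only [ye]
        linear_combination ((pe a - qe a) * (pe a - qe a)) * h - h1 - h2
      · simp only [ye]
        linear_combination (ve a * ve a) * h - h4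
  off := by
    intro a μ ν hμν
    have h := ci_sq (m := m)
    have h1 := pe_sq a
    have h2 := qe_sq a
    have h5 := pe_ue a
    have h6 := pe_ve a
    have h7 := qe_ue a
    have h8 := qe_ve a
    have h9 := ue_ve a
    rcases μ with _ | μ <;> rcases ν with _ | ν
    · exact absurd rfl hμν
    · fin_cases ν
      · simp only [ye]
        linear_combination ci m * h5 + ci m * h7
      · simp only [ye]
        linear_combination (ci m * ci m) * h5 - (ci m * ci m) * h7
      · simp only [ye]
        linear_combination (ci m * ci m) * h9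
    · fin_cases μ
      · simp only [ye]
        linear_combination ci m * h5 + ci m * h7
      · simp only [ye]
        linear_combination (ci m * ci m) * h5 - (ci m * ci m) * h7
      · simp only [ye]
        linear_combination (ci m * ci m) * h9
    · fin_cases μ <;> fin_cases ν
      · exact absurd rfl hμν
      · simp only [ye]
        linear_combination ci m * h1 - ci m * h2
      · simp only [ye]
        linear_combination ci m * h6 + ci m * h8
      · simp only [ye]
        linear_combination ci m * h1 - ci m * h2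
      · exact absurd rfl hμν
      · simp only [ye]
        linear_combination (ci m * ci m) * h6 - (ci m * ci m) * h8
      · simp only [ye]
        linear_combination ci m * h6 + ci m * h8
      · simp only [ye]
        linear_combination (ci m * ci m) * h6 - (ci m * ci m) * h8
      · exact absurd rfl hμν
  top := by
    rintro ⟨p, a⟩
    have h1 := pe_sq a
    have h2 := qe_sq a
    have h5 := pe_ue a
    have h6 := pe_ve a
    rcases p with _ | p
    · simp only [ye]
      linear_combination (ci m * qe a) * h5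
    · fin_cases p
      · simp only [ye]
        linear_combination qe a * h1 + pe a * h2
      · simp only [ye]
        linear_combination ci m * qe a * h1 - ci m * pe a * h2
      · simp only [ye]
        linear_combination (ci m * qe a) * h6

theorem LR_top : LR m (∏ a : Fin m, (pe a * qe a)) = 1 := by
  rw [Finset.prod_mul_distrib, LR_apply]
  have h := LF_phi m
  have h1 : ∏ a : Fin m, pe a = phi (th m false) := rfl
  have h2 : ∏ a : Fin m, qe a = phi (th m true) := rfl
  rw [h1, h2, h, Complex.one_re]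

/-- generalised crossing rules -/
theorem eL_cross2 (A B : Mt m) : eL (fun i j k l => A i k * B j l) =
    - (ff false true A * ff false true B) := by
  have h : ff false true A * ff false true B = ∑ i, ∑ j, ∑ k, ∑ l, (A i k * B j l) •
      (bv (th m false i) (th m true k) * bv (th m false j) (th m true l)) := by
    simp only [ff]
    rw [Finset.sum_mul]
    refine Finset.sum_congr rfl fun i _ => ?_
    rw [Finset.mul_sum]
    refine Finset.sum_congr rfl fun j _ => ?_
    rw [Finset.sum_mul]
    refine Finset.sum_congr rfl fun k _ => ?_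
    rw [Finset.mul_sum]
    refine Finset.sum_congr rfl fun l _ => ?_
    simp only [Algebra.smul_def, map_mul]
    ring
  rw [h, eL, el, ← Finset.sum_neg_distrib]
  refine Finset.sum_congr rfl fun i _ => ?_
  rw [← Finset.sum_neg_distrib]
  refine Finset.sum_congr rfl fun j _ => ?_
  rw [← Finset.sum_neg_distrib]
  refine Finset.sum_congr rfl fun k _ => ?_
  rw [← Finset.sum_neg_distrib]
  refine Finset.sum_congr rfl fun l _ => ?_
  rw [bv_exch (th m false i) (th m true k), smul_neg, neg_neg]

theorem eL_cross2' (A B : Mt m) : eL (fun i j k l => A i l * B j k) =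
    ff false true A * ff false true B := by
  have h := eL_cross2 A B
  rw [eq_comm, neg_eq_iff_eq_neg] at h
  rw [h]
  simp only [eL, el]
  rw [← Finset.sum_neg_distrib]
  refine Finset.sum_congr rfl fun i _ => ?_
  rw [← Finset.sum_neg_distrib]
  refine Finset.sum_congr rfl fun j _ => ?_
  rw [Finset.sum_comm, ← Finset.sum_neg_distrib]
  refine Finset.sum_congr rfl fun k _ => ?_
  rw [← Finset.sum_neg_distrib]
  refine Finset.sum_congr rfl fun l _ => ?_
  rw [bv_swap (th m true k) (th m true l), mul_neg, smul_neg]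

/-- tensors in normal form -/
def nf (A c d : Fin m → Fin m → ℝ) : T4 m := fun i j k l =>
  ∑ x : Fin m × Fin m, (A x.1 x.2 * (omR wf x.1 i j * omR wf x.2 k l) +
    (c x.1 x.2 * (idR x.1 i k * idR x.2 j l) + (-c x.1 x.2 * (idR x.1 i l * idR x.2 j k) +
    (d x.1 x.2 * (omR wf x.1 i k * omR wf x.2 j l) +
      -d x.1 x.2 * (omR wf x.1 i l * omR wf x.2 j k)))))

theorem eL_nf (A c d : Fin m → Fin m → ℝ) : eL (cx (nf A c d)) =
    ∑ x : Fin m × Fin m, (((A x.1 x.2 : ℝ) : ℂ) • ((2 * pe x.1) * (2 * qe x.2)) +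
      (((c x.1 x.2 : ℝ) : ℂ) • (-(ue x.1 * ue x.2)) + ((-(c x.1 x.2) : ℝ) : ℂ) • (ue x.1 * ue x.2) +
      (((d x.1 x.2 : ℝ) : ℂ) • (-(ve x.1 * ve x.2)) +
        ((-(d x.1 x.2) : ℝ) : ℂ) • (ve x.1 * ve x.2)))) := by
  have h1 : cx (nf A c d) = fun i j k l => ∑ x : Fin m × Fin m,
      (fun (x : Fin m × Fin m) (i j k l : Fin m × Bool) =>
      ((A x.1 x.2 : ℝ) : ℂ) * (cm (omR wf x.1) i j * cm (omR wf x.2) k l) +
      (((c x.1 x.2 : ℝ) : ℂ) * (cm (idR x.1) i k * cm (idR x.2) j l) +
      (((-(c x.1 x.2) : ℝ) : ℂ) * (cm (idR x.1) i l * cm (idR x.2) j k) +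
      (((d x.1 x.2 : ℝ) : ℂ) * (cm (omR wf x.1) i k * cm (omR wf x.2) j l) +
      ((-(d x.1 x.2) : ℝ) : ℂ) * (cm (omR wf x.1) i l * cm (omR wf x.2) j k))))) x i j k l := by
    funext i j k l
    simp only [cx, nf, cm]
    push_cast
    rfl
  rw [h1, eL_sum]
  refine Finset.sum_congr rfl fun x _ => ?_
  rw [eL_add, eL_add, eL_add, eL_add, eL_smul _ (fun i j k l => cm (omR wf x.1) i j * cm (omR wf x.2) k l),
    eL_smul _ (fun i j k l => cm (idR x.1) i k * cm (idR x.2) j l),
    eL_smul _ (fun i j k l => cm (idR x.1) i l * cm (idR x.2) j k),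
    eL_smul _ (fun i j k l => cm (omR wf x.1) i k * cm (omR wf x.2) j l),
    eL_smul _ (fun i j k l => cm (omR wf x.1) i l * cm (omR wf x.2) j k),
    eL_mul, eL_cross2, eL_cross2', eL_cross2, eL_cross2', ff_pe, ff_qe, ff_ue, ff_ue, ff_ve, ff_ve,
    add_assoc]

/-- the covariance of a normal form -/
def kn (B κ : Fin m → Fin m → ℝ) : Sp × Fin m → Sp × Fin m → ℝ
  | (some μ, i), (some ν, j) => if μ = ν then B i j else 0
  | (none, i), (none, j) => κ i j
  | _, _ => 0

theorem eL_form {A c d B κ : Fin m → Fin m → ℝ} (hB : ∀ p q, B p q = B q p)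
    (hA : ∀ p q, p ≠ q → B p q = A p q) (hκ : ∀ p q, p ≠ q → κ p q = 2 * c p q)
    (hd : ∀ p q, p ≠ q → 2 * d p q = A p q) (hc0 : ∀ p, c p p = 0) (hd0 : ∀ p, d p p = 0)
    (hdiag : ∀ p, 3 * B p p + κ p p = 2 * A p p) :
    eL (cx (nf A c d)) = ∑ i, ∑ j, (kn B κ i j) • (ye i * ye j) := by
  have hr : ∀ (r : ℝ) (z : Zc (I2 m → ℂ)), r • z = algebraMap ℂ _ (r : ℂ) * z := by
    intro r z
    rw [← Complex.coe_smul, Algebra.smul_def]
  have hci := ci_sq (m := m)
  -- the right side
  have h2 : ∑ i, ∑ j, (kn B κ i j) • (ye i * ye j) =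
      ∑ p : Fin m, ∑ q : Fin m, (algebraMap ℂ (Zc (I2 m → ℂ)) (B p q : ℝ) *
        (2 * (pe p * qe q) + 2 * (pe q * qe p) - ve p * ve q) -
        algebraMap ℂ (Zc (I2 m → ℂ)) (κ p q : ℝ) * (ue p * ue q)) := by
    rw [Fintype.sum_prod_type_right]
    refine Finset.sum_congr rfl fun p _ => ?_
    have h3 : ∀ μ : Sp, ∑ j, (kn B κ (μ, p) j) • (ye (μ, p) * ye j) =
        ∑ q : Fin m, ∑ ν : Sp, (kn B κ (μ, p) (ν, q)) • (ye (μ, p) * ye (ν, q)) :=
      fun μ => Fintype.sum_prod_type_right _
    rw [Finset.sum_congr rfl fun μ _ => h3 μ, Finset.sum_comm]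
    refine Finset.sum_congr rfl fun q _ => ?_
    have e1 : ((0 : Fin 3) = 1) = False := by simp
    have e2 : ((0 : Fin 3) = 2) = False := by simp
    have e3 : ((1 : Fin 3) = 0) = False := by simp
    have e4 : ((1 : Fin 3) = 2) = False := by simp
    have e5 : ((2 : Fin 3) = 0) = False := by simp
    have e6 : ((2 : Fin 3) = 1) = False := by simp
    simp only [Fintype.sum_option, Fin.sum_univ_three, kn, ye, e1, e2, e3, e4, e5, e6, if_false,
      if_true, zero_smul, add_zero, zero_add, hr, Complex.ofReal_zero, map_zero, zero_mul]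
    linear_combination (algebraMap ℂ (Zc (I2 m → ℂ)) (κ p q : ℝ) * (ue p * ue q) +
      algebraMap ℂ (Zc (I2 m → ℂ)) (B p q : ℝ) * ((pe p - qe p) * (pe q - qe q) + ve p * ve q)) * hci
  have h3 : ∑ p : Fin m, ∑ q : Fin m, (algebraMap ℂ (Zc (I2 m → ℂ)) (B p q : ℝ) *
        (2 * (pe p * qe q) + 2 * (pe q * qe p) - ve p * ve q) -
        algebraMap ℂ (Zc (I2 m → ℂ)) (κ p q : ℝ) * (ue p * ue q)) =
      ∑ p : Fin m, ∑ q : Fin m, (algebraMap ℂ (Zc (I2 m → ℂ)) (B p q : ℝ) *
        (4 * (pe p * qe q) - ve p * ve q) - algebraMap ℂ (Zc (I2 m → ℂ)) (κ p q : ℝ) *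
          (ue p * ue q)) := by
    have h4 : ∑ p : Fin m, ∑ q : Fin m, algebraMap ℂ (Zc (I2 m → ℂ)) (B p q : ℝ) *
        (2 * (pe q * qe p)) = ∑ p : Fin m, ∑ q : Fin m, algebraMap ℂ (Zc (I2 m → ℂ)) (B p q : ℝ) *
        (2 * (pe p * qe q)) := by
      rw [Finset.sum_comm]
      refine Finset.sum_congr rfl fun p _ => Finset.sum_congr rfl fun q _ => ?_
      rw [hB p q]
    have h5 : ∀ p q : Fin m, (algebraMap ℂ (Zc (I2 m → ℂ)) (B p q : ℝ) *
        (2 * (pe p * qe q) + 2 * (pe q * qe p) - ve p * ve q) -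
        algebraMap ℂ (Zc (I2 m → ℂ)) (κ p q : ℝ) * (ue p * ue q)) =
        (algebraMap ℂ (Zc (I2 m → ℂ)) (B p q : ℝ) *
        (4 * (pe p * qe q) - ve p * ve q) - algebraMap ℂ (Zc (I2 m → ℂ)) (κ p q : ℝ) *
          (ue p * ue q)) + (algebraMap ℂ (Zc (I2 m → ℂ)) (B p q : ℝ) * (2 * (pe q * qe p)) -
          algebraMap ℂ (Zc (I2 m → ℂ)) (B p q : ℝ) * (2 * (pe p * qe q))) := by
      intro p q; ring
    simp only [h5, Finset.sum_add_distrib, Finset.sum_sub_distrib, h4]
    ring
  rw [h2, h3, eL_nf, Fintype.sum_prod_type]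
  refine Finset.sum_congr rfl fun p _ => Finset.sum_congr rfl fun q _ => ?_
  simp only [Algebra.smul_def, Complex.ofReal_neg, map_neg]
  by_cases hpq : p = q
  · subst hpq
    rw [hc0, hd0]
    have h6 : (3 : Zc (I2 m → ℂ)) * algebraMap ℂ (Zc (I2 m → ℂ)) (B p p : ℝ) +
        algebraMap ℂ (Zc (I2 m → ℂ)) (κ p p : ℝ) =
        2 * algebraMap ℂ (Zc (I2 m → ℂ)) (A p p : ℝ) := by
      have h7 := congrArg (fun r : ℝ => algebraMap ℂ (Zc (I2 m → ℂ)) (r : ℂ)) (hdiag p)
      simp only [Complex.ofReal_add, Complex.ofReal_mul, Complex.ofReal_ofNat, map_add, map_mul,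
        map_ofNat] at h7
      exact h7
    rw [Complex.ofReal_zero, map_zero]
    have h8 := ue_sq p
    have h9 := ve_sq p
    linear_combination (-(2 * (pe p * qe p))) * h6 +
      algebraMap ℂ (Zc (I2 m → ℂ)) (B p p : ℝ) * h9 +
      algebraMap ℂ (Zc (I2 m → ℂ)) (κ p p : ℝ) * h8
  · rw [hA p q hpq, hκ p q hpq]
    have h7 := congrArg (fun r : ℝ => algebraMap ℂ (Zc (I2 m → ℂ)) (r : ℂ)) (hd p q hpq)
    simp only [Complex.ofReal_mul, Complex.ofReal_ofNat, map_mul, map_ofNat] at h7
    simp only [Complex.ofReal_mul, Complex.ofReal_ofNat, map_mul, map_ofNat]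
    linear_combination (-(ve p * ve q)) * h7

end Q116.HT
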