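import Pool.Agent.Q116.HT.Bd
import Pool.Agent.Q116.HT.Cm

/-!
# The Gauss–Bonnet–Chern integrand of torus invariant curvature tensors
-/

set_option autoImplicit false

namespace Q116.HT

open Finset Pool.Agent.Y195.HF Pool.Agent.W669.HD Pool.Agent.W666.GB MvPolynomial

variable {m : ℕ}

theorem gm_form {T : T4 m} (hT : TorInv T) {N c : Fin m → Fin m → ℝ} {δ : ℝ}
    {n : ℕ} {α : Fin n → Fin m → ℝ}
    (hN : ∀ i j, N i j = N j i) (hc : ∀ i j, c i j = c j i)
    (h : ∀ i j, 3 * |N i j| ≤ 2 * c i j) (hδ : 0 ≤ δ)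
    (h1 : ∀ p q, p ≠ q → N p q + ∑ k, α k p * α k q = pA T p q)
    (h2 : ∀ p q, p ≠ q → 2 * c p q + 2 * δ = 2 * pc T p q)
    (h3 : ∀ p, 3 * (N p p + ∑ k, α k p * α k p) + (2 * c p p + 2 * δ) = 2 * pA T p p) :
    2 ^ m * (δ ^ m * ((2 * m).factorial : ℝ)) ≤ gm (fun _ : Fin m => T) := by
  have e0 : kn (fun p q => N p q + ∑ k, α k p * α k q) (fun p q => 2 * c p q + 2 * δ) =
      k1 N c δ α := by
    funext x y
    obtain ⟨p, i⟩ := x
    obtain ⟨q, j⟩ := y
    rcases p with _ | μ <;> rcases q with _ | ν <;> rfl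
  have e1 := eL_form (A := pA T) (c := pc T) (d := pd T)
    (B := fun p q => N p q + ∑ k, α k p * α k q) (κ := fun p q => 2 * c p q + 2 * δ)
    (fun p q => by
      rw [hN p q]
      congr 1
      exact Finset.sum_congr rfl fun x _ => mul_comm _ _) h1 h2
    (fun p q hpq => hT.two_d hpq) (fun p => by simp [pc]) (fun p => by simp [pd]) h3
  rw [← hT.nf_eq, e0] at e1
  rw [gm_LR, e1, top_pow rules (LR m) LR_top]
  have h4 := full_bound hN hc h hδ α
  have h5 : (0 : ℝ) < m.factorial := by exact_mod_cast Nat.factorial_pos m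
  rw [div_le_iff₀ h5] at h4
  have h6 : (0 : ℝ) < 2 ^ m := by positivity
  nlinarith [mul_le_mul_of_nonneg_left h4 h6.le]

section vector

variable {V : Type} [NormedAddCommGroup V] [InnerProductSpace ℝ V]

/-- The rotation by `90` degrees in the plane of the basis vectors `e (p, false)`, `e (p, true)`
(identity on the orthogonal complement). -/
noncomputable def turn (e : OrthonormalBasis (Fin m × Bool) ℝ V) (p : Fin m) (x : V) : V :=
  x + (inner ℝ (e (p, false)) x) • (e (p, true) - e (p, false)) -
    (inner ℝ (e (p, true)) x) • (e (p, false) + e (p, true))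

/-- `R` is invariant under the rotations by `90` degrees in the `m` coordinate planes. -/
def TurnInv (e : OrthonormalBasis (Fin m × Bool) ℝ V) (R : V → V → V → V → ℝ) : Prop :=
  ∀ p x y z w, R (turn e p x) (turn e p y) (turn e p z) (turn e p w) = R x y z w

/-- `R` is strongly nonpositive with margin `δ`: for some alternating `4`-form `ω`, the curvature
operator of `R + ω` is at most `-δ`. -/
def StrNonpos (δ : ℝ) (R : V → V → V → V → ℝ) : Prop :=
  ∃ ω : V → V → V → V → ℝ, FourForm ω ∧
    OpNonneg (negT (addT (addT R fun x y z w => δ * unitT x y z w) ω))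

theorem turn_e (e : OrthonormalBasis (Fin m × Bool) ℝ V) (p : Fin m) (i : Fin m × Bool) :
    turn e p (e i) = ts p i • e (tw p i) := by
  obtain ⟨q, s⟩ := i
  have h1 : ∀ a b : Fin m × Bool, inner ℝ (e a) (e b) = if a = b then (1 : ℝ) else 0 := by
    intro a b
    exact orthonormal_iff_ite.mp e.orthonormal a b
  simp only [turn, h1, Prod.mk.injEq, ts, tw]
  by_cases hq : q = p
  · subst hq
    cases s
    · simp
    · simp
  · simp [hq, Ne.symm hq]

theorem smul4 {R : V → V → V → V → ℝ} (hR : AlgCurv R) (a b c d : ℝ) (x y z w : V) :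
    R (a • x) (b • y) (c • z) (d • w) = R x y z w * (a * b * c * d) := by
  have h1 : ∀ (t : ℝ) (x y z w : V), R x (t • y) z w = t * R x y z w := by
    intro t x y z w
    rw [hR.anti (t • y) x, hR.smul, hR.anti x y]; ring
  have h2 : ∀ (t : ℝ) (x y z w : V), R x y (t • z) w = t * R x y z w := by
    intro t x y z w
    rw [← hR.pair x y (t • z) w, hR.smul, hR.pair]
  have h3 : ∀ (t : ℝ) (x y z w : V), R x y z (t • w) = t * R x y z w := by
    intro t x y z w
    rw [← hR.pair x y z (t • w), h1, hR.pair]
  rw [hR.smul, h1, h2, h3]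
  ring

theorem torInv_cp (e : OrthonormalBasis (Fin m × Bool) ℝ V) {R : V → V → V → V → ℝ}
    (hR : AlgCurv R) (h : TurnInv e R) : TorInv (cp e (negT R)) where
  a12 i j k l := by simp only [cp, negT]; rw [hR.anti]
  pair i j k l := by simp only [cp, negT]; rw [hR.pair]
  bia i j k l := by
    simp only [cp, negT]
    have := hR.bianchi (e i) (e j) (e k) (e l)
    linarith
  inv p i j k l := by
    simp only [cp, negT]
    have := h p (e i) (e j) (e k) (e l)
    rw [turn_e, turn_e, turn_e, turn_e, smul4 hR] at this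
    linarith

/-- Components of a strongly nonpositive invariant tensor. -/
theorem gm_strong (e : OrthonormalBasis (Fin m × Bool) ℝ V) {R : V → V → V → V → ℝ}
    (hR : AlgCurv R) {δ : ℝ} (hδ : 0 ≤ δ) (hI : TurnInv e R) (h : StrNonpos δ R) :
    2 ^ m * (δ ^ m * ((2 * m).factorial : ℝ)) ≤ gm (fun _ : Fin m => cp e (negT R)) := by
  obtain ⟨ω, hω, hop⟩ := h
  have hT := torInv_cp e hR hI
  have hNb : BiForm (negT (addT (addT R fun x y z w => δ * unitT x y z w) ω)) :=
    Pool.Agent.W150.HD.neg_bi (Pool.Agent.W150.HD.add_bi (Pool.Agent.W150.HD.add_bi (Pool.Agent.W150.HD.curv_bi hR) (unit_bi δ)) hω.toBiForm)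
  obtain ⟨n, ν, hν, hNν⟩ := hNb.squares (fun i => e i) hop
  set T : T4 m := cp e (negT R) with hTdef
  -- T = δ unit + ω + squares
  have hdec : ∀ i j k l, T i j k l = δ * unitCurv i j k l + cp e ω i j k l +
      ∑ a, ν a i j * ν a k l := by
    intro i j k l
    have h1 := hNν i j k l
    have h2 := cp_unit e i j k l
    simp only [negT, addT] at h1
    rw [← h1, ← h2, hTdef]
    simp only [cp, negT]
    ring
  set s : ℝ := Real.sqrt (2 / 3) with hs
  have hs2 : s * s = 2 / 3 := Real.mul_self_sqrt (by norm_num)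
  set x : Fin m → Fin m × Bool := fun p => (p, false) with hx
  set y : Fin m → Fin m × Bool := fun p => (p, true) with hy
  set P : Fin m → Fin m → ℝ := fun p q => ∑ a, ν a (x p) (y p) * ν a (x q) (y q) with hP
  have hPsum : ∀ p q, ∑ a, (s * ν a (x p) (y p)) * (s * ν a (x q) (y q)) = 2 / 3 * P p q := by
    intro p q
    rw [hP]
    simp only
    rw [Finset.mul_sum]
    refine Finset.sum_congr rfl fun a _ => ?_
    rw [← hs2]; ring
  have hPsym : ∀ p q, P p q = P q p := by
    intro p q
    exact Finset.sum_congr rfl fun a _ => mul_comm _ _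
  have hAsym : ∀ p q, pA T p q = pA T q p := by
    intro p q
    exact hT.pair _ _ _ _
  have hcsym : ∀ p q, pc T p q = pc T q p := by
    intro p q
    simp only [pc]
    by_cases hpq : p = q
    · subst hpq; rfl
    · rw [if_neg hpq, if_neg (Ne.symm hpq), hT.a12 (q, false) (p, false), hT.a34]
      ring
  have hu : ∀ i j k l : Fin m × Bool, unitCurv i j k l =
      (if i = k then (1 : ℝ) else 0) * (if j = l then 1 else 0) -
        (if i = l then 1 else 0) * (if j = k then 1 else 0) := fun _ _ _ _ => rfl
  refine gm_form hT (N := fun p q => if p = q then 0 else pA T p q - 2 / 3 * P p q)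
    (c := fun p q => if p = q then 0 else pc T p q - δ) (α := fun a p => s * ν a (x p) (y p))
    ?_ ?_ ?_ hδ ?_ ?_ ?_
  · intro p q
    by_cases hpq : p = q
    · subst hpq; rfl
    · simp only [if_neg hpq, if_neg (Ne.symm hpq), hAsym p q, hPsym p q]
  · intro p q
    by_cases hpq : p = q
    · subst hpq; rfl
    · simp only [if_neg hpq, if_neg (Ne.symm hpq), hcsym p q]
  · intro p q
    by_cases hpq : p = q
    · subst hpq; simp
    · simp only [if_neg hpq]
      have d1 := hdec (x p) (y p) (x q) (y q)
      have d2 := hdec (x p) (x q) (x p) (x q)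
      have d3 := hdec (y p) (y q) (y p) (y q)
      have d4 := hdec (x p) (x q) (y p) (y q)
      have m3 := hT.mixed hpq true true true true
      have t2 := hT.two_d hpq
      have w1' : cp e ω (x p) (x q) (x p) (x q) = 0 := by
        have a1 := hω.alt (e (x p)) (e (x q)) (e (x p)) (e (x q))
        have a2 := hω.anti (e (x p)) (e (x p)) (e (x q)) (e (x q))
        simp only [cp]
        linarith
      have w2' : cp e ω (y p) (y q) (y p) (y q) = 0 := by
        have a1 := hω.alt (e (y p)) (e (y q)) (e (y p)) (e (y q))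
        have a2 := hω.anti (e (y p)) (e (y p)) (e (y q)) (e (y q))
        simp only [cp]
        linarith
      have w3' : cp e ω (x p) (x q) (y p) (y q) = - cp e ω (x p) (y p) (x q) (y q) :=
        hω.alt (e (x p)) (e (y p)) (e (x q)) (e (y q))
      rw [w1'] at d2
      rw [w2'] at d3
      rw [w3'] at d4
      simp only [hu, hx, hy, Prod.mk.injEq, hpq, Ne.symm hpq, and_true, and_false,
        false_and, true_and, if_true, if_false, reduceCtorEq, Bool.false_eq_true,
        Bool.true_eq_false] at d1 d2 d3 d4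
      simp only [pA, pc, pd, if_neg hpq] at t2 ⊢
      simp [w1, wf] at m3
      set X : ℝ := ∑ a, ν a (p, false) (q, false) * ν a (p, true) (q, true) with hX
      set S1 : ℝ := ∑ a, ν a (p, false) (q, false) * ν a (p, false) (q, false) with hS1
      set S2 : ℝ := ∑ a, ν a (p, true) (q, true) * ν a (p, true) (q, true) with hS2
      have hXle : |X| ≤ (S1 + S2) / 2 := by
        rw [abs_le, hX, hS1, hS2, ← Finset.sum_add_distrib, Finset.sum_div]
        constructor
        · rw [← Finset.sum_neg_distrib]
          refine Finset.sum_le_sum fun a _ => ?_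
          nlinarith [sq_nonneg (ν a (p, false) (q, false) + ν a (p, true) (q, true))]
        · refine Finset.sum_le_sum fun a _ => ?_
          nlinarith [sq_nonneg (ν a (p, false) (q, false) - ν a (p, true) (q, true))]
      have hPpq : P p q = ∑ a, ν a (p, false) (p, true) * ν a (q, false) (q, true) := rfl
      rw [← hPpq] at d1
      have hN' : T (p, false) (p, true) (q, false) (q, true) - 2 / 3 * P p q = 2 / 3 * X := by
        linarith
      rw [hN', abs_mul]
      have : |(2 / 3 : ℝ)| = 2 / 3 := abs_of_pos (by norm_num)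
      rw [this]
      linarith
  · intro p q hpq
    simp only [if_neg hpq, hPsum]
    ring
  · intro p q hpq
    simp only [if_neg hpq]
    ring
  · intro p
    simp only [if_true, hPsum]
    have d1 := hdec (x p) (y p) (x p) (y p)
    have w1' : cp e ω (x p) (y p) (x p) (y p) = 0 := by
      have a1 := hω.alt (e (x p)) (e (y p)) (e (x p)) (e (y p))
      have a2 := hω.anti (e (x p)) (e (x p)) (e (y p)) (e (y p))
      simp only [cp]
      linarith
    rw [w1'] at d1
    simp only [hu, hx, hy, Prod.mk.injEq, and_true, and_false, true_and, if_true, if_false,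
      Bool.false_eq_true, Bool.true_eq_false] at d1
    have hPpp : P p p = ∑ a, ν a (p, false) (p, true) * ν a (p, false) (p, true) := rfl
    simp only [pA]
    rw [d1, ← hPpp]
    ring

/-- The pointwise inequality. -/
theorem torus_bound (e : OrthonormalBasis (Fin m × Bool) ℝ V) {R : V → V → V → V → ℝ}
    (hR : AlgCurv R) {δ : ℝ} (hδ : 0 ≤ δ) (hI : TurnInv e R) (h : StrNonpos δ R) :
    roundGB m δ ≤ (-1) ^ m * gbc e R := by
  rw [gbc_eq]
  have hπ := Real.pi_pos
  have hc : 0 < 1 / ((8 * Real.pi) ^ m * (m.factorial : ℝ)) := by positivity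
  have hr : roundGB m δ = 1 / ((8 * Real.pi) ^ m * m.factorial) *
      (2 ^ m * (δ ^ m * (2 * m).factorial)) := by
    unfold roundGB
    have : (8 * Real.pi) ^ m = 2 ^ m * (4 * Real.pi) ^ m := by
      rw [← mul_pow]; congr 1; ring
    rw [this]
    field_simp
  rw [hr]
  exact mul_le_mul_of_nonneg_left (gm_strong e hR hδ hI h) hc.le

end vector

end Q116.HT
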