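import Mathlib.Algebra.MvPolynomial.PDeriv
import Mathlib.RingTheory.MvPolynomial.Basic
import Mathlib.RingTheory.MvPolynomial.Homogeneous
import Mathlib.Tactic

/-!
# The formal Gaussian functional
-/

set_option autoImplicit false

namespace Q116.HT

open MvPolynomial Finset

section gf

variable {ι : Type} [Fintype ι] [DecidableEq ι] {R : Type} [Field R] [CharZero R]

/-- formal Gaussian functional with covariance `K` (Stein's identity) -/
structure IsG (K : ι → ι → R) (E : MvPolynomial ι R →ₗ[R] R) : Prop where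
  one : E 1 = 1
  step : ∀ i f, E (X i * f) = ∑ j, K i j * E (pderiv j f)

/-- the quadratic form -/
noncomputable def qf (K : ι → ι → R) : MvPolynomial ι R :=
  C (1 / 2) * ∑ i, ∑ j, C (K i j) * (X i * X j)

theorem pderiv_qf {K : ι → ι → R} (hK : ∀ i j, K i j = K j i) (i : ι) :
    pderiv i (qf K) = ∑ j, C (K i j) * X j := by
  have h1 : ∀ a b : ι, pderiv i (C (K a b) * (X a * X b) : MvPolynomial ι R) =
      (if a = i then C (K a b) * X b else 0) + (if b = i then C (K a b) * X a else 0) := by
    intro a b
    rw [pderiv_C_mul, pderiv_mul]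
    by_cases ha : a = i
    · by_cases hb : b = i
      · subst ha; subst hb
        simp
        ring
      · subst ha
        rw [pderiv_X_self, pderiv_X_of_ne hb, if_pos rfl, if_neg hb]
        ring
    · by_cases hb : b = i
      · subst hb
        rw [pderiv_X_self, pderiv_X_of_ne ha, if_neg ha, if_pos rfl]
        ring
      · rw [pderiv_X_of_ne ha, pderiv_X_of_ne hb, if_neg ha, if_neg hb]
        ring
  rw [qf, pderiv_C_mul]
  simp only [map_sum, h1, Finset.sum_add_distrib, Finset.sum_ite_eq', Finset.mem_univ, if_true]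
  have h2 : ∑ x, ∑ x_1, (if x = i then (C (K x x_1) * X x_1 : MvPolynomial ι R) else 0) =
      ∑ j, C (K i j) * X j := by
    rw [Finset.sum_comm]
    refine Finset.sum_congr rfl fun j _ => ?_
    simp
  have h3 : ∑ x, (C (K x i) * X x : MvPolynomial ι R) = ∑ j, C (K i j) * X j :=
    Finset.sum_congr rfl fun j _ => by rw [hK j i]
  rw [h2, h3]
  have h4 : (C (1 / 2) : MvPolynomial ι R) * (∑ j, C (K i j) * X j + ∑ j, C (K i j) * X j) =
      C (1 / 2 + 1 / 2) * ∑ j, C (K i j) * X j := by
    rw [map_add]; ring
  rw [h4]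
  norm_num

/-- product of factorials -/
noncomputable def fa (α : ι →₀ ℕ) : R := ∏ i, ((α i).factorial : R)

theorem fa_add (β : ι →₀ ℕ) (i : ι) :
    (fa (β + Finsupp.single i 1) : R) = (β i + 1) * fa β := by
  unfold fa
  rw [← Finset.mul_prod_erase univ _ (Finset.mem_univ i),
    ← Finset.mul_prod_erase univ (fun j => ((β j).factorial : R)) (Finset.mem_univ i), ← mul_assoc]
  congr 1
  · simp [Nat.factorial_succ]
  · refine Finset.prod_congr rfl fun j hj => ?_
    have : j ≠ i := Finset.ne_of_mem_erase hj
    simp [Finsupp.single_apply, this.symm]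

/-- moments of degree `2n` -/
noncomputable def mo (K : ι → ι → R) (n : ℕ) (α : ι →₀ ℕ) : R :=
  fa α * coeff α (qf K ^ n) / (n.factorial : R)

theorem mo_succ {K : ι → ι → R} (hK : ∀ i j, K i j = K j i) (n : ℕ) (β : ι →₀ ℕ) (i : ι) :
    mo K (n + 1) (β + Finsupp.single i 1) =
      ∑ j, K i j * ((β j : R) * mo K n (β - Finsupp.single j 1)) := by
  have h1 : coeff (β + Finsupp.single i 1) (qf K ^ (n + 1)) * ((β i : R) + 1) =
      (n + 1 : R) * ∑ j, K i j * coeff β (X j * qf K ^ n) := by
    rw [← coeff_pderiv, pderiv_pow, pderiv_qf hK, Nat.add_sub_cancel]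
    have : ((n + 1 : ℕ) : MvPolynomial ι R) * qf K ^ n * ∑ j, C (K i j) * X j =
        ∑ j, C ((n + 1 : R) * K i j) * (X j * qf K ^ n) := by
      rw [Finset.mul_sum]
      refine Finset.sum_congr rfl fun j _ => ?_
      simp only [map_mul, map_add, map_one, map_natCast]
      push_cast
      ring
    rw [this, coeff_sum, Finset.mul_sum]
    refine Finset.sum_congr rfl fun j _ => ?_
    rw [coeff_C_mul]
    ring
  have h2 : ∀ j, fa β * coeff β (X j * qf K ^ n) =
      (β j : R) * (fa (β - Finsupp.single j 1) * coeff (β - Finsupp.single j 1) (qf K ^ n)) := by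
    intro j
    rw [coeff_X_mul']
    split_ifs with hj
    · have hj' : β j ≠ 0 := Finsupp.mem_support_iff.mp hj
      have h3 : β - Finsupp.single j 1 + Finsupp.single j 1 = β := by
        refine tsub_add_cancel_of_le ?_
        rw [Finsupp.single_le_iff]
        omega
      have h4 := fa_add (R := R) (β - Finsupp.single j 1) j
      rw [h3] at h4
      rw [h4]
      have h5 : (((β - Finsupp.single j 1 : ι →₀ ℕ) j : ℕ) : R) + 1 = β j := by
        rw [Finsupp.tsub_apply, Finsupp.single_eq_same]
        have : (((β j - 1 : ℕ) : R) + 1) = ((β j - 1 + 1 : ℕ) : R) := by push_cast; ring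
        rw [this]
        congr 1
        omega
      rw [h5]
      ring
    · have : β j = 0 := by
        by_contra h
        exact hj (Finsupp.mem_support_iff.mpr h)
      rw [this]
      simp
  have hn : ((n + 1 : ℕ).factorial : R) = (n + 1 : R) * n.factorial := by
    rw [Nat.factorial_succ]; push_cast; ring
  have hn1 : (n + 1 : R) ≠ 0 := by exact_mod_cast Nat.succ_ne_zero n
  have hn2 : (n.factorial : R) ≠ 0 := by exact_mod_cast Nat.factorial_ne_zero n
  unfold mo
  rw [fa_add, hn]
  have h6 : ((β i : R) + 1) * fa β * coeff (β + Finsupp.single i 1) (qf K ^ (n + 1)) =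
      (n + 1 : R) * ∑ j, K i j * (fa β * coeff β (X j * qf K ^ n)) := by
    have : ((β i : R) + 1) * fa β * coeff (β + Finsupp.single i 1) (qf K ^ (n + 1)) =
      fa β * (coeff (β + Finsupp.single i 1) (qf K ^ (n + 1)) * ((β i : R) + 1)) := by ring
    rw [this, h1]
    rw [mul_left_comm, Finset.mul_sum]
    congr 1
    refine Finset.sum_congr rfl fun j _ => ?_
    ring
  rw [h6, mul_div_mul_left _ _ hn1, Finset.sum_div]
  refine Finset.sum_congr rfl fun j _ => ?_
  rw [h2]
  ring

theorem qf_hom (K : ι → ι → R) : (qf K).IsHomogeneous 2 := by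
  unfold qf
  have h : (∑ i, ∑ j, C (K i j) * (X i * X j) : MvPolynomial ι R).IsHomogeneous 2 := by
    refine IsHomogeneous.sum _ _ _ fun i _ => IsHomogeneous.sum _ _ _ fun j _ => ?_
    have h1 : (C (K i j) : MvPolynomial ι R).IsHomogeneous 0 := isHomogeneous_C _ _
    have h2 : (X i * X j : MvPolynomial ι R).IsHomogeneous (1 + 1) :=
      (isHomogeneous_X _ _).mul (isHomogeneous_X _ _)
    have h3 := h1.mul h2
    simpa using h3
  have h1 : (C (1 / 2 : R) : MvPolynomial ι R).IsHomogeneous 0 := isHomogeneous_C _ _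
  have h3 := h1.mul h
  simpa using h3

theorem mo_hom (K : ι → ι → R) {n : ℕ} {α : ι →₀ ℕ} (h : α.degree ≠ 2 * n) : mo K n α = 0 := by
  unfold mo
  rw [((qf_hom K).pow n).coeff_eq_zero h, mul_zero, zero_div]

/-- total moment -/
noncomputable def tot (K : ι → ι → R) (α : ι →₀ ℕ) : R :=
  ∑ n ∈ range (α.degree + 1), mo K n α

theorem tot_eq (K : ι → ι → R) {α : ι →₀ ℕ} {N : ℕ} (h : α.degree + 1 ≤ N) :
    ∑ n ∈ range N, mo K n α = tot K α := by
  symm
  refine Finset.sum_subset (Finset.range_mono h) fun n _ hn => ?_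
  rw [Finset.mem_range] at hn
  exact mo_hom K (by omega)

theorem tot_mo (K : ι → ι → R) {α : ι →₀ ℕ} {m : ℕ} (h : α.degree = 2 * m) :
    tot K α = mo K m α := by
  unfold tot
  rw [Finset.sum_eq_single m]
  · intro n _ hn
    exact mo_hom K (by omega)
  · intro hm
    exfalso
    apply hm
    rw [Finset.mem_range]
    omega

/-- the functional -/
noncomputable def gE (K : ι → ι → R) : MvPolynomial ι R →ₗ[R] R :=
  (basisMonomials ι R).constr R (tot K)

theorem gE_monomial (K : ι → ι → R) (α : ι →₀ ℕ) (c : R) :
    gE K (monomial α c) = c * tot K α := by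
  have h1 : monomial α c = c • (basisMonomials ι R) α := by
    rw [coe_basisMonomials, smul_monomial, smul_eq_mul, mul_one]
  rw [h1, map_smul, gE, Module.Basis.constr_basis, smul_eq_mul]

theorem degree_add_single (β : ι →₀ ℕ) (i : ι) :
    (β + Finsupp.single i 1).degree = β.degree + 1 := by
  simp

theorem degree_sub_single_le (β : ι →₀ ℕ) (i : ι) :
    (β - Finsupp.single i 1).degree ≤ β.degree :=
  Finsupp.degree_mono tsub_le_self

theorem gE_isG {K : ι → ι → R} (hK : ∀ i j, K i j = K j i) : IsG K (gE K) where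
  one := by
    rw [one_def, gE_monomial, one_mul]
    unfold tot mo fa
    simp
  step i f := by
    induction f using MvPolynomial.induction_on' with
    | monomial β c =>
      have h0 : (X i * monomial β c : MvPolynomial ι R) = monomial (β + Finsupp.single i 1) c := by
        rw [X, monomial_mul, one_mul, add_comm]
      rw [h0, gE_monomial]
      have h1 : tot K (β + Finsupp.single i 1) =
          ∑ j, K i j * ((β j : R) * tot K (β - Finsupp.single j 1)) := by
        rw [tot, degree_add_single, Finset.sum_range_succ']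
        have h2 : mo K 0 (β + Finsupp.single i 1) = 0 := mo_hom K (by
          rw [degree_add_single]; omega)
        rw [h2, add_zero]
        simp only [mo_succ hK]
        rw [Finset.sum_comm]
        refine Finset.sum_congr rfl fun j _ => ?_
        rw [← Finset.mul_sum, ← Finset.mul_sum, tot_eq K]
        have := degree_sub_single_le β j
        omega
      rw [h1, Finset.mul_sum]
      refine Finset.sum_congr rfl fun j _ => ?_
      rw [pderiv_monomial, gE_monomial]
      ring
    | add p q hp hq =>
      rw [mul_add, map_add, hp, hq, ← Finset.sum_add_distrib]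
      refine Finset.sum_congr rfl fun j _ => ?_
      rw [map_add, map_add, mul_add]

theorem exists_single {α : ι →₀ ℕ} (h : α ≠ 0) : ∃ (β : ι →₀ ℕ) (i : ι),
    α = β + Finsupp.single i 1 := by
  obtain ⟨i, hi⟩ := Finsupp.ne_iff.mp h
  have hi' : α i ≠ 0 := by simpa using hi
  refine ⟨α - Finsupp.single i 1, i, ?_⟩
  rw [tsub_add_cancel_of_le]
  rw [Finsupp.single_le_iff]
  omega

/-- comparison principle -/
theorem cmp {S : Type} [CommRing S] (ρ : R →+* S) {K : ι → ι → R} {E : MvPolynomial ι R →ₗ[R] R}
    (hE : IsG K E) (F : MvPolynomial ι R →+ S) (h1 : F 1 = 1)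
    (hC : ∀ c f, F (C c * f) = ρ c * F f)
    (hs : ∀ i f, F (X i * f) = ∑ j, ρ (K i j) * F (pderiv j f)) (f : MvPolynomial ι R) :
    F f = ρ (E f) := by
  have hCE : ∀ (c : R) (f : MvPolynomial ι R), E (C c * f) = c * E f := by
    intro c f
    rw [C_mul', map_smul, smul_eq_mul]
  have key : ∀ d : ℕ, ∀ α : ι →₀ ℕ, α.degree = d → F (monomial α 1) = ρ (E (monomial α 1)) := by
    intro d
    induction d using Nat.strong_induction_on with
    | _ d ih =>
      intro α hα
      by_cases h0 : α = 0
      · subst h0
        rw [← one_def, h1, hE.one, map_one]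
      · obtain ⟨β, i, rfl⟩ := exists_single h0
        have h2 : (monomial (β + Finsupp.single i 1) 1 : MvPolynomial ι R) =
            X i * monomial β 1 := by
          rw [X, monomial_mul, one_mul, add_comm]
        rw [h2, hs, hE.step, map_sum]
        refine Finset.sum_congr rfl fun j _ => ?_
        rw [map_mul]
        congr 1
        rw [pderiv_monomial, one_mul]
        have h3 : (monomial (β - Finsupp.single j 1) ((β j : ℕ) : R) : MvPolynomial ι R) =
            C ((β j : ℕ) : R) * monomial (β - Finsupp.single j 1) 1 := by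
          rw [C_mul_monomial, mul_one]
        rw [h3, hC, hCE, map_mul, ih (β - Finsupp.single j 1).degree _ _ rfl]
        have := degree_sub_single_le β j
        rw [degree_add_single] at hα
        omega
  induction f using MvPolynomial.induction_on' with
  | monomial α c =>
    have h3 : (monomial α c : MvPolynomial ι R) = C c * monomial α 1 := by
      rw [C_mul_monomial, mul_one]
    rw [h3, hC, hCE, map_mul, key _ α rfl]
  | add p q hp hq => rw [map_add, map_add, map_add, hp, hq]

theorem IsG.unique {K : ι → ι → R} {E F : MvPolynomial ι R →ₗ[R] R} (hE : IsG K E)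
    (hF : IsG K F) (f : MvPolynomial ι R) : F f = E f := by
  have := cmp (RingHom.id R) hE (F : MvPolynomial ι R →ₗ[R] R).toAddMonoidHom hF.one
    (fun c f => by
      simp only [LinearMap.toAddMonoidHom_coe, RingHom.id_apply]
      rw [C_mul', map_smul, smul_eq_mul])
    (fun i f => hF.step i f) f
  exact this

theorem IsG.map {K : ι → ι → R} {E : MvPolynomial ι R →ₗ[R] R} (hE : IsG K E)
    {S : Type} [Field S] [CharZero S] (ρ : R →+* S) {F : MvPolynomial ι S →ₗ[S] S}
    (hF : IsG (fun i j => ρ (K i j)) F) (f : MvPolynomial ι R) :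
    F (MvPolynomial.map ρ f) = ρ (E f) := by
  refine cmp ρ hE (F.toAddMonoidHom.comp (MvPolynomial.map ρ).toAddMonoidHom) ?_ ?_ ?_ f
  · simp [hF.one]
  · intro c f
    simp only [AddMonoidHom.comp_apply, LinearMap.toAddMonoidHom_coe, RingHom.toAddMonoidHom_eq_coe,
      AddMonoidHom.coe_coe, map_mul, map_C]
    rw [C_mul', map_smul, smul_eq_mul]
  · intro i f
    simp only [AddMonoidHom.comp_apply, LinearMap.toAddMonoidHom_coe, RingHom.toAddMonoidHom_eq_coe,
      AddMonoidHom.coe_coe, map_mul, map_X]
    rw [hF.step]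
    refine Finset.sum_congr rfl fun j _ => ?_
    rw [pderiv_map]

section subst

variable {κ : Type} [Fintype κ] [DecidableEq κ]

/-- linear substitution -/
noncomputable def lin (A : ι → κ → R) : MvPolynomial ι R →ₐ[R] MvPolynomial κ R :=
  aeval (fun i => ∑ j, C (A i j) * X j)

theorem lin_X (A : ι → κ → R) (i : ι) : lin A (X i) = ∑ j, C (A i j) * X j := by
  rw [lin, aeval_X]

theorem pderiv_lin (A : ι → κ → R) (k : κ) (f : MvPolynomial ι R) :
    pderiv k (lin A f) = ∑ i, C (A i k) * lin A (pderiv i f) := by
  induction f using MvPolynomial.induction_on with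
  | C a =>
    have : (lin A (C a) : MvPolynomial κ R) = C a := by
      rw [lin, aeval_C]; rfl
    rw [this]
    simp
  | add p q hp hq =>
    simp only [map_add, hp, hq, mul_add, Finset.sum_add_distrib]
  | mul_X p i hp =>
    rw [map_mul, pderiv_mul, hp, lin_X]
    have h1 : pderiv k (∑ j, C (A i j) * X j : MvPolynomial κ R) = C (A i k) := by
      rw [map_sum, Finset.sum_eq_single k]
      · rw [pderiv_C_mul, pderiv_X_self, mul_one]
      · intro j _ hj
        rw [pderiv_C_mul, pderiv_X_of_ne hj, mul_zero]
      · intro h; exact absurd (Finset.mem_univ k) h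
    rw [h1]
    have h2 : ∀ a : ι, C (A a k) * lin A (pderiv a (p * X i)) =
        (C (A a k) * lin A (pderiv a p)) * lin A (X i) +
          (if a = i then C (A i k) * lin A p else 0) := by
      intro a
      rw [pderiv_mul, map_add, map_mul, map_mul]
      split_ifs with h
      · subst h
        rw [pderiv_X_self, map_one]
        ring
      · rw [pderiv_X_of_ne (Ne.symm h), map_zero]
        ring
    simp only [h2, Finset.sum_add_distrib, Finset.sum_ite_eq', Finset.mem_univ, if_true]
    rw [← Finset.sum_mul, lin_X]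
    ring

theorem IsG.C_mul {K : ι → ι → R} {E : MvPolynomial ι R →ₗ[R] R} (_ : IsG K E) (c : R)
    (f : MvPolynomial ι R) : E (C c * f) = c * E f := by
  rw [C_mul', map_smul, smul_eq_mul]

/-- Stein's identity for a linear form -/
theorem IsG.lin_step {Ω : κ → κ → R} {E : MvPolynomial κ R →ₗ[R] R} (hE : IsG Ω E)
    (a : κ → R) (f : MvPolynomial κ R) :
    E ((∑ j, C (a j) * X j) * f) = ∑ j, ∑ k, a j * Ω j k * E (pderiv k f) := by
  rw [Finset.sum_mul, map_sum]
  refine Finset.sum_congr rfl fun j _ => ?_
  rw [mul_assoc, hE.C_mul, hE.step, Finset.mul_sum]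
  refine Finset.sum_congr rfl fun k _ => ?_
  ring

theorem IsG.comp_lin {Ω : κ → κ → R} {E : MvPolynomial κ R →ₗ[R] R} (hE : IsG Ω E)
    {K : ι → ι → R} (A : ι → κ → R)
    (hK : ∀ i i', K i i' = ∑ j, ∑ k, A i j * Ω j k * A i' k) :
    IsG K (E ∘ₗ (lin A).toLinearMap) where
  one := by simp [hE.one]
  step i f := by
    simp only [LinearMap.comp_apply, AlgHom.toLinearMap_apply]
    rw [map_mul, lin_X, hE.lin_step]
    simp only [pderiv_lin, map_sum, hE.C_mul, hK, Finset.mul_sum, Finset.sum_mul]
    have hc : ∀ g : κ → κ → ι → R, ∑ x, ∑ y, ∑ z, g x y z = ∑ z, ∑ x, ∑ y, g x y z := by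
      intro g
      have h1 : ∀ x, ∑ y, ∑ z, g x y z = ∑ z, ∑ y, g x y z := fun x => Finset.sum_comm
      simp only [h1]
      exact Finset.sum_comm
    rw [hc]
    refine Finset.sum_congr rfl fun a _ => Finset.sum_congr rfl fun b _ =>
      Finset.sum_congr rfl fun c _ => ?_
    ring

end subst

end gf

end Q116.HT
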