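import Pool.Agent.Q116.HT.Gf
import Mathlib.Analysis.Complex.Basic
import Mathlib.Topology.Algebra.Order.LiminfLimsup

/-!
# A Heilmann–Lieb argument
-/

set_option autoImplicit false

namespace Q116.HT

open MvPolynomial Finset

section step

variable {ι : Type} [Fintype ι] [DecidableEq ι] {R : Type} [Field R] [CharZero R]
variable {Λ : Type} [DecidableEq Λ]

theorem der_prod {A : Type} [CommRing A] [Algebra R A] (D : Derivation R A A)
    (L : Finset Λ) (f : Λ → A) :
    D (∏ l ∈ L, f l) = ∑ l ∈ L, D (f l) * ∏ k ∈ L.erase l, f k := by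
  induction L using Finset.induction_on with
  | empty => simp
  | insert a L ha ih =>
    rw [Finset.prod_insert ha, Derivation.leibniz, ih, Finset.sum_insert ha,
      Finset.erase_insert ha, smul_eq_mul, smul_eq_mul, Finset.mul_sum, add_comm]
    congr 1
    · ring
    · refine Finset.sum_congr rfl fun l hl => ?_
      have hne : a ≠ l := fun h => ha (h ▸ hl)
      have h1 : (insert a L).erase l = insert a (L.erase l) := Finset.erase_insert_of_ne hne
      rw [h1, Finset.prod_insert (fun h => ha (Finset.mem_of_mem_erase h))]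
      ring

/-- affine forms -/
noncomputable def af (z : Λ → ι → R) (ζ : Λ → R) (l : Λ) : MvPolynomial ι R :=
  (∑ j, C (z l j) * X j) + C (ζ l)

theorem pderiv_af (z : Λ → ι → R) (ζ : Λ → R) (l : Λ) (k : ι) :
    pderiv k (af z ζ l) = C (z l k) := by
  rw [af, map_add, pderiv_C, add_zero, map_sum, Finset.sum_eq_single k]
  · rw [pderiv_C_mul, pderiv_X_self, mul_one]
  · intro j _ hj
    rw [pderiv_C_mul, pderiv_X_of_ne hj, mul_zero]
  · intro h; exact absurd (Finset.mem_univ k) h

theorem IsG.prod_step {K : ι → ι → R} {E : MvPolynomial ι R →ₗ[R] R} (hE : IsG K E)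
    (z : Λ → ι → R) (ζ : Λ → R) (a : ι → R) (L : Finset Λ) :
    E ((∑ j, C (a j) * X j) * ∏ l ∈ L, af z ζ l) =
      ∑ l ∈ L, (∑ j, ∑ k, a j * K j k * z l k) * E (∏ l' ∈ L.erase l, af z ζ l') := by
  rw [hE.lin_step]
  have h1 : ∀ k : ι, E (pderiv k (∏ l ∈ L, af z ζ l)) =
      ∑ l ∈ L, z l k * E (∏ l' ∈ L.erase l, af z ζ l') := by
    intro k
    rw [der_prod, map_sum]
    refine Finset.sum_congr rfl fun l _ => ?_
    rw [pderiv_af, hE.C_mul]
  simp only [h1, Finset.mul_sum, Finset.sum_mul]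
  have h2 : ∀ x, ∑ y, ∑ l ∈ L, a x * K x y * (z l y * E (∏ l' ∈ L.erase l, af z ζ l')) =
      ∑ l ∈ L, ∑ y, a x * K x y * (z l y * E (∏ l' ∈ L.erase l, af z ζ l')) :=
    fun x => Finset.sum_comm
  simp only [h2]
  rw [Finset.sum_comm]
  refine Finset.sum_congr rfl fun l _ => Finset.sum_congr rfl fun x _ =>
    Finset.sum_congr rfl fun y _ => ?_
  ring

theorem IsG.insert_step {K : ι → ι → R} {E : MvPolynomial ι R →ₗ[R] R} (hE : IsG K E)
    (z : Λ → ι → R) (ζ : Λ → R) {l : Λ} {L : Finset Λ} (hl : l ∉ L) :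
    E (∏ l' ∈ insert l L, af z ζ l') = ζ l * E (∏ l' ∈ L, af z ζ l') +
      ∑ l' ∈ L, (∑ j, ∑ k, z l j * K j k * z l' k) * E (∏ l'' ∈ L.erase l', af z ζ l'') := by
  rw [Finset.prod_insert hl, ← hE.prod_step z ζ (z l) L]
  conv_lhs => rw [af]
  rw [add_mul, map_add, hE.C_mul, add_comm]

end step

/-- Heilmann–Lieb -/
theorem hl {Λ : Type} [DecidableEq Λ] (W : Finset Λ → ℂ) (ζ : Λ → ℂ) (w : Λ → Λ → ℝ)
    (hw : ∀ a b, 0 ≤ w a b) (h0 : W ∅ = 1)
    (hW : ∀ l L, l ∉ L → W (insert l L) = ζ l * W L + ∑ l' ∈ L, (-(w l l' : ℂ)) * W (L.erase l'))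
    (hζ : ∀ l, 0 < (ζ l).im) (L : Finset Λ) :
    W L ≠ 0 ∧ ∀ l, l ∉ L → 0 < (W (insert l L) / W L).im := by
  induction L using Finset.strongInduction with
  | _ L ih =>
    have hne : W L ≠ 0 := by
      rcases L.eq_empty_or_nonempty with h | ⟨l, hl⟩
      · rw [h, h0]; exact one_ne_zero
      · have h1 := (ih (L.erase l) (Finset.erase_ssubset hl)).2 l (Finset.notMem_erase l L)
        rw [Finset.insert_erase hl] at h1
        intro h
        rw [h, zero_div] at h1
        simp at h1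
    refine ⟨hne, fun l hl => ?_⟩
    rw [hW l L hl, add_div, mul_div_assoc, div_self hne, mul_one, Finset.sum_div, Complex.add_im,
      Complex.im_sum]
    have h2 : 0 ≤ ∑ l' ∈ L, ((-(w l l' : ℂ)) * W (L.erase l') / W L).im := by
      refine Finset.sum_nonneg fun l' hl' => ?_
      obtain ⟨h3, h4⟩ := ih (L.erase l') (Finset.erase_ssubset hl')
      have h5 := h4 l' (Finset.notMem_erase l' L)
      rw [Finset.insert_erase hl'] at h5
      have h6 : (-(w l l' : ℂ)) * W (L.erase l') / W L =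
          (((-(w l l')) : ℝ) : ℂ) * (W L / W (L.erase l'))⁻¹ := by
        rw [inv_div]; push_cast; ring
      rw [h6, Complex.im_ofReal_mul, Complex.inv_im]
      have h7 : 0 ≤ Complex.normSq (W L / W (L.erase l')) := Complex.normSq_nonneg _
      have h8 : -(W L / W (L.erase l')).im / Complex.normSq (W L / W (L.erase l')) ≤ 0 :=
        div_nonpos_of_nonpos_of_nonneg (by linarith) h7
      nlinarith [hw l l']
    have := hζ l
    linarith

theorem neg_of_real {a b : ℂ} (ha : 0 < a.im) (hb : 0 < b.im) {r : ℝ} (h : a * b = r) : r < 0 := by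
  have h1 : (a * b).im = 0 := by rw [h]; simp
  have h2 : (a * b).re = r := by rw [h]; simp
  rw [Complex.mul_im] at h1
  rw [Complex.mul_re] at h2
  -- a.re * b.im = - a.im * b.re
  have h3 : r * b.im = -(a.im * (b.re ^ 2 + b.im ^ 2)) := by
    rw [← h2]
    linear_combination b.re * h1
  by_contra hr
  push Not at hr
  have h4 : 0 ≤ r * b.im := by positivity
  have h5 : 0 < a.im * (b.re ^ 2 + b.im ^ 2) := by positivity
  linarith

section pos

variable {J Y : Type} [Fintype J] [DecidableEq J] [Fintype Y] [DecidableEq Y]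

/-- sign -/
def sg (s : Bool) : ℝ := if s = true then -1 else 1

/-- coefficients of the linear forms -/
noncomputable def zc (h : J → Y) (l : J × Bool) : J ⊕ Y → ℂ :=
  Sum.elim (fun x => if x = l.1 then ((sg l.2 : ℝ) : ℂ) else 0)
    (fun y => if y = h l.1 then Complex.I else 0)

theorem dsum {A B : Type} [Fintype A] [DecidableEq A] [Fintype B] [DecidableEq B] (a : A) (b : B)
    (u v : ℂ) (K : A → B → ℂ) :
    ∑ j, ∑ k, (if j = a then u else 0) * K j k * (if k = b then v else 0) = u * K a b * v := by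
  rw [Finset.sum_eq_single a, Finset.sum_eq_single b]
  · rw [if_pos rfl, if_pos rfl]
  · intro k _ hk
    rw [if_neg hk, mul_zero]
  · intro hh; exact absurd (Finset.mem_univ _) hh
  · intro j _ hj
    refine Finset.sum_eq_zero fun k _ => ?_
    rw [if_neg hj, zero_mul, zero_mul]
  · intro hh; exact absurd (Finset.mem_univ _) hh

theorem zc_form (h : J → Y) {K : J ⊕ Y → J ⊕ Y → ℝ} (h1 : ∀ x y, K (Sum.inl x) (Sum.inr y) = 0)
    (h2 : ∀ x y, K (Sum.inr y) (Sum.inl x) = 0) (l l' : J × Bool) :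
    ∑ j, ∑ k, zc h l j * ((K j k : ℝ) : ℂ) * zc h l' k =
      -(((K (Sum.inr (h l.1)) (Sum.inr (h l'.1)) -
        sg l.2 * sg l'.2 * K (Sum.inl l.1) (Sum.inl l'.1) : ℝ)) : ℂ) := by
  have hI := Complex.I_mul_I
  rw [Fintype.sum_sum_type]
  simp only [Fintype.sum_sum_type, zc, Sum.elim_inl, Sum.elim_inr, Finset.sum_add_distrib, dsum,
    h1, h2, Complex.ofReal_zero, mul_zero, zero_mul, add_zero, zero_add, Finset.sum_const_zero]
  push_cast
  linear_combination ((K (Sum.inr (h l.1)) (Sum.inr (h l'.1)) : ℝ) : ℂ) * hI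

/-- the points -/
noncomputable def zp (z : J → ℂ) (l : J × Bool) : ℂ :=
  if l.2 = true then -(starRingEnd ℂ) (z l.1) else z l.1

theorem map_af (h : J → Y) (z : J → ℂ) (x : J) (s : Bool) :
    MvPolynomial.map (starRingEnd ℂ) (af (zc h) (zp z) (x, s)) = - af (zc h) (zp z) (x, !s) := by
  have h1 : ∀ j, (starRingEnd ℂ) (zc h (x, s) j) = - zc h (x, !s) j := by
    intro j
    rcases j with j | y
    · simp only [zc, Sum.elim_inl]
      split_ifs with hx
      · rw [Complex.conj_ofReal]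
        cases s <;> simp [sg]
      · simp
    · simp only [zc, Sum.elim_inr]
      split_ifs with hy
      · rw [Complex.conj_I]
      · simp
  have h2 : (starRingEnd ℂ) (zp z (x, s)) = - zp z (x, !s) := by
    cases s <;> simp [zp]
  rw [af, map_add, map_C, map_sum, h2, af, neg_add]
  congr 1
  · rw [← Finset.sum_neg_distrib]
    refine Finset.sum_congr rfl fun j _ => ?_
    rw [map_mul, map_C, map_X, h1]
    simp
  · simp

variable {K : J ⊕ Y → J ⊕ Y → ℝ} {E : MvPolynomial (J ⊕ Y) ℂ →ₗ[ℂ] ℂ}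

theorem real_W (hE : IsG (fun i j => ((K i j : ℝ) : ℂ)) E) (h : J → Y) (z : J → ℂ)
    (S : Finset J) :
    (starRingEnd ℂ) (E (∏ l ∈ S ×ˢ (univ : Finset Bool), af (zc h) (zp z) l)) =
      E (∏ l ∈ S ×ˢ (univ : Finset Bool), af (zc h) (zp z) l) := by
  have hE' : IsG (fun i j => (starRingEnd ℂ) ((fun i j => ((K i j : ℝ) : ℂ)) i j)) E := by
    simpa only [Complex.conj_ofReal] using hE
  rw [← hE.map (starRingEnd ℂ) hE']
  congr 1
  rw [map_prod, Finset.prod_product, Finset.prod_product]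
  refine Finset.prod_congr rfl fun x _ => ?_
  rw [Fintype.prod_bool, Fintype.prod_bool, map_af, map_af]
  simp only [Bool.not_true, Bool.not_false]
  ring

theorem pos_W (hE : IsG (fun i j => ((K i j : ℝ) : ℂ)) E) (h : J → Y)
    (h1 : ∀ x y, K (Sum.inl x) (Sum.inr y) = 0) (h2 : ∀ x y, K (Sum.inr y) (Sum.inl x) = 0)
    (h3 : ∀ x x', |K (Sum.inl x) (Sum.inl x')| ≤ K (Sum.inr (h x)) (Sum.inr (h x')))
    {z : J → ℂ} (hz : ∀ x, 0 < (z x).im) (S : Finset J) :
    0 < ((-1) ^ S.card * E (∏ l ∈ S ×ˢ (univ : Finset Bool), af (zc h) (zp z) l)).re := by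
  have key := hl (Λ := J × Bool) (fun L => E (∏ l ∈ L, af (zc h) (zp z) l)) (zp z)
    (fun l l' => K (Sum.inr (h l.1)) (Sum.inr (h l'.1)) -
        sg l.2 * sg l'.2 * K (Sum.inl l.1) (Sum.inl l'.1)) (by
      intro l l'
      have h4 := abs_le.mp (h3 l.1 l'.1)
      obtain ⟨x, s⟩ := l
      obtain ⟨x', s'⟩ := l'
      cases s <;> cases s' <;> simp only [sg] <;> norm_num <;> linarith [h4.1, h4.2]) (by
      simp [hE.one]) (by
      intro l L hl
      rw [hE.insert_step (zc h) (zp z) hl]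
      congr 1
      refine Finset.sum_congr rfl fun l' _ => ?_
      rw [zc_form h h1 h2]) (by
      rintro ⟨x, s⟩
      cases s
      · simpa [zp] using hz x
      · simpa [zp] using hz x)
  induction S using Finset.induction_on with
  | empty => simp [hE.one]
  | insert x S hx ih =>
    set L := S ×ˢ (univ : Finset Bool) with hL
    have hL' : (insert x S) ×ˢ (univ : Finset Bool) = insert (x, true) (insert (x, false) L) := by
      ext ⟨y, s⟩
      simp only [Finset.mem_product, Finset.mem_insert, Finset.mem_univ, and_true, Prod.mk.injEq,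
        hL]
      cases s <;> simp
    have hn1 : (x, false) ∉ L := by simp [hL, hx]
    have hn2 : (x, true) ∉ insert (x, false) L := by simp [hL, hx]
    have k1 := (key L).2 _ hn1
    have k2 := (key (insert (x, false) L)).2 _ hn2
    have n1 := (key L).1
    have n2 := (key (insert (x, false) L)).1
    have r1 := real_W hE h z S
    have r2 := real_W hE h z (insert x S)
    rw [hL'] at r2 ⊢
    rw [← hL] at r1
    generalize E (∏ l ∈ L, af (zc h) (zp z) l) = a at *
    generalize E (∏ l ∈ insert (x, false) L, af (zc h) (zp z) l) = b at *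
    generalize E (∏ l ∈ insert (x, true) (insert (x, false) L), af (zc h) (zp z) l) = c at *
    obtain ⟨ra, rfl⟩ := Complex.conj_eq_iff_real.mp r1
    obtain ⟨rc, rfl⟩ := Complex.conj_eq_iff_real.mp r2
    have hra : ra ≠ 0 := by
      intro h; rw [h] at n1; simp at n1
    have h5 : (rc : ℂ) / b * (b / (ra : ℂ)) = ((rc / ra : ℝ) : ℂ) := by
      push_cast
      field_simp
    have h6 := neg_of_real k2 k1 h5
    rw [Finset.card_insert_of_notMem hx, pow_succ]
    have e1 : ((-1 : ℂ) ^ S.card * (ra : ℂ)).re = (-1) ^ S.card * ra := by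
      have : ((-1 : ℂ) ^ S.card * (ra : ℂ)) = (((-1) ^ S.card * ra : ℝ) : ℂ) := by push_cast; ring
      rw [this, Complex.ofReal_re]
    have e2 : ((-1 : ℂ) ^ S.card * (-1) * (rc : ℂ)).re = -((-1) ^ S.card * rc) := by
      have : ((-1 : ℂ) ^ S.card * (-1) * (rc : ℂ)) = ((-((-1) ^ S.card * rc) : ℝ) : ℂ) := by
        push_cast; ring
      rw [this, Complex.ofReal_re]
    rw [e1] at ih
    rw [e2]
    have h7 : (-1) ^ S.card * rc = (rc / ra) * ((-1) ^ S.card * ra) := by
      field_simp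
    rw [h7]
    have := mul_neg_of_neg_of_pos h6 ih
    linarith

theorem cont_W {Λ : Type} [DecidableEq Λ] {ι : Type} [Fintype ι] [DecidableEq ι]
    {K : ι → ι → ℂ} {E : MvPolynomial ι ℂ →ₗ[ℂ] ℂ} (hE : IsG K E)
    (z : Λ → ι → ℂ) (L : Finset Λ) : Continuous (fun ζ : Λ → ℂ => E (∏ l ∈ L, af z ζ l)) := by
  induction L using Finset.strongInduction with
  | _ L ih =>
    rcases L.eq_empty_or_nonempty with h | ⟨l, hl⟩
    · subst h
      simpa using continuous_const
    · have h1 : (fun ζ : Λ → ℂ => E (∏ l ∈ L, af z ζ l)) = fun ζ : Λ → ℂ =>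
          ζ l * E (∏ l' ∈ L.erase l, af z ζ l') + ∑ l' ∈ L.erase l,
          (∑ j, ∑ k, z l j * K j k * z l' k) *
            E (∏ l'' ∈ (L.erase l).erase l', af z ζ l'') := by
        funext ζ
        rw [← hE.insert_step z ζ (Finset.notMem_erase l L), Finset.insert_erase hl]
      rw [h1]
      refine ((continuous_apply l).mul (ih _ (Finset.erase_ssubset hl))).add ?_
      refine continuous_finsetSum _ fun l' hl' => ?_
      refine continuous_const.mul (ih _ ?_)
      exact (Finset.erase_ssubset hl').trans (Finset.erase_ssubset hl)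

theorem pos_q (hE : IsG (fun i j => ((K i j : ℝ) : ℂ)) E) (h : J → Y)
    (h1 : ∀ x y, K (Sum.inl x) (Sum.inr y) = 0) (h2 : ∀ x y, K (Sum.inr y) (Sum.inl x) = 0)
    (h3 : ∀ x x', |K (Sum.inl x) (Sum.inl x')| ≤ K (Sum.inr (h x)) (Sum.inr (h x')))
    (g : J → ℝ) (S : Finset J) :
    0 ≤ (E (∏ x ∈ S, ((X (Sum.inl x) + C ((g x : ℝ) : ℂ)) ^ 2 + X (Sum.inr (h x)) ^ 2))).re := by
  have haf : ∀ x s, af (zc h) (zp fun x => ((g x : ℝ) : ℂ)) (x, s) =
      C ((sg s : ℝ) : ℂ) * (X (Sum.inl x) + C ((g x : ℝ) : ℂ)) +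
        C Complex.I * X (Sum.inr (h x)) := by
    intro x s
    rw [af, Fintype.sum_sum_type]
    simp only [zc, Sum.elim_inl, Sum.elim_inr]
    have e1 : ∑ x_1, (C (if x_1 = x then ((sg s : ℝ) : ℂ) else 0) * X (Sum.inl x_1) :
        MvPolynomial (J ⊕ Y) ℂ) = C ((sg s : ℝ) : ℂ) * X (Sum.inl x) := by
      rw [Finset.sum_eq_single x]
      · rw [if_pos rfl]
      · intro j _ hj
        rw [if_neg hj, map_zero, zero_mul]
      · intro hh; exact absurd (Finset.mem_univ x) hh
    have e2 : ∑ y, (C (if y = h x then Complex.I else 0) * X (Sum.inr y) :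
        MvPolynomial (J ⊕ Y) ℂ) = C Complex.I * X (Sum.inr (h x)) := by
      rw [Finset.sum_eq_single (h x)]
      · rw [if_pos rfl]
      · intro j _ hj
        rw [if_neg hj, map_zero, zero_mul]
      · intro hh; exact absurd (Finset.mem_univ _) hh
    rw [e1, e2]
    have e3 : (C (zp (fun x => ((g x : ℝ) : ℂ)) (x, s)) : MvPolynomial (J ⊕ Y) ℂ) =
        C ((sg s : ℝ) : ℂ) * C ((g x : ℝ) : ℂ) := by
      rw [← map_mul]
      congr 1
      cases s
      · simp [zp, sg]
      · simp only [zp, sg, if_true, Complex.conj_ofReal]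
        push_cast; ring
    rw [e3]
    ring
  have hq : ∏ x ∈ S, ((X (Sum.inl x) + C ((g x : ℝ) : ℂ)) ^ 2 + X (Sum.inr (h x)) ^ 2) =
      (C ((-1 : ℂ) ^ S.card) : MvPolynomial (J ⊕ Y) ℂ) *
        ∏ l ∈ S ×ˢ (univ : Finset Bool), af (zc h) (zp fun x => ((g x : ℝ) : ℂ)) l := by
    rw [Finset.prod_product, map_pow, ← Finset.prod_const, ← Finset.prod_mul_distrib]
    refine Finset.prod_congr rfl fun x _ => ?_
    rw [Fintype.prod_bool, haf, haf]
    have hI : (C Complex.I : MvPolynomial (J ⊕ Y) ℂ) * C Complex.I = C (-1) := by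
      rw [← map_mul, Complex.I_mul_I]
    have hs1 : ((sg true : ℝ) : ℂ) = -1 := by simp [sg]
    have hs2 : ((sg false : ℝ) : ℂ) = 1 := by simp [sg]
    rw [hs1, hs2]
    simp only [map_neg, map_one] at hI ⊢
    linear_combination (X (Sum.inr (h x)) ^ 2) * hI
  rw [hq, hE.C_mul]
  -- limit
  have hc : Continuous (fun ε : ℝ => ((-1) ^ S.card * E (∏ l ∈ S ×ˢ (univ : Finset Bool),
      af (zc h) (zp fun x => ((g x : ℝ) : ℂ) + ε * Complex.I) l)).re) := by
    refine Complex.continuous_re.comp (continuous_const.mul ?_)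
    refine (cont_W hE (zc h) _).comp ?_
    refine continuous_pi fun l => ?_
    obtain ⟨x, s⟩ := l
    have hb : Continuous (fun ε : ℝ => ((g x : ℝ) : ℂ) + ε * Complex.I) :=
      continuous_const.add (Complex.continuous_ofReal.mul continuous_const)
    cases s
    · simpa [zp] using hb
    · simp only [zp, if_true]
      exact (Complex.continuous_conj.comp hb).neg
  have h0 := (hc.tendsto 0).mono_left (nhdsWithin_le_nhds (s := Set.Ioi 0))
  simp only [Complex.ofReal_zero, zero_mul, add_zero] at h0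
  refine ge_of_tendsto h0 ?_
  filter_upwards [self_mem_nhdsWithin] with ε hε
  refine (pos_W hE h h1 h2 h3 ?_ S).le
  intro x
  simpa using hε

end pos

end Q116.HT
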