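import Pool.Agent.Q116.HT.Fn

/-!
# Dimension six: nonpositive sectional curvature
-/

set_option autoImplicit false

namespace Q116.HT

open Finset Pool.Agent.Y195.HF Pool.Agent.W669.HD Pool.Agent.W666.GB MvPolynomial

section wick

variable {ι : Type} [Fintype ι] [DecidableEq ι] {K : ι → ι → ℝ}
  {E : MvPolynomial ι ℝ →ₗ[ℝ] ℝ}

/-- directional derivative -/
noncomputable def dv (K : ι → ι → ℝ) (a : ι) : Derivation ℝ (MvPolynomial ι ℝ) (MvPolynomial ι ℝ) :=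
  mkDerivation ℝ (fun j => C (K a j))

theorem dv_X (a b : ι) : dv K a (X b) = C (K a b) := by
  rw [dv, mkDerivation_X]

theorem dv_eq (a : ι) (f : MvPolynomial ι ℝ) : dv K a f = ∑ j, C (K a j) * pderiv j f := by
  induction f using MvPolynomial.induction_on with
  | C c => simp [dv]
  | add p q hp hq => simp only [map_add, hp, hq, mul_add, Finset.sum_add_distrib]
  | mul_X p i hp =>
    rw [Derivation.leibniz, dv_X, hp, smul_eq_mul, smul_eq_mul]
    have h2 : ∀ j : ι, C (K a j) * pderiv j (p * X i) =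
        (C (K a j) * pderiv j p) * X i + (if j = i then C (K a i) * p else 0) := by
      intro j
      rw [pderiv_mul]
      split_ifs with h
      · subst h
        rw [pderiv_X_self]
        ring
      · rw [pderiv_X_of_ne (Ne.symm h)]
        ring
    simp only [h2, Finset.sum_add_distrib, Finset.sum_ite_eq', Finset.mem_univ, if_true]
    rw [← Finset.sum_mul]
    ring

theorem IsG.dstep (hE : IsG K E) (a : ι) (f : MvPolynomial ι ℝ) : E (X a * f) = E (dv K a f) := by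
  rw [hE.step, dv_eq, map_sum]
  refine Finset.sum_congr rfl fun j _ => ?_
  rw [hE.C_mul]

theorem wick2 (hE : IsG K E) (a b : ι) : E (X a * X b) = K a b := by
  rw [hE.dstep, dv_X, ← mul_one (C (K a b)), hE.C_mul, hE.one, mul_one]

theorem wick4 (hE : IsG K E) (a b c d : ι) : E (X a * (X b * (X c * X d))) =
    K a b * K c d + K a c * K b d + K a d * K b c := by
  rw [hE.dstep]
  simp only [Derivation.leibniz, dv_X, smul_eq_mul]
  have h : X b * (X c * C (K a d) + X d * C (K a c)) + X c * X d * C (K a b) =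
      (C (K a b) * (X c * X d) + C (K a c) * (X b * X d) + C (K a d) * (X b * X c) :
        MvPolynomial ι ℝ) := by ring
  rw [h, map_add, map_add, hE.C_mul, hE.C_mul, hE.C_mul, wick2 hE, wick2 hE, wick2 hE]

theorem wick6 (hE : IsG K E) (a b c d e f : ι) :
    E (X a * (X b * (X c * (X d * (X e * X f))))) =
    K a b * (K c d * K e f + K c e * K d f + K c f * K d e) +
    K a c * (K b d * K e f + K b e * K d f + K b f * K d e) +
    K a d * (K b c * K e f + K b e * K c f + K b f * K c e) +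
    K a e * (K b c * K d f + K b d * K c f + K b f * K c d) +
    K a f * (K b c * K d e + K b d * K c e + K b e * K c d) := by
  rw [hE.dstep]
  simp only [Derivation.leibniz, dv_X, smul_eq_mul]
  have h : X b * (X c * (X d * (X e * C (K a f) + X f * C (K a e)) + X e * X f * C (K a d)) +
      X d * (X e * X f) * C (K a c)) + X c * (X d * (X e * X f)) * C (K a b) =
      (C (K a b) * (X c * (X d * (X e * X f))) + C (K a c) * (X b * (X d * (X e * X f))) +
      C (K a d) * (X b * (X c * (X e * X f))) + C (K a e) * (X b * (X c * (X d * X f))) +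
      C (K a f) * (X b * (X c * (X d * X e))) : MvPolynomial ι ℝ) := by ring
  rw [h, map_add, map_add, map_add, map_add, hE.C_mul, hE.C_mul, hE.C_mul, hE.C_mul, hE.C_mul,
    wick4 hE, wick4 hE, wick4 hE, wick4 hE, wick4 hE]

theorem wick222 (hE : IsG K E) (hK : ∀ i j, K i j = K j i) (a b c : ι) :
    E (X a ^ 2 * X b ^ 2 * X c ^ 2) = K a a * K b b * K c c + 2 * (K a a * K b c ^ 2 +
      K b b * K a c ^ 2 + K c c * K a b ^ 2) + 8 * (K a b * K b c * K a c) := by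
  have h : (X a ^ 2 * X b ^ 2 * X c ^ 2 : MvPolynomial ι ℝ) =
      X a * (X a * (X b * (X b * (X c * X c)))) := by ring
  rw [h, wick6 hE]
  ring

end wick

theorem kn_sym {m : ℕ} {B κ : Fin m → Fin m → ℝ} (hB : ∀ p q, B p q = B q p)
    (hκ : ∀ p q, κ p q = κ q p) (x y : Sp × Fin m) : kn B κ x y = kn B κ y x := by
  obtain ⟨p, i⟩ := x
  obtain ⟨q, j⟩ := y
  rcases p with _ | μ <;> rcases q with _ | ν
  · simp only [kn, hκ i j]
  · rfl
  · rfl
  · simp only [kn, hB i j, eq_comm]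

theorem gE_three {B κ : Fin 3 → Fin 3 → ℝ} (hB : ∀ p q, B p q = B q p)
    (hκ : ∀ p q, κ p q = κ q p) : gE (kn B κ) (sqp 3) =
      (3 * B 0 0 + κ 0 0) * (3 * B 1 1 + κ 1 1) * (3 * B 2 2 + κ 2 2) +
      2 * ((3 * B 0 0 + κ 0 0) * (3 * B 1 2 ^ 2 + κ 1 2 ^ 2) +
        (3 * B 1 1 + κ 1 1) * (3 * B 0 2 ^ 2 + κ 0 2 ^ 2) +
        (3 * B 2 2 + κ 2 2) * (3 * B 0 1 ^ 2 + κ 0 1 ^ 2)) +
      8 * (3 * (B 0 1 * B 1 2 * B 0 2) + κ 0 1 * κ 1 2 * κ 0 2) := by
  have hs := kn_sym hB hκ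
  have hE : IsG (kn B κ) (gE (kn B κ)) := gE_isG hs
  have h1 : sqp 3 = ∑ μ : Sp, ∑ ν : Sp, ∑ ρ : Sp,
      (X (μ, (0 : Fin 3)) ^ 2 * X (ν, (1 : Fin 3)) ^ 2 * X (ρ, (2 : Fin 3)) ^ 2 :
        MvPolynomial (Sp × Fin 3) ℝ) := by
    rw [sqp, Fin.prod_univ_three, Finset.sum_mul_sum, Finset.sum_mul]
    refine Finset.sum_congr rfl fun μ _ => ?_
    rw [Finset.sum_mul]
    refine Finset.sum_congr rfl fun ν _ => ?_
    rw [Finset.mul_sum]
  rw [h1]
  simp only [map_sum, wick222 hE hs]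
  have e1 : ((0 : Fin 3) = 1) = False := by simp
  have e2 : ((0 : Fin 3) = 2) = False := by simp
  have e3 : ((1 : Fin 3) = 0) = False := by simp
  have e4 : ((1 : Fin 3) = 2) = False := by simp
  have e5 : ((2 : Fin 3) = 0) = False := by simp
  have e6 : ((2 : Fin 3) = 1) = False := by simp
  simp only [Fintype.sum_option, Fin.sum_univ_three, kn, e1, e2, e3, e4, e5, e6, if_true, if_false]
  ring

theorem gm_three {T : T4 3} (hT : TorInv T) :
    gm (fun _ : Fin 3 => T) = 384 * (pA T 0 0 * pA T 1 1 * pA T 2 2 +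
      (pA T 0 0 * (3 / 2 * pA T 1 2 ^ 2 + 2 * pc T 1 2 ^ 2) +
       pA T 1 1 * (3 / 2 * pA T 0 2 ^ 2 + 2 * pc T 0 2 ^ 2) +
       pA T 2 2 * (3 / 2 * pA T 0 1 ^ 2 + 2 * pc T 0 1 ^ 2)) +
      3 * (pA T 0 1 * pA T 1 2 * pA T 0 2) + 8 * (pc T 0 1 * pc T 1 2 * pc T 0 2)) := by
  have hAsym : ∀ p q, pA T p q = pA T q p := by
    intro p q
    exact hT.pair _ _ _ _
  have hcsym : ∀ p q, pc T p q = pc T q p := by
    intro p q
    simp only [pc]
    by_cases hpq : p = q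
    · subst hpq; rfl
    · rw [if_neg hpq, if_neg (Ne.symm hpq), hT.a12 (q, false) (p, false), hT.a34]
      ring
  set B : Fin 3 → Fin 3 → ℝ := fun p q => if p = q then 2 / 3 * pA T p p else pA T p q with hB
  set κ : Fin 3 → Fin 3 → ℝ := fun p q => 2 * pc T p q with hκ
  have hBs : ∀ p q, B p q = B q p := by
    intro p q
    by_cases hpq : p = q
    · subst hpq; rfl
    · simp only [hB, if_neg hpq, if_neg (Ne.symm hpq), hAsym p q]
  have hκs : ∀ p q, κ p q = κ q p := by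
    intro p q
    simp only [hκ, hcsym p q]
  have e1 := eL_form (A := pA T) (c := pc T) (d := pd T) (B := B) (κ := κ) hBs
    (fun p q hpq => by simp only [hB, if_neg hpq]) (fun p q _ => rfl)
    (fun p q hpq => hT.two_d hpq) (fun p => by simp [pc]) (fun p => by simp [pd])
    (fun p => by simp only [hB, hκ, pc, if_true]; ring)
  rw [← hT.nf_eq] at e1
  rw [gm_LR, e1, top_pow rules (LR 3) LR_top, gE_three hBs hκs]
  have f1 : ((0 : Fin 3) = 1) = False := by simp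
  have f2 : ((0 : Fin 3) = 2) = False := by simp
  have f4 : ((1 : Fin 3) = 2) = False := by simp
  have f3 : ∀ p, pc T p p = 0 := by
    intro p; simp [pc]
  simp only [hB, hκ, f1, f2, f4, f3, if_true, if_false]
  have : ((Nat.factorial 3 : ℕ) : ℝ) = 6 := by norm_num [Nat.factorial]
  rw [this]
  ring

/-- the cubic inequality -/
theorem ineq_three {r1 r2 r3 a12 a13 a23 c12 c13 c23 : ℝ} (h1 : 0 ≤ r1) (h2 : 0 ≤ r2) (h3 : 0 ≤ r3)
    (k12 : 0 ≤ c12) (k13 : 0 ≤ c13) (k23 : 0 ≤ c23)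
    (b12 : 3 * |a12| ≤ 2 * c12 + 2 * (r1 * r2)) (b13 : 3 * |a13| ≤ 2 * c13 + 2 * (r1 * r3))
    (b23 : 3 * |a23| ≤ 2 * c23 + 2 * (r2 * r3)) :
    0 ≤ r1 ^ 2 * r2 ^ 2 * r3 ^ 2 + (r1 ^ 2 * (3 / 2 * a23 ^ 2 + 2 * c23 ^ 2) +
      r2 ^ 2 * (3 / 2 * a13 ^ 2 + 2 * c13 ^ 2) + r3 ^ 2 * (3 / 2 * a12 ^ 2 + 2 * c12 ^ 2)) +
      3 * (a12 * a23 * a13) + 8 * (c12 * c23 * c13) := by
  set x := |a12| with hx
  set y := |a13| with hy
  set z := |a23| with hz
  have hx0 : 0 ≤ x := abs_nonneg _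
  have hy0 : 0 ≤ y := abs_nonneg _
  have hz0 : 0 ≤ z := abs_nonneg _
  have ex : a12 ^ 2 = x ^ 2 := (sq_abs _).symm
  have ey : a13 ^ 2 = y ^ 2 := (sq_abs _).symm
  have ez : a23 ^ 2 = z ^ 2 := (sq_abs _).symm
  have hp : -(x * z * y) ≤ a12 * a23 * a13 := by
    have : x * z * y = |a12 * a23 * a13| := by rw [abs_mul, abs_mul]
    rw [this]
    exact neg_abs_le _
  rw [ex, ey, ez]
  -- 3xyz ≤ ...
  have p12 : 0 ≤ r1 * r2 := mul_nonneg h1 h2
  have p13 : 0 ≤ r1 * r3 := mul_nonneg h1 h3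
  have p23 : 0 ≤ r2 * r3 := mul_nonneg h2 h3
  have s1 : 3 * (x * y * z) ≤ x * y * (2 * c23 + 2 * (r2 * r3)) := by
    nlinarith [mul_nonneg hx0 hy0]
  have s2 : 3 * (x * y * z) ≤ x * z * (2 * c13 + 2 * (r1 * r3)) := by
    nlinarith [mul_nonneg hx0 hz0]
  have s3 : 3 * (x * y * z) ≤ y * z * (2 * c12 + 2 * (r1 * r2)) := by
    nlinarith [mul_nonneg hy0 hz0]
  -- first kind of terms
  have t1 : x * y * (r2 * r3) ≤ 1 / 2 * (r3 ^ 2 * x ^ 2 + r2 ^ 2 * y ^ 2) := by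
    nlinarith [sq_nonneg (r3 * x - r2 * y)]
  have t2 : x * z * (r1 * r3) ≤ 1 / 2 * (r3 ^ 2 * x ^ 2 + r1 ^ 2 * z ^ 2) := by
    nlinarith [sq_nonneg (r3 * x - r1 * z)]
  have t3 : y * z * (r1 * r2) ≤ 1 / 2 * (r2 ^ 2 * y ^ 2 + r1 ^ 2 * z ^ 2) := by
    nlinarith [sq_nonneg (r2 * y - r1 * z)]
  -- second kind of terms
  have u12 : x ≤ 2 / 3 * (c12 + r1 * r2) := by linarith
  have u13 : y ≤ 2 / 3 * (c13 + r1 * r3) := by linarith
  have u23 : z ≤ 2 / 3 * (c23 + r2 * r3) := by linarith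
  have v1 : x * y ≤ 4 / 9 * ((c12 + r1 * r2) * (c13 + r1 * r3)) := by
    have := mul_le_mul u12 u13 hy0 (by positivity)
    linarith
  have v2 : x * z ≤ 4 / 9 * ((c12 + r1 * r2) * (c23 + r2 * r3)) := by
    have := mul_le_mul u12 u23 hz0 (by positivity)
    linarith
  have v3 : y * z ≤ 4 / 9 * ((c13 + r1 * r3) * (c23 + r2 * r3)) := by
    have := mul_le_mul u13 u23 hz0 (by positivity)
    linarith
  have w1 := mul_le_mul_of_nonneg_right v1 k23
  have w2 := mul_le_mul_of_nonneg_right v2 k13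
  have w3 := mul_le_mul_of_nonneg_right v3 k12
  have q1 : 0 ≤ c12 * c13 * c23 := by positivity
  have q2 := sq_nonneg (r3 * c12 - r2 * c13)
  have q3 := sq_nonneg (r3 * c12 - r1 * c23)
  have q4 := sq_nonneg (r2 * c13 - r1 * c23)
  have q5 := sq_nonneg (r1 * c23 - r1 * r2 * r3)
  have q6 := sq_nonneg (r2 * c13 - r1 * r2 * r3)
  have q7 := sq_nonneg (r3 * c12 - r1 * r2 * r3)
  have q8 : 0 ≤ (r1 * c23) ^ 2 := sq_nonneg _
  have q9 : 0 ≤ (r2 * c13) ^ 2 := sq_nonneg _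
  have q10 : 0 ≤ (r3 * c12) ^ 2 := sq_nonneg _
  have q11 : 0 ≤ (r1 * z) ^ 2 := sq_nonneg _
  have q12 : 0 ≤ (r2 * y) ^ 2 := sq_nonneg _
  have q13 : 0 ≤ (r3 * x) ^ 2 := sq_nonneg _
  have q14 : 0 ≤ (r1 * r2 * r3) ^ 2 := sq_nonneg _
  nlinarith

end Q116.HT
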