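import Pool.Agent.Q116.HT.Hl

/-!
# Positivity with additional positively correlated factors
-/

set_option autoImplicit false

namespace Q116.HT

open MvPolynomial Finset

section pos

variable {J Y : Type} [Fintype J] [DecidableEq J] [Fintype Y] [DecidableEq Y]

/-- the quadratic factors -/
noncomputable def qq (h : J → Y) (g : J → ℝ) (x : J) : MvPolynomial (J ⊕ Y) ℝ :=
  (X (Sum.inl x) + C (g x)) ^ 2 + X (Sum.inr (h x)) ^ 2

/-- products of variables -/
noncomputable def lp (l : List Y) : MvPolynomial (J ⊕ Y) ℝ := (l.map fun y => X (Sum.inr y)).prod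

theorem lp_cons (y : Y) (l : List Y) : (lp (y :: l) : MvPolynomial (J ⊕ Y) ℝ) =
    X (Sum.inr y) * lp l := by
  simp [lp]

theorem lp_nil : (lp ([] : List Y) : MvPolynomial (J ⊕ Y) ℝ) = 1 := by
  simp [lp]

/-- the assumptions on the covariance -/
structure Cov (K : J ⊕ Y → J ⊕ Y → ℝ) (h : J → Y) : Prop where
  sym : ∀ i j, K i j = K j i
  cross : ∀ x y, K (Sum.inl x) (Sum.inr y) = 0
  dom : ∀ x x', |K (Sum.inl x) (Sum.inl x')| ≤ K (Sum.inr (h x)) (Sum.inr (h x'))
  nn : ∀ y y', 0 ≤ K (Sum.inr y) (Sum.inr y')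

variable {K : J ⊕ Y → J ⊕ Y → ℝ} {E : MvPolynomial (J ⊕ Y) ℝ →ₗ[ℝ] ℝ} {h : J → Y}

theorem pos_q0 (hK : Cov K h) (hE : IsG K E) (g : J → ℝ) (S : Finset J) :
    0 ≤ E (∏ x ∈ S, qq h g x) := by
  have hC : IsG (fun i j => ((K i j : ℝ) : ℂ)) (gE (fun i j => ((K i j : ℝ) : ℂ))) :=
    gE_isG fun i j => by rw [hK.sym i j]
  have h1 := pos_q hC h hK.cross (fun x y => by rw [hK.sym]; exact hK.cross x y) hK.dom g S
  have h2 := hE.map (algebraMap ℝ ℂ) (F := gE (fun i j => ((K i j : ℝ) : ℂ))) (by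
    simpa using hC) (∏ x ∈ S, qq h g x)
  have h3 : MvPolynomial.map (algebraMap ℝ ℂ) (∏ x ∈ S, qq h g x) =
      ∏ x ∈ S, ((X (Sum.inl x) + C ((g x : ℝ) : ℂ)) ^ 2 + X (Sum.inr (h x)) ^ 2) := by
    rw [map_prod]
    refine Finset.prod_congr rfl fun x _ => ?_
    simp only [qq, map_add, map_pow, map_X, map_C]
    rfl
  rw [h3] at h2
  rw [h2] at h1
  simpa using h1

theorem list_der (y' : Y) (l : List Y) : ∀ f : MvPolynomial (J ⊕ Y) ℝ,
    (∀ l' : List Y, l'.length + 1 = l.length → 0 ≤ E (f * lp l')) →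
      0 ≤ E (f * pderiv (Sum.inr y') (lp l)) := by
  induction l with
  | nil =>
    intro f _
    rw [lp_nil, pderiv_one, mul_zero, map_zero]
  | cons z l ih =>
    intro f hf
    rw [lp_cons, pderiv_mul, mul_add, map_add]
    refine add_nonneg ?_ ?_
    · by_cases hz : z = y'
      · subst hz
        rw [pderiv_X_self, one_mul]
        exact hf l rfl
      · rw [pderiv_X_of_ne (by simpa using hz), zero_mul, mul_zero, map_zero]
    · rw [← mul_assoc]
      refine ih (f * X (Sum.inr z)) fun l' hl' => ?_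
      have := hf (z :: l') (by simpa using hl')
      rwa [lp_cons, ← mul_assoc] at this

theorem pderiv_qq (g : J → ℝ) (x : J) (y' : Y) : pderiv (Sum.inr y') (qq h g x) =
    if h x = y' then C 2 * X (Sum.inr (h x)) else 0 := by
  rw [qq, map_add, pderiv_pow, pderiv_pow, map_add, pderiv_X_of_ne (by simp), pderiv_C]
  split_ifs with hx
  · subst hx
    rw [pderiv_X_self, show (C 2 : MvPolynomial (J ⊕ Y) ℝ) = 2 from map_ofNat C 2]
    simp
  · rw [pderiv_X_of_ne (by simpa using hx)]
    simp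

theorem pos_ql (hK : Cov K h) (hE : IsG K E) (g : J → ℝ) (S : Finset J) (l : List Y) :
    0 ≤ E ((∏ x ∈ S, qq h g x) * lp l) := by
  have key : ∀ n : ℕ, ∀ (S : Finset J) (l : List Y), l.length + 2 * S.card = n →
      0 ≤ E ((∏ x ∈ S, qq h g x) * lp l) := by
    intro n
    induction n using Nat.strong_induction_on with
    | _ n ih =>
      intro S l hn
      rcases l with _ | ⟨y, l⟩
      · rw [lp_nil, mul_one]
        exact pos_q0 hK hE g S
      · rw [lp_cons, mul_left_comm, hE.step, Fintype.sum_sum_type]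
        have h1 : ∑ a₁ : J, K (Sum.inr y) (Sum.inl a₁) *
            E (pderiv (Sum.inl a₁) ((∏ x ∈ S, qq h g x) * lp l)) = 0 :=
          Finset.sum_eq_zero fun x _ => by rw [hK.sym, hK.cross, zero_mul]
        rw [h1, zero_add]
        refine Finset.sum_nonneg fun y' _ => mul_nonneg (hK.nn _ _) ?_
        rw [pderiv_mul, map_add]
        refine add_nonneg ?_ ?_
        · rw [der_prod, Finset.sum_mul, map_sum]
          refine Finset.sum_nonneg fun x hx => ?_
          rw [pderiv_qq]
          split_ifs with hxy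
          · have h2 : (C 2 * X (Sum.inr (h x)) * ∏ k ∈ S.erase x, qq h g k) * lp l =
                C 2 * ((∏ k ∈ S.erase x, qq h g k) * lp (h x :: l)) := by
              rw [lp_cons]; ring
            rw [h2, hE.C_mul]
            refine mul_nonneg zero_le_two (ih _ ?_ (S.erase x) (h x :: l) rfl)
            have h3 := Finset.card_erase_add_one hx
            simp only [List.length_cons] at hn ⊢
            omega
          · rw [zero_mul, zero_mul, map_zero]
        · refine list_der y' l _ fun l' hl' => ih _ ?_ S l' rfl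
          simp only [List.length_cons] at hn
          omega
  exact key _ S l rfl

end pos

section many

variable {J Y I : Type} [Fintype J] [DecidableEq J] [Fintype Y] [DecidableEq Y] [Fintype I]
  [DecidableEq I]

variable {K : J ⊕ Y → J ⊕ Y → ℝ} {E : MvPolynomial (J ⊕ Y) ℝ →ₗ[ℝ] ℝ} {h : J → Y}

/-- factors `∑_{x ∈ A i} q_x + ∑_{(y, y') ∈ D i} y y'` -/
noncomputable def fi (h : J → Y) (g : J → ℝ) (A : I → Finset J) (D : I → Finset (Y × Y)) (i : I) :
    MvPolynomial (J ⊕ Y) ℝ :=
  ∑ x ∈ A i, qq h g x + ∑ p ∈ D i, X (Sum.inr p.1) * X (Sum.inr p.2)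

theorem pos_fi (hK : Cov K h) (hE : IsG K E) (g : J → ℝ) (A : I → Finset J)
    (D : I → Finset (Y × Y)) (hA : ∀ i j, i ≠ j → Disjoint (A i) (A j)) (T : Finset I) :
    ∀ (S : Finset J) (l : List Y), (∀ i ∈ T, Disjoint (A i) S) →
      0 ≤ E ((∏ i ∈ T, fi h g A D i) * ((∏ x ∈ S, qq h g x) * lp l)) := by
  induction T using Finset.induction_on with
  | empty =>
    intro S l _
    rw [Finset.prod_empty, one_mul]
    exact pos_ql hK hE g S l
  | insert i T hi ih =>
    intro S l hS
    rw [Finset.prod_insert hi, fi, add_mul, add_mul, map_add, Finset.sum_mul, Finset.sum_mul,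
      Finset.sum_mul, Finset.sum_mul, map_sum, map_sum]
    refine add_nonneg (Finset.sum_nonneg fun x hx => ?_) (Finset.sum_nonneg fun p _ => ?_)
    · have hxS : x ∉ S := fun h' =>
        (Finset.disjoint_left.mp (hS i (Finset.mem_insert_self _ _)) hx) h'
      have h1 : qq h g x * (∏ i ∈ T, fi h g A D i) * ((∏ x ∈ S, qq h g x) * lp l) =
          (∏ i ∈ T, fi h g A D i) * ((∏ x ∈ insert x S, qq h g x) * lp l) := by
        rw [Finset.prod_insert hxS]; ring
      rw [h1]
      refine ih (insert x S) l fun j hj => ?_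
      rw [Finset.disjoint_insert_right]
      refine ⟨fun hxj => ?_, hS j (Finset.mem_insert_of_mem hj)⟩
      have hij : i ≠ j := fun h' => hi (h' ▸ hj)
      exact Finset.disjoint_left.mp (hA i j hij) hx hxj
    · have h1 : (X (Sum.inr p.1) * X (Sum.inr p.2)) * (∏ i ∈ T, fi h g A D i) *
          ((∏ x ∈ S, qq h g x) * lp l) =
          (∏ i ∈ T, fi h g A D i) * ((∏ x ∈ S, qq h g x) * lp (p.1 :: p.2 :: l)) := by
        rw [lp_cons, lp_cons]; ring
      rw [h1]
      exact ih S _ fun j hj => hS j (Finset.mem_insert_of_mem hj)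

/-- Lower bound by the product of chosen squares. -/
theorem lower_fi (hK : Cov K h) (hE : IsG K E) (g : J → ℝ) (A : I → Finset J)
    (D : I → Finset (Y × Y)) (hA : ∀ i j, i ≠ j → Disjoint (A i) (A j)) (u : I → Y)
    (hu : ∀ i, (u i, u i) ∈ D i) (T : Finset I) :
    ∀ (S : Finset J) (l : List Y), (∀ i ∈ T, Disjoint (A i) S) →
      0 ≤ E ((∏ i ∈ T, fi h g A D i - ∏ i ∈ T, X (Sum.inr (u i)) ^ 2) *
        ((∏ x ∈ S, qq h g x) * lp l)) := by
  induction T using Finset.induction_on with
  | empty =>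
    intro S l _
    rw [Finset.prod_empty, Finset.prod_empty, sub_self, zero_mul, map_zero]
  | insert i T hi ih =>
    intro S l hS
    have hS' : ∀ j ∈ T, Disjoint (A j) S := fun j hj => hS j (Finset.mem_insert_of_mem hj)
    have h0 : fi h g A D i = ∑ x ∈ A i, qq h g x +
        (∑ p ∈ (D i).erase (u i, u i), X (Sum.inr p.1) * X (Sum.inr p.2) +
          X (Sum.inr (u i)) ^ 2) := by
      rw [fi]
      congr 1
      rw [← Finset.add_sum_erase _ _ (hu i)]
      ring
    have h1 : (∏ j ∈ insert i T, fi h g A D j - ∏ j ∈ insert i T, X (Sum.inr (u j)) ^ 2) *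
        ((∏ x ∈ S, qq h g x) * lp l) =
        (∑ x ∈ A i, (∏ j ∈ T, fi h g A D j) * ((qq h g x * ∏ x ∈ S, qq h g x) * lp l) +
        ∑ p ∈ (D i).erase (u i, u i), (∏ j ∈ T, fi h g A D j) *
          ((∏ x ∈ S, qq h g x) * lp (p.1 :: p.2 :: l))) +
        (∏ j ∈ T, fi h g A D j - ∏ j ∈ T, X (Sum.inr (u j)) ^ 2) *
          ((∏ x ∈ S, qq h g x) * lp (u i :: u i :: l)) := by
      rw [Finset.prod_insert hi, Finset.prod_insert hi, h0]
      simp only [lp_cons]
      have e1 : ∑ x ∈ A i, (∏ j ∈ T, fi h g A D j) * ((qq h g x * ∏ x ∈ S, qq h g x) * lp l) =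
          (∑ x ∈ A i, qq h g x) * ((∏ j ∈ T, fi h g A D j) * ((∏ x ∈ S, qq h g x) * lp l)) := by
        rw [Finset.sum_mul]
        refine Finset.sum_congr rfl fun x _ => ?_
        ring
      have e2 : ∑ p ∈ (D i).erase (u i, u i), (∏ j ∈ T, fi h g A D j) *
          ((∏ x ∈ S, qq h g x) * (X (Sum.inr p.1) * (X (Sum.inr p.2) * lp l))) =
          (∑ p ∈ (D i).erase (u i, u i), X (Sum.inr p.1) * X (Sum.inr p.2)) *
            ((∏ j ∈ T, fi h g A D j) * ((∏ x ∈ S, qq h g x) * lp l)) := by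
        rw [Finset.sum_mul]
        refine Finset.sum_congr rfl fun x _ => ?_
        ring
      rw [e1, e2]
      ring
    rw [h1, map_add, map_add, map_sum, map_sum]
    refine add_nonneg (add_nonneg (Finset.sum_nonneg fun x hx => ?_)
      (Finset.sum_nonneg fun p _ => ?_)) ?_
    · have hxS : x ∉ S := fun h' =>
        (Finset.disjoint_left.mp (hS i (Finset.mem_insert_self _ _)) hx) h'
      rw [← Finset.prod_insert hxS]
      refine pos_fi hK hE g A D hA T (insert x S) l fun j hj => ?_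
      rw [Finset.disjoint_insert_right]
      refine ⟨fun hxj => ?_, hS' j hj⟩
      have hij : i ≠ j := fun h' => hi (h' ▸ hj)
      exact Finset.disjoint_left.mp (hA i j hij) hx hxj
    · exact pos_fi hK hE g A D hA T S _ hS'
    · exact ih S _ hS'

theorem lower_fi' (hK : Cov K h) (hE : IsG K E) (g : J → ℝ) (A : I → Finset J)
    (D : I → Finset (Y × Y)) (hA : ∀ i j, i ≠ j → Disjoint (A i) (A j)) (u : I → Y)
    (hu : ∀ i, (u i, u i) ∈ D i) :
    E (∏ i, X (Sum.inr (u i)) ^ 2) ≤ E (∏ i, fi h g A D i) := by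
  have := lower_fi hK hE g A D hA u hu univ ∅ [] (fun i _ => Finset.disjoint_empty_right _)
  rw [Finset.prod_empty, lp_nil, mul_one, mul_one, map_sub] at this
  linarith

end many

end Q116.HT
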