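import Pool.Agent.Q116.HT.M3
import Pool.Agent.W688.HD.BAS

/-!
# Sectional curvature of invariant tensors
-/

set_option autoImplicit false

namespace Q116.HT

open Finset Pool.Agent.Y195.HF Pool.Agent.W669.HD Pool.Agent.W666.GB

section sec

variable {m : ℕ} {V : Type} [NormedAddCommGroup V] [InnerProductSpace ℝ V]

theorem expand4 {R : V → V → V → V → ℝ} (hR : AlgCurv R) (x x' y y' : V) (a b c d : ℝ) :
    R (a • x + b • x') (c • y + d • y') (a • x + b • x') (c • y + d • y') =
      a * c * a * c * R x y x y + a * c * a * d * R x y x y' + a * c * b * c * R x y x' y +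
      a * c * b * d * R x y x' y' + a * d * a * c * R x y' x y + a * d * a * d * R x y' x y' +
      a * d * b * c * R x y' x' y + a * d * b * d * R x y' x' y' + b * c * a * c * R x' y x y +
      b * c * a * d * R x' y x y' + b * c * b * c * R x' y x' y + b * c * b * d * R x' y x' y' +
      b * d * a * c * R x' y' x y + b * d * a * d * R x' y' x y' + b * d * b * c * R x' y' x' y +
      b * d * b * d * R x' y' x' y' := by
  have h2 : ∀ x y y' z w, R x (y + y') z w = R x y z w + R x y' z w := by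
    intro x y y' z w
    rw [hR.anti (y + y') x, hR.add, hR.anti x y, hR.anti x y']; ring
  have h3 : ∀ x y z z' w, R x y (z + z') w = R x y z w + R x y z' w := by
    intro x y z z' w
    rw [← hR.pair x y (z + z') w, hR.add, hR.pair x y z w, hR.pair x y z' w]
  have h4 : ∀ x y z w w', R x y z (w + w') = R x y z w + R x y z w' := by
    intro x y z w w'
    rw [← hR.pair x y z (w + w'), h2, hR.pair x y z w, hR.pair x y z w']
  simp only [hR.add, h2, h3, h4, smul4 hR]
  ring

theorem sec_form (e : OrthonormalBasis (Fin m × Bool) ℝ V) {R : V → V → V → V → ℝ}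
    (hR : AlgCurv R) (hI : TurnInv e R) {p q : Fin m} (hpq : p ≠ q) (a b c d : ℝ) :
    R (a • e (p, false) + b • e (q, false)) (c • e (p, true) + d • e (q, true))
      (a • e (p, false) + b • e (q, false)) (c • e (p, true) + d • e (q, true)) =
      -(a ^ 2 * c ^ 2 * pA (cp e (negT R)) p p + b ^ 2 * d ^ 2 * pA (cp e (negT R)) q q +
        (a ^ 2 * d ^ 2 + b ^ 2 * c ^ 2) * pc (cp e (negT R)) p q +
        3 * (a * b * c * d) * pA (cp e (negT R)) p q) := by
  have hT := torInv_cp e hR hI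
  rw [expand4 hR]
  have hv : ∀ i j k l, R (e i) (e j) (e k) (e l) = - cp e (negT R) i j k l := by
    intro i j k l
    simp only [cp, negT, neg_neg]
  simp only [hv]
  generalize cp e (negT R) = T at hT
  have t2 : T (p, false) (p, true) (p, false) (q, true) = 0 := hT.zero4 hpq hpq hpq
  have t3 : T (p, false) (p, true) (q, false) (p, true) = 0 := hT.zero3 hpq hpq hpq
  have t5 : T (p, false) (q, true) (p, false) (p, true) = 0 := hT.zero2 hpq hpq hpq
  have t6 : T (p, false) (q, true) (p, false) (q, true) = pc T p q := by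
    rw [hT.mixed hpq, pc, if_neg hpq]; simp [w1, wf]
  have t7 : T (p, false) (q, true) (q, false) (p, true) = pd T p q := by
    rw [hT.a34 (p, false) (q, true) (p, true) (q, false), hT.mixed hpq, pd, if_neg hpq]
    simp [w1, wf]
  have t8 : T (p, false) (q, true) (q, false) (q, true) = 0 :=
    hT.zero1 hpq.symm hpq.symm hpq.symm
  have t9 : T (q, false) (p, true) (p, false) (p, true) = 0 := hT.zero1 hpq hpq hpq
  have t10 : T (q, false) (p, true) (p, false) (q, true) = pd T p q := by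
    rw [← hT.pair, t7]
  have t11 : T (q, false) (p, true) (q, false) (p, true) = pc T p q := by
    rw [hT.a12 (p, true) (q, false), hT.a34 (p, true) (q, false) (p, true) (q, false),
      hT.mixed hpq, pc, if_neg hpq]
    simp [w1, wf]
  have t12 : T (q, false) (p, true) (q, false) (q, true) = 0 :=
    hT.zero2 hpq.symm hpq.symm hpq.symm
  have t13 : T (q, false) (q, true) (p, false) (p, true) = pA T p q := by
    rw [← hT.pair]; rfl
  have t14 : T (q, false) (q, true) (p, false) (q, true) = 0 :=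
    hT.zero3 hpq.symm hpq.symm hpq.symm
  have t15 : T (q, false) (q, true) (q, false) (p, true) = 0 :=
    hT.zero4 hpq.symm hpq.symm hpq.symm
  have td := hT.two_d hpq
  rw [t2, t3, t5, t6, t7, t8, t9, t10, t11, t12, t13, t14, t15]
  simp only [pA] at td ⊢
  linear_combination (-(a * b * c * d)) * td

theorem inner_ee (e : OrthonormalBasis (Fin m × Bool) ℝ V) (i j : Fin m × Bool) :
    inner ℝ (e i) (e j) = if i = j then (1 : ℝ) else 0 :=
  orthonormal_iff_ite.mp e.orthonormal i j

theorem unit_form (e : OrthonormalBasis (Fin m × Bool) ℝ V) {p q : Fin m} (hpq : p ≠ q)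
    (a b c d : ℝ) :
    unitT (a • e (p, false) + b • e (q, false)) (c • e (p, true) + d • e (q, true))
      (a • e (p, false) + b • e (q, false)) (c • e (p, true) + d • e (q, true)) =
      (a ^ 2 + b ^ 2) * (c ^ 2 + d ^ 2) := by
  simp only [unitT, inner_add_left, inner_add_right, inner_smul_left, inner_smul_right,
    conj_trivial, inner_ee, Prod.mk.injEq, hpq, hpq.symm, and_false, false_and, and_true, true_and,
    if_true, if_false, Bool.false_eq_true, Bool.true_eq_false]
  ring

/-- the sectional curvatures are at most `-δ` -/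
def SecLe (R : V → V → V → V → ℝ) (δ : ℝ) : Prop := ∀ x y, R x y x y ≤ -(δ * unitT x y x y)

theorem sec_diag (e : OrthonormalBasis (Fin m × Bool) ℝ V) {R : V → V → V → V → ℝ} {δ : ℝ}
    (hs : SecLe R δ) (p : Fin m) : 0 ≤ pA (cp e (negT R)) p p - δ := by
  have h := hs (e (p, false)) (e (p, true))
  simp only [unitT, inner_ee, Prod.mk.injEq, true_and, if_true, if_false, Bool.false_eq_true,
    Bool.true_eq_false] at h
  simp only [pA, cp, negT]
  linarith

theorem sec_off (e : OrthonormalBasis (Fin m × Bool) ℝ V) {R : V → V → V → V → ℝ} {δ : ℝ}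
    (hs : SecLe R δ) {p q : Fin m} (hpq : p ≠ q) : 0 ≤ pc (cp e (negT R)) p q - δ := by
  have h := hs (e (p, false)) (e (q, false))
  simp only [unitT, inner_ee, Prod.mk.injEq, hpq, hpq.symm, false_and, if_true,
    if_false] at h
  simp only [pc, if_neg hpq, cp, negT]
  linarith

theorem sec_pair (e : OrthonormalBasis (Fin m × Bool) ℝ V) {R : V → V → V → V → ℝ} {δ : ℝ}
    (hR : AlgCurv R) (hI : TurnInv e R) (hs : SecLe R δ) {p q : Fin m} (hpq : p ≠ q) :
    3 * |pA (cp e (negT R)) p q| ≤ 2 * (pc (cp e (negT R)) p q - δ) +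
      2 * (Real.sqrt (pA (cp e (negT R)) p p - δ) * Real.sqrt (pA (cp e (negT R)) q q - δ)) := by
  have hk := sec_diag e hs p
  have hl := sec_diag e hs q
  have hc := sec_off e hs hpq
  set T := cp e (negT R) with hT
  set k := pA T p p - δ with hkd
  set l := pA T q q - δ with hld
  set c := pc T p q - δ with hcd
  have key : ∀ s : ℝ, s ^ 2 = 1 → -(2 * c + 3 * s * pA T p q) ≤ 2 * (Real.sqrt k * Real.sqrt l) := by
    intro s hs1
    set u := 2 * c + 3 * s * pA T p q with hu
    have h1 : ∀ A : ℝ, 0 ≤ A → 0 ≤ k * (A * A) + u * A + l := by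
      intro A hA
      set a := Real.sqrt A with ha
      have ha2 : a ^ 2 = A := Real.sq_sqrt hA
      have h2 := hs (a • e (p, false) + (1 : ℝ) • e (q, false))
        (a • e (p, true) + s • e (q, true))
      rw [sec_form e hR hI hpq, unit_form e hpq, ← hT, ha2, hs1] at h2
      have e1 : a * 1 * a * s = A * s := by rw [← ha2]; ring
      rw [e1] at h2
      have e2 : k * (A * A) + u * A + l = A * A * pA T p p + pA T q q +
          (A + A) * pc T p q + 3 * (A * s) * pA T p q - δ * ((A + 1) * (A + 1)) := by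
        rw [hu, hkd, hld, hcd]; ring
      rw [e2]
      nlinarith [h2]
    by_cases hu0 : 0 ≤ u
    · have : 0 ≤ Real.sqrt k * Real.sqrt l := by positivity
      linarith
    · push Not at hu0
      have h3 : ∀ A : ℝ, 0 ≤ k * (A * A) + u * A + l := by
        intro A
        rcases le_or_gt 0 A with hA | hA
        · exact h1 A hA
        · have : 0 ≤ k * (A * A) := mul_nonneg hk (mul_self_nonneg _)
          have : 0 ≤ u * A := (mul_pos_of_neg_of_neg hu0 hA).le
          linarith
      have h4 := discrim_le_zero h3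
      rw [discrim] at h4
      have h5 : (-u) ^ 2 ≤ (2 * (Real.sqrt k * Real.sqrt l)) ^ 2 := by
        have e3 : (2 * (Real.sqrt k * Real.sqrt l)) ^ 2 = 4 * k * l := by
          rw [mul_pow, mul_pow, Real.sq_sqrt hk, Real.sq_sqrt hl]; ring
        rw [e3]
        linarith
      exact le_of_sq_le_sq h5 (by positivity)
  have k1 := key 1 (by norm_num)
  have k2 := key (-1) (by norm_num)
  have : |pA T p q| ≤ (2 * c + 2 * (Real.sqrt k * Real.sqrt l)) / 3 := by
    rw [abs_le]
    constructor <;> linarith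
  linarith

/-- Dimension six. -/
theorem six_bound (e : OrthonormalBasis (Fin 3 × Bool) ℝ V) {R : V → V → V → V → ℝ}
    (hR : AlgCurv R) {δ : ℝ} (hδ : 0 ≤ δ) (hI : TurnInv e R) (hs : SecLe R δ) :
    roundGB 3 δ ≤ (-1) ^ 3 * gbc e R := by
  rw [gbc_eq]
  have hπ := Real.pi_pos
  have hc : 0 < 1 / ((8 * Real.pi) ^ 3 * ((3 : ℕ).factorial : ℝ)) := by positivity
  have hr : roundGB 3 δ = 1 / ((8 * Real.pi) ^ 3 * (3 : ℕ).factorial) *
      (2 ^ 3 * (δ ^ 3 * (2 * 3).factorial)) := by
    unfold roundGB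
    have : (8 * Real.pi) ^ 3 = 2 ^ 3 * (4 * Real.pi) ^ 3 := by
      rw [← mul_pow]; congr 1; ring
    rw [this]
    field_simp
  rw [hr]
  refine mul_le_mul_of_nonneg_left ?_ hc.le
  rw [gm_three (torInv_cp e hR hI)]
  have n01 : (0 : Fin 3) ≠ 1 := by simp
  have n02 : (0 : Fin 3) ≠ 2 := by simp
  have n12 : (1 : Fin 3) ≠ 2 := by simp
  have d0 := sec_diag e hs 0
  have d1 := sec_diag e hs 1
  have d2 := sec_diag e hs 2
  have c01 := sec_off e hs n01
  have c02 := sec_off e hs n02
  have c12 := sec_off e hs n12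
  have p01 := sec_pair e hR hI hs n01
  have p02 := sec_pair e hR hI hs n02
  have p12 := sec_pair e hR hI hs n12
  generalize cp e (negT R) = T at *
  have h := ineq_three (Real.sqrt_nonneg _) (Real.sqrt_nonneg _) (Real.sqrt_nonneg _) c01 c02 c12
    p01 p02 p12
  rw [Real.sq_sqrt d0, Real.sq_sqrt d1, Real.sq_sqrt d2] at h
  generalize pA T 0 0 = k0 at *
  generalize pA T 1 1 = k1 at *
  generalize pA T 2 2 = k2 at *
  generalize pA T 0 1 = a01 at *
  generalize pA T 0 2 = a02 at *
  generalize pA T 1 2 = a12 at *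
  generalize pc T 0 1 = g01 at *
  generalize pc T 0 2 = g02 at *
  generalize pc T 1 2 = g12 at *
  obtain ⟨κ0, rfl⟩ : ∃ κ, k0 = κ + δ := ⟨k0 - δ, by ring⟩
  obtain ⟨κ1, rfl⟩ : ∃ κ, k1 = κ + δ := ⟨k1 - δ, by ring⟩
  obtain ⟨κ2, rfl⟩ : ∃ κ, k2 = κ + δ := ⟨k2 - δ, by ring⟩
  obtain ⟨γ01, rfl⟩ : ∃ κ, g01 = κ + δ := ⟨g01 - δ, by ring⟩
  obtain ⟨γ02, rfl⟩ : ∃ κ, g02 = κ + δ := ⟨g02 - δ, by ring⟩
  obtain ⟨γ12, rfl⟩ : ∃ κ, g12 = κ + δ := ⟨g12 - δ, by ring⟩
  simp only [add_sub_cancel_right] at d0 d1 d2 c01 c02 c12 h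
  have hpos : 0 ≤ δ * (κ0 * κ1 + κ0 * κ2 + κ1 * κ2) + δ ^ 2 * (κ0 + κ1 + κ2) +
      (δ * (3 / 2 * a12 ^ 2 + 3 / 2 * a02 ^ 2 + 3 / 2 * a01 ^ 2) +
      (κ0 * (4 * (γ12 * δ) + 2 * δ ^ 2) + κ1 * (4 * (γ02 * δ) + 2 * δ ^ 2) +
        κ2 * (4 * (γ01 * δ) + 2 * δ ^ 2)) +
      (δ * (2 * γ12 ^ 2 + 4 * (γ12 * δ)) + δ * (2 * γ02 ^ 2 + 4 * (γ02 * δ)) +
        δ * (2 * γ01 ^ 2 + 4 * (γ01 * δ)))) +
      8 * (δ * (γ01 * γ02 + γ01 * γ12 + γ02 * γ12) + δ ^ 2 * (γ01 + γ02 + γ12)) := by
    positivity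
  have hf : ((2 * 3).factorial : ℝ) = 720 := by norm_num [Nat.factorial]
  rw [hf]
  nlinarith [h, hpos]

end sec

end Q116.HT
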